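import Pool.Agent.P.MP_baf437_nt.SP.Defs

/-! Counting integers that are close to a multiple of many pairwise coprime moduli. -/

open Finset

namespace Pool.Agent.P.MP_baf437_nt.SP

namespace BAux

/-- A set is at most as large as its image plus the number of collisions. -/
theorem card_le_image_add {β : Type*} [DecidableEq β] (S : Finset ℕ) (f : ℕ → β) :
    S.card ≤ (S.image f).card + (S.offDiag.filter fun p => f p.1 = f p.2).card := by
  classical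
  have h1 : (S.filter fun m => ∀ m' ∈ S, f m = f m' → m ≤ m').card ≤ (S.image f).card := by
    refine card_le_card_of_injOn f (fun m hm => ?_) (fun a ha b hb hab => ?_)
    · exact mem_coe.2 (mem_image_of_mem f (mem_filter.1 (mem_coe.1 hm)).1)
    · have ha' := mem_filter.1 (mem_coe.1 ha)
      have hb' := mem_filter.1 (mem_coe.1 hb)
      exact le_antisymm (ha'.2 b hb'.1 hab) (hb'.2 a ha'.1 hab.symm)
  have h2 : (S.filter fun m => ¬ ∀ m' ∈ S, f m = f m' → m ≤ m').card ≤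
      (S.offDiag.filter fun p => f p.1 = f p.2).card := by
    refine le_trans (card_le_card ?_) (card_image_le (f := Prod.fst))
    intro m hm
    obtain ⟨hmS, hm2⟩ := mem_filter.1 hm
    push Not at hm2
    obtain ⟨m', hm', he, hlt⟩ := hm2
    exact mem_image.2 ⟨(m, m'), mem_filter.2 ⟨mem_offDiag.2 ⟨hmS, hm', hlt.ne'⟩, he⟩, rfl⟩
  have h3 := card_filter_add_card_filter_not (s := S) (fun m => ∀ m' ∈ S, f m = f m' → m ≤ m')
  omega

/-- Double counting over all tuples of indices. -/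
theorem sum_tuples {α : Type*} (r : ℕ) (I : Finset ℕ) (A : Finset α) (G : α → Finset ℕ)
    (hG : ∀ a ∈ A, G a ⊆ I) :
    ∑ ρ ∈ Fintype.piFinset (fun _ : Fin r => I), (A.filter fun a => ∀ l, ρ l ∈ G a).card =
      ∑ a ∈ A, (G a).card ^ r := by
  simp only [card_filter]
  rw [sum_comm]
  refine sum_congr rfl fun a ha => ?_
  rw [← card_filter]
  have : ((Fintype.piFinset fun _ : Fin r => I).filter fun ρ => ∀ l, ρ l ∈ G a) =
      Fintype.piFinset fun _ : Fin r => G a := by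
    ext ρ
    rw [mem_filter, Fintype.mem_piFinset, Fintype.mem_piFinset]
    exact ⟨fun h => h.2, fun h => ⟨fun l => hG a ha (h l), h⟩⟩
  rw [this, Fintype.card_piFinset, prod_const, card_univ, Fintype.card_fin]

/-- A small nonzero integer is divisible by few of the moduli. -/
theorem few_dvd (I : Finset ℕ) (q : ℕ → ℕ) (Q D : ℕ) (hQ : ∀ i ∈ I, Q ≤ q i)
    (hc : ∀ i ∈ I, ∀ i' ∈ I, i ≠ i' → (q i).Coprime (q i')) (n : ℤ) (hn : n ≠ 0)
    (hlt : n.natAbs < Q ^ (D + 1)) : (I.filter fun i => (q i : ℤ) ∣ n).card ≤ D := by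
  by_contra h
  have hQ0 : 0 < Q := by
    rcases Nat.eq_zero_or_pos Q with h0 | h0
    · rw [h0, zero_pow (Nat.succ_ne_zero D)] at hlt
      exact absurd hlt (Nat.not_lt_zero _)
    · exact h0
  have hd : (∏ i ∈ I.filter fun i => (q i : ℤ) ∣ n, q i) ∣ n.natAbs := by
    refine Finset.prod_dvd_of_isRelPrime (fun a ha b hb hab => ?_) (fun i hi => ?_)
    · exact Nat.coprime_iff_isRelPrime.1
        (hc a (mem_filter.1 (mem_coe.1 ha)).1 b (mem_filter.1 (mem_coe.1 hb)).1 hab)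
    · exact Int.natCast_dvd.1 (mem_filter.1 hi).2
  have h1 := Nat.le_of_dvd (Int.natAbs_pos.2 hn) hd
  have h2 : Q ^ (I.filter fun i => (q i : ℤ) ∣ n).card ≤
      ∏ i ∈ I.filter fun i => (q i : ℤ) ∣ n, q i :=
    pow_card_le_prod _ _ _ fun i hi => hQ i (mem_filter.1 hi).1
  have h3 : Q ^ (D + 1) ≤ Q ^ (I.filter fun i => (q i : ℤ) ∣ n).card :=
    Nat.pow_le_pow_right hQ0 (by omega)
  omega

theorem sub_lt_of_div_eq {σ a b : ℕ} (hσ : 0 < σ) (h : a / σ = b / σ) :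
    a < b + σ := by
  have h1 := Nat.div_add_mod a σ
  have h2 := Nat.div_add_mod b σ
  have h3 := Nat.mod_lt a hσ
  rw [h] at h1
  omega

/-- Two integers of one residue class share a cell at few indices. -/
theorem few_shared (I : Finset ℕ) (q : ℕ → ℕ) (Q X D σ : ℕ) (hQ : ∀ i ∈ I, Q ≤ q i)
    (hc : ∀ i ∈ I, ∀ i' ∈ I, i ≠ i' → (q i).Coprime (q i')) (hσ : 0 < σ)
    (hX : X + σ < Q ^ (D + 1)) (m m' : ℕ) (hm : m ≤ X) (hm' : m' ≤ X) (hne : m ≠ m')
    (hmod : m % σ = m' % σ) (e e' : ℕ → ℕ) (P : Finset ℕ)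
    (hP : ∀ i ∈ P, i ∈ I ∧ (q i : ℤ) ∣ (m : ℤ) - (e i : ℕ) ∧ (q i : ℤ) ∣ (m' : ℤ) - (e' i : ℕ) ∧
      e i / σ = e' i / σ) : P.card ≤ 2 * σ * D := by
  have hsub : P ⊆ (Ioo (-(σ : ℤ)) σ).biUnion
      fun d => I.filter fun i => (q i : ℤ) ∣ (m : ℤ) - m' - d := by
    intro i hi
    obtain ⟨h1, h2, h3, h4⟩ := hP i hi
    have h5 := sub_lt_of_div_eq hσ h4
    have h6 := sub_lt_of_div_eq hσ h4.symm
    refine mem_biUnion.2 ⟨(e i : ℤ) - e' i, mem_Ioo.2 ⟨by omega, by omega⟩,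
      mem_filter.2 ⟨h1, ?_⟩⟩
    have : (m : ℤ) - m' - ((e i : ℤ) - e' i) = ((m : ℤ) - (e i : ℕ)) - ((m' : ℤ) - (e' i : ℕ)) := by
      ring
    rw [this]
    exact dvd_sub h2 h3
  have hdv : (σ : ℤ) ∣ (m' : ℤ) - m := (Nat.modEq_iff_dvd.1 hmod)
  have hab : (σ : ℤ) ≤ |(m' : ℤ) - m| :=
    Int.le_of_dvd (abs_pos.2 (by omega)) ((dvd_abs _ _).2 hdv)
  have hb : ∀ d ∈ Ioo (-(σ : ℤ)) σ,
      (I.filter fun i => (q i : ℤ) ∣ (m : ℤ) - m' - d).card ≤ D := by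
    intro d hd
    obtain ⟨h1, h2⟩ := mem_Ioo.1 hd
    refine few_dvd I q Q D hQ hc _ ?_ ?_
    · rcases le_abs.1 hab with h | h <;> omega
    · omega
  have h1 := (card_le_card hsub).trans (card_biUnion_le_card_mul _ _ D hb)
  have h2 : (Ioo (-(σ : ℤ)) σ).card ≤ 2 * σ := by
    rw [Int.card_Ioo]
    omega
  exact h1.trans (Nat.mul_le_mul_right D h2)

theorem final (r n N V A B : ℕ) (hN : 0 < N) (hn : 2 * n = 4 ^ r) (h1 : n * N ^ r ≤ 2 ^ r * A)
    (h2 : A ≤ N ^ r * V + B) (h3 : 8 ^ r * B ≤ n * n * N ^ r) : 2 ^ r ≤ 4 * V := by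
  have e8 : (8 : ℕ) ^ r = 4 ^ r * 2 ^ r := mul_pow 4 2 r
  have e4 : (4 : ℕ) ^ r = 2 ^ r * 2 ^ r := mul_pow 2 2 r
  have hNr : 0 < N ^ r := pow_pos hN r
  have h4 : 2 * n * n * N ^ r ≤ (8 ^ r * V + n * n) * N ^ r := by
    calc 2 * n * n * N ^ r = 4 ^ r * (n * N ^ r) := by rw [← hn]; ring
      _ ≤ 4 ^ r * (2 ^ r * A) := Nat.mul_le_mul_left _ h1
      _ = 8 ^ r * A := by rw [e8]; ring
      _ ≤ 8 ^ r * (N ^ r * V + B) := Nat.mul_le_mul_left _ h2
      _ = 8 ^ r * V * N ^ r + 8 ^ r * B := by ring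
      _ ≤ 8 ^ r * V * N ^ r + n * n * N ^ r := Nat.add_le_add_left h3 _
      _ = (8 ^ r * V + n * n) * N ^ r := by ring
  have h5 := Nat.le_of_mul_le_mul_right h4 hNr
  have h6 : n * n ≤ 8 ^ r * V := by
    have : 2 * n * n = n * n + n * n := by ring
    omega
  have h7 : 8 ^ r * 2 ^ r ≤ 8 ^ r * (4 * V) := by
    calc 8 ^ r * 2 ^ r = 4 ^ r * 4 ^ r := by rw [e8, mul_assoc, ← e4]
      _ = 4 * (n * n) := by rw [← hn]; ring
      _ ≤ 4 * (8 ^ r * V) := Nat.mul_le_mul_left _ h6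
      _ = 8 ^ r * (4 * V) := by ring
  exact Nat.le_of_mul_le_mul_left h7 (pow_pos (by norm_num) r)

end BAux

open BAux in
theorem pB (hVC : StVC) : StB := by
  intro I q Q s X D σ j t J r M hI hQ hc hσ hX hD hj ht hs hr hM
  by_contra hcon
  have hlt : (range σ).card * 4 ^ r < M.card := by
    rw [card_range]
    omega
  obtain ⟨c, -, hcc⟩ := exists_lt_card_fiber_of_mul_lt_card_of_maps_to
    (f := fun m => m % σ) (fun m _ => mem_range.2 (Nat.mod_lt m hσ)) hlt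
  obtain ⟨r', rfl⟩ : ∃ r', r = r' + 1 := by
    refine Nat.exists_eq_succ_of_ne_zero ?_
    rintro rfl
    simp at hr
  have hle : 2 * 4 ^ r' ≤ (M.filter fun m => m % σ = c).card := by
    rw [pow_succ] at hcc
    omega
  obtain ⟨M', hM's, hM'c⟩ := exists_subset_card_eq hle
  have hn : 2 * M'.card = 4 ^ (r' + 1) := by
    rw [hM'c, pow_succ]
    ring
  generalize r' + 1 = r at hr hn
  have hex : ∀ m i : ℕ, ∃ e : ℕ, (∃ e ∈ range s, (q i : ℤ) ∣ (m : ℤ) - (e : ℕ)) →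
      e < s ∧ (q i : ℤ) ∣ (m : ℤ) - (e : ℕ) := by
    intro m i
    by_cases h : ∃ e ∈ range s, (q i : ℤ) ∣ (m : ℤ) - (e : ℕ)
    · obtain ⟨e, he, hd⟩ := h
      exact ⟨e, fun _ => ⟨mem_range.1 he, hd⟩⟩
    · exact ⟨0, fun h' => absurd h' h⟩
  choose e he using hex
  obtain ⟨G, hG⟩ : ∃ G : ℕ → Finset ℕ, ∀ m, G m =
      I.filter fun i => ∃ e ∈ range s, (q i : ℤ) ∣ (m : ℤ) - (e : ℕ) := ⟨_, fun _ => rfl⟩
  have hGI : ∀ m, G m ⊆ I := fun m => by rw [hG]; exact filter_subset _ _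
  have hGe : ∀ m, ∀ i ∈ G m, e m i < s ∧ (q i : ℤ) ∣ (m : ℤ) - (e m i : ℕ) := fun m i hi => by
    rw [hG] at hi
    exact he m i (mem_filter.1 hi).2
  have hMX : ∀ m ∈ M', m ≤ X := fun m hm => (hM m (mem_filter.1 (hM's hm)).1).1
  have hMG : ∀ m ∈ M', I.card ≤ 2 * (G m).card := fun m hm => by
    rw [hG]
    exact (hM m (mem_filter.1 (hM's hm)).1).2
  obtain ⟨P, hP⟩ : ∃ P : ℕ × ℕ → Finset ℕ, ∀ p, P p =
      (G p.1).filter fun i => i ∈ G p.2 ∧ e p.1 i / σ = e p.2 i / σ := ⟨_, fun _ => rfl⟩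
  have hPI : ∀ p, P p ⊆ I := fun p => by
    rw [hP]
    exact (filter_subset _ _).trans (hGI _)
  have hPc : ∀ p ∈ M'.offDiag, 8 * (P p).card ≤ I.card := by
    intro p hp
    obtain ⟨h1, h2, h3⟩ := mem_offDiag.1 hp
    have := few_shared I q Q X D σ hQ hc hσ hX p.1 p.2 (hMX _ h1) (hMX _ h2) h3
      ((mem_filter.1 (hM's h1)).2.trans (mem_filter.1 (hM's h2)).2.symm) (e p.1) (e p.2) (P p)
      (fun i hi => by
        have hi' := hi
        rw [hP] at hi'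
        obtain ⟨a, b, c⟩ := mem_filter.1 hi'
        exact ⟨hPI p hi, (hGe _ i a).2, (hGe _ i b).2, c⟩)
    calc 8 * (P p).card ≤ 8 * (2 * σ * D) := Nat.mul_le_mul_left _ this
      _ = 16 * σ * D := by ring
      _ ≤ I.card := hD
  have hpt : ∀ ρ ∈ Fintype.piFinset (fun _ : Fin r => I),
      (M'.filter fun m => ∀ l, ρ l ∈ G m).card ≤
        (r * J + 1) ^ j + (M'.offDiag.filter fun p => ∀ l, ρ l ∈ P p).card := by
    intro ρ hρ
    have h1 := card_le_image_add (M'.filter fun m => ∀ l, ρ l ∈ G m)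
      (fun m => fun l => e m (ρ l) / σ)
    have h2 := hVC r J j t s σ X Q (M'.filter fun m => ∀ l, ρ l ∈ G m) (fun l => q (ρ l))
      (fun m l => e m (ρ l))
      (fun m hm => ⟨hMX m (mem_filter.1 hm).1, fun l => hGe m _ ((mem_filter.1 hm).2 l)⟩)
      (fun l => hQ _ (Fintype.mem_piFinset.1 hρ l)) hσ hj ht hs
    refine h1.trans (Nat.add_le_add h2 (card_le_card ?_))
    intro p hp
    obtain ⟨h3, h4⟩ := mem_filter.1 hp
    obtain ⟨h5, h6, h7⟩ := mem_offDiag.1 h3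
    refine mem_filter.2 ⟨mem_offDiag.2 ⟨(mem_filter.1 h5).1, (mem_filter.1 h6).1, h7⟩, fun l => ?_⟩
    rw [hP]
    exact mem_filter.2 ⟨(mem_filter.1 h5).2 l, (mem_filter.1 h6).2 l, congrFun h4 l⟩
  have hsum := sum_le_sum hpt
  rw [sum_add_distrib, sum_tuples r I M' G (fun m _ => hGI m),
    sum_tuples r I M'.offDiag P (fun p _ => hPI p), sum_const, Fintype.card_piFinset, prod_const,
    card_univ, Fintype.card_fin, smul_eq_mul] at hsum
  have h1 : M'.card * I.card ^ r ≤ 2 ^ r * ∑ m ∈ M', (G m).card ^ r := by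
    rw [mul_sum, ← smul_eq_mul]
    refine card_nsmul_le_sum _ _ _ fun m hm => ?_
    rw [← mul_pow]
    exact Nat.pow_le_pow_left (hMG m hm) r
  have h3 : 8 ^ r * ∑ p ∈ M'.offDiag, (P p).card ^ r ≤ M'.card * M'.card * I.card ^ r := by
    rw [mul_sum]
    refine (sum_le_card_nsmul _ _ (I.card ^ r) fun p hp => ?_).trans ?_
    · rw [← mul_pow]
      exact Nat.pow_le_pow_left (hPc p hp) r
    · rw [smul_eq_mul, offDiag_card]
      exact Nat.mul_le_mul_right _ (Nat.sub_le _ _)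
  have := final r M'.card I.card ((r * J + 1) ^ j) _ _ (card_pos.2 hI) hn h1 hsum h3
  omega

end Pool.Agent.P.MP_baf437_nt.SP
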