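import Pool.Agent.P.MP_baf437_nt.SP.Defs

/-! Comparison of a smoothed trilinear sum at two scales through its Fourier representation. -/

open Finset MeasureTheory

namespace Pool.Agent.P.MP_baf437_nt.SP

open Pool.Agent.P.MP_a14ce1_nt.Ch (ex nit cw rs)

namespace FAux

open Pool.Agent.P.MP_a14ce1_nt.Ch

theorem cw_one_div (T t : ℝ) : cw 1 (t / T) = cw T t := by simp [cw]

theorem cw_mono {T S t : ℝ} (hT : 0 < T) (h : T ≤ S) : cw T t ≤ cw S t := by
  unfold cw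
  have hS : 0 < S := hT.trans_le h
  apply one_div_le_one_div_of_le (by positivity)
  have : (t / S) ^ 2 ≤ (t / T) ^ 2 := by
    rw [div_pow, div_pow]
    exact div_le_div_of_nonneg_left (sq_nonneg t) (by positivity) (by gcongr)
  linarith

theorem half_le_cw {T t : ℝ} (hT : 0 < T) (h : |t| ≤ T) : 1 / 2 ≤ cw T t := by
  unfold cw
  apply one_div_le_one_div_of_le (by positivity)
  have : (t / T) ^ 2 ≤ 1 := by
    rw [div_pow, div_le_one (by positivity), ← sq_abs t]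
    gcongr
  linarith

theorem cw_far {S T t : ℝ} (hS : 0 < S) (hT : 0 < T) (h : T ≤ |t|) :
    cw S t ≤ 2 * (S / T) ^ 2 * cw T t := by
  unfold cw
  have ht : T ^ 2 ≤ t ^ 2 := by rw [← sq_abs t]; gcongr
  have hS2 : 0 < S ^ 2 := by positivity
  have hT2 : 0 < T ^ 2 := by positivity
  have e1 : 1 / (1 + (t / S) ^ 2) = S ^ 2 / (S ^ 2 + t ^ 2) := by field_simp
  have e2 : 2 * (S / T) ^ 2 * (1 / (1 + (t / T) ^ 2)) = 2 * S ^ 2 / (T ^ 2 + t ^ 2) := by
    field_simp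
  rw [e1, e2, div_le_div_iff₀ (by positivity) (by positivity)]
  nlinarith [mul_nonneg hS2.le hS2.le, mul_le_mul_of_nonneg_left ht hS2.le]

theorem single {g : ℝ → ℝ} {Θ : ℝ → ℂ} (hg : ∀ v, (g v : ℂ) = ∫ u : ℝ, Θ u * ex (-(u * v)))
    {T : ℝ} (hT : 0 < T) (l y : ℝ) :
    ((T * g (T * (Real.log y - l)) : ℝ) : ℂ) = ∫ t : ℝ, Θ (t / T) * ex (t * l) * nit t y := by
  have h := Measure.integral_comp_div
    (fun u : ℝ => Θ u * ex (-(u * (T * (Real.log y - l))))) T
  rw [abs_of_pos hT, ← hg, Complex.real_smul] at h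
  push_cast
  rw [← h]
  refine integral_congr_ae (Filter.Eventually.of_forall fun t => ?_)
  simp only [nit]
  rw [mul_assoc, ← ex_add]
  congr 2
  field_simp
  ring

theorem integrable_ker {Θ : ℝ → ℂ} {C : ℝ} (hc : Continuous Θ) (hb : ∀ u, ‖Θ u‖ ≤ C * cw 1 u)
    {T : ℝ} (hT : 0 < T) (l : ℝ) : Integrable fun t : ℝ => Θ (t / T) * ex (t * l) := by
  refine ((integrable_cw hT).const_mul C).mono' ?_ (Filter.Eventually.of_forall fun t => ?_)
  · exact ((hc.comp (continuous_id.div_const T)).mul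
      (continuous_ex.comp (continuous_id.mul continuous_const))).aestronglyMeasurable
  · rw [norm_mul, norm_ex, mul_one, ← cw_one_div]
    exact hb _

theorem prod_dp {Q P R : Finset ℕ} (hQ : 0 ∉ Q) (hP : 0 ∉ P) (hR : 0 ∉ R) (a b c : ℕ → ℝ)
    (t : ℝ) : dp Q a t * dp P b t * dp R c t =
      ∑ q ∈ Q, ∑ p ∈ P, ∑ r ∈ R, ((a q * b p * c r : ℝ) : ℂ) * nit t ((q * p * r : ℕ) : ℝ) := by
  unfold dp
  rw [sum_mul_sum, sum_mul]
  refine sum_congr rfl fun q hq => ?_
  rw [sum_mul_sum]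
  refine sum_congr rfl fun p hp => sum_congr rfl fun r hr => ?_
  have q0 : (q : ℝ) ≠ 0 := by exact_mod_cast fun h : q = 0 => hQ (h ▸ hq)
  have p0 : (p : ℝ) ≠ 0 := by exact_mod_cast fun h : p = 0 => hP (h ▸ hp)
  have r0 : (r : ℝ) ≠ 0 := by exact_mod_cast fun h : r = 0 => hR (h ▸ hr)
  rw [Nat.cast_mul, Nat.cast_mul, nit_mul t (mul_ne_zero q0 p0) r0, nit_mul t q0 p0]
  push_cast
  ring

theorem tri_eq {g : ℝ → ℝ} {Θ : ℝ → ℂ} {C : ℝ} (hc : Continuous Θ)
    (hb : ∀ u, ‖Θ u‖ ≤ C * cw 1 u) (hg : ∀ v, (g v : ℂ) = ∫ u : ℝ, Θ u * ex (-(u * v)))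
    {T : ℝ} (hT : 0 < T) (l : ℝ) {Q P R : Finset ℕ} (hQ : 0 ∉ Q) (hP : 0 ∉ P) (hR : 0 ∉ R)
    (a b c : ℕ → ℝ) :
    ((T * tri Q P R a b c g T l : ℝ) : ℂ) =
      ∫ t : ℝ, Θ (t / T) * ex (t * l) * (dp Q a t * dp P b t * dp R c t) := by
  have hI : ∀ (z : ℂ) (y : ℝ), Integrable fun t : ℝ => z * (Θ (t / T) * ex (t * l) * nit t y) :=
    fun z y => ((integrable_ker hc hb hT l).mul_bdd (c := 1)
      (continuous_nit y).aestronglyMeasurable
      (Filter.Eventually.of_forall fun t => (norm_nit t y).le)).const_mul z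
  have e : ∀ t : ℝ, Θ (t / T) * ex (t * l) * (dp Q a t * dp P b t * dp R c t) =
      ∑ q ∈ Q, ∑ p ∈ P, ∑ r ∈ R, ((a q * b p * c r : ℝ) : ℂ) *
        (Θ (t / T) * ex (t * l) * nit t ((q * p * r : ℕ) : ℝ)) := fun t => by
    rw [prod_dp hQ hP hR]
    simp only [mul_sum]
    refine sum_congr rfl fun q _ => sum_congr rfl fun p _ => sum_congr rfl fun r _ => ?_
    ring
  simp only [e]
  rw [integral_finsetSum _ fun q _ => integrable_finsetSum _ fun p _ =>
    integrable_finsetSum _ fun r _ => hI _ _]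
  unfold tri
  rw [mul_sum, Complex.ofReal_sum]
  refine sum_congr rfl fun q _ => ?_
  rw [integral_finsetSum _ fun p _ => integrable_finsetSum _ fun r _ => hI _ _, mul_sum,
    Complex.ofReal_sum]
  refine sum_congr rfl fun p _ => ?_
  rw [integral_finsetSum _ fun r _ => hI _ _, mul_sum, Complex.ofReal_sum]
  refine sum_congr rfl fun r _ => ?_
  rw [integral_const_mul, ← single hg hT]
  push_cast
  ring

theorem integrable_sq {T : ℝ} (hT : 0 < T) (F : Finset ℕ) (b : ℕ → ℝ) :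
    Integrable fun t => cw T t * ‖dp F b t‖ ^ 2 := by
  refine integrable_cw_mul hT ((continuous_dp F b).norm.pow 2) (B := (∑ n ∈ F, |b n|) ^ 2)
    fun t => ?_
  rw [abs_of_nonneg (by positivity)]
  gcongr
  exact norm_dp_le F b t

theorem integrable_full {Θ : ℝ → ℂ} {C : ℝ} (hc : Continuous Θ) (hb : ∀ u, ‖Θ u‖ ≤ C * cw 1 u)
    {T : ℝ} (hT : 0 < T) (l : ℝ) (Q P R : Finset ℕ) (a b c : ℕ → ℝ) :
    Integrable fun t : ℝ => Θ (t / T) * ex (t * l) * (dp Q a t * dp P b t * dp R c t) := by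
  refine (integrable_ker hc hb hT l).mul_bdd
    (c := (∑ n ∈ Q, |a n|) * (∑ n ∈ P, |b n|) * ∑ n ∈ R, |c n|)
    (((continuous_dp Q a).mul (continuous_dp P b)).mul (continuous_dp R c)).aestronglyMeasurable
    (Filter.Eventually.of_forall fun t => ?_)
  rw [norm_mul, norm_mul]
  have h1 := norm_dp_le Q a t
  have h2 := norm_dp_le P b t
  have h3 := norm_dp_le R c t
  gcongr

end FAux

open FAux Pool.Agent.P.MP_a14ce1_nt.Ch in
theorem pF (hF : Pool.Agent.P.MP_a14ce1_nt.Ch.S_Fourier) : StF := by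
  intro g hg hs
  obtain ⟨Θ, C, hC, hc, hb, hrep, -⟩ := hF g hg hs
  refine ⟨4 * C, by positivity, fun ε hε => ?_⟩
  obtain ⟨δ, hδ, hδ'⟩ := Metric.continuousAt_iff.1 (hc.continuousAt (x := 0)) (ε / 4)
    (by positivity)
  refine ⟨4 / δ, by positivity, ?_⟩
  intro T0 T S T' l L κ M Q P R a b c h0 h1 h0S h1S hST hT' hQ hP hR hκ hL hK hMP hMR
  have h4 : 0 < 4 / δ := by positivity
  have hT0 : 0 < T0 := h4.trans_le h0
  have hT : 0 < T := h4.trans_le h1
  have hS : 0 < S := hT.trans_le h1S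
  have hTT : 0 < T' := by linarith
  have hL0 : 0 ≤ L := (norm_nonneg _).trans (hL 0)
  set A : ℝ := ε * L + 4 * C * κ + 4 * C * (S / T') ^ 2 * L with hA
  have a1 : 0 ≤ ε * L := by positivity
  have a2 : 0 ≤ 4 * C * κ := by positivity
  have a3 : 0 ≤ 4 * C * (S / T') ^ 2 * L := by positivity
  have hA0 : 0 ≤ A := by positivity
  have near : ∀ U t : ℝ, 4 / δ ≤ U → |t| ≤ 2 → ‖Θ (t / U) - Θ 0‖ ≤ ε / 4 := by
    intro U t hU ht
    have hU0 : 0 < U := h4.trans_le hU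
    rw [← dist_eq_norm]
    refine (hδ' ?_).le
    rw [Real.dist_eq, sub_zero, abs_div, abs_of_pos hU0, div_lt_iff₀ hU0]
    rw [div_le_iff₀ hδ] at hU
    nlinarith
  have far : ∀ t : ℝ, ‖Θ (t / T) - Θ (t / T0)‖ ≤ 2 * C * cw S t := by
    intro t
    have e1 := hb (t / T)
    have e2 := hb (t / T0)
    rw [cw_one_div] at e1 e2
    have e3 := mul_le_mul_of_nonneg_left (cw_mono (t := t) hT h1S) hC.le
    have e4 := mul_le_mul_of_nonneg_left (cw_mono (t := t) hT0 h0S) hC.le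
    have := norm_sub_le (Θ (t / T)) (Θ (t / T0))
    linarith
  have key : ∀ t : ℝ, ‖Θ (t / T) - Θ (t / T0)‖ * ‖dp Q a t‖ ≤ A * cw T' t := by
    intro t
    have hw := cw_pos T' t
    by_cases ht : |t| ≤ 2
    · have e1 := near T t h1 ht
      have e2 := near T0 t h0 ht
      have e3 : ‖Θ (t / T) - Θ (t / T0)‖ ≤ ε / 2 := by
        have := norm_sub_le (Θ (t / T) - Θ 0) (Θ (t / T0) - Θ 0)
        rw [sub_sub_sub_cancel_right] at this
        linarith
      have e4 := half_le_cw hTT (ht.trans hT')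
      calc ‖Θ (t / T) - Θ (t / T0)‖ * ‖dp Q a t‖ ≤ ε / 2 * L := by gcongr; exact hL t
        _ = ε * L * (1 / 2) := by ring
        _ ≤ A * cw T' t := by gcongr; linarith
    · by_cases ht' : |t| ≤ T'
      · have e1 := hK t (not_le.1 ht).le ht'
        have e2 : ‖Θ (t / T) - Θ (t / T0)‖ ≤ 2 * C * cw T' t :=
          (far t).trans (by gcongr; exact cw_mono hS hST)
        calc ‖Θ (t / T) - Θ (t / T0)‖ * ‖dp Q a t‖ ≤ 2 * C * cw T' t * κ := by gcongr
          _ = 2 * C * κ * cw T' t := by ring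
          _ ≤ A * cw T' t := by
            gcongr
            have : 0 ≤ C * κ := by positivity
            linarith
      · have e2 : ‖Θ (t / T) - Θ (t / T0)‖ ≤ 2 * C * (2 * (S / T') ^ 2 * cw T' t) :=
          (far t).trans (by gcongr; exact cw_far hS hTT (not_le.1 ht').le)
        calc ‖Θ (t / T) - Θ (t / T0)‖ * ‖dp Q a t‖
            ≤ 2 * C * (2 * (S / T') ^ 2 * cw T' t) * L := by gcongr; exact hL t
          _ = 4 * C * (S / T') ^ 2 * L * cw T' t := by ring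
          _ ≤ A * cw T' t := by gcongr; linarith
  have iP := integrable_sq hTT P b
  have iR := integrable_sq hTT R c
  rw [← Real.norm_eq_abs, ← Complex.norm_real, Complex.ofReal_sub,
    tri_eq hc hb hrep hT l hQ hP hR, tri_eq hc hb hrep hT0 l hQ hP hR,
    ← integral_sub (integrable_full hc hb hT l Q P R a b c)
      (integrable_full hc hb hT0 l Q P R a b c)]
  refine (norm_integral_le_of_norm_le
    (g := fun t => A / 2 * (cw T' t * ‖dp P b t‖ ^ 2 + cw T' t * ‖dp R c t‖ ^ 2))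
    ((iP.add iR).const_mul _) (Filter.Eventually.of_forall fun t => ?_)).trans ?_
  · have e : Θ (t / T) * ex (t * l) * (dp Q a t * dp P b t * dp R c t) -
        Θ (t / T0) * ex (t * l) * (dp Q a t * dp P b t * dp R c t) =
        ex (t * l) * ((Θ (t / T) - Θ (t / T0)) * dp Q a t * (dp P b t * dp R c t)) := by ring
    rw [e, norm_mul, norm_ex, one_mul, norm_mul, norm_mul, norm_mul]
    have hw := cw_pos T' t
    have e2 : ‖dp P b t‖ * ‖dp R c t‖ ≤ (‖dp P b t‖ ^ 2 + ‖dp R c t‖ ^ 2) / 2 := by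
      nlinarith [sq_nonneg (‖dp P b t‖ - ‖dp R c t‖)]
    calc ‖Θ (t / T) - Θ (t / T0)‖ * ‖dp Q a t‖ * (‖dp P b t‖ * ‖dp R c t‖)
        ≤ A * cw T' t * ((‖dp P b t‖ ^ 2 + ‖dp R c t‖ ^ 2) / 2) :=
          mul_le_mul (key t) e2 (by positivity) (by positivity)
      _ = _ := by ring
  · rw [integral_const_mul, integral_add iP iR]
    calc A / 2 * ((∫ t, cw T' t * ‖dp P b t‖ ^ 2) + ∫ t, cw T' t * ‖dp R c t‖ ^ 2)
        ≤ A / 2 * (M + M) := by gcongr
      _ = A * M := by ring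

end Pool.Agent.P.MP_baf437_nt.SP
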