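import Pool.Agent.P.MP_baf437_nt.SP.Defs

/-! A divided difference of order `n` at `n + 1` points of one class forces a gap. -/

open Finset

namespace Pool.Agent.P.MP_baf437_nt.SP

namespace GapAux

/-- A nonzero combination of integers with integer denominators is not too small. -/
theorem core (s : Finset ℕ) (n R : ℕ) (δ ψ : ℝ) (hs : s.card = n + 1) (D q : ℕ → ℤ)
    (f : ℕ → ℝ) (hD0 : ∀ x ∈ s, D x ≠ 0) (hDR : ∀ x ∈ s, |(D x : ℝ)| ≤ (R : ℝ) ^ n)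
    (hq : ∀ x ∈ s, |f x - q x| ≤ δ)
    (hlo : ((n : ℝ) + 1) * δ < |∑ x ∈ s, (D x : ℝ)⁻¹ * f x|)
    (hup : |∑ x ∈ s, (D x : ℝ)⁻¹ * f x| ≤ ((n : ℝ) + 1) * ψ) :
    1 ≤ ((n : ℝ) + 1) * (ψ + δ) * (R : ℝ) ^ (n * (n + 1)) := by
  have hD1 : ∀ x ∈ s, (1 : ℝ) ≤ |(D x : ℝ)| := fun x hx => by
    have := Int.one_le_abs (hD0 x hx)
    exact_mod_cast this
  have hDr : ∀ x ∈ s, (D x : ℝ) ≠ 0 := fun x hx => by exact_mod_cast hD0 x hx
  have hdiff : |∑ x ∈ s, (D x : ℝ)⁻¹ * f x - ∑ x ∈ s, (D x : ℝ)⁻¹ * q x| ≤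
      ((n : ℝ) + 1) * δ := by
    rw [← sum_sub_distrib]
    refine (abs_sum_le_sum_abs _ _).trans ?_
    have : ∑ x ∈ s, |(D x : ℝ)⁻¹ * f x - (D x : ℝ)⁻¹ * q x| ≤ ∑ _x ∈ s, δ := by
      refine sum_le_sum fun x hx => ?_
      rw [← mul_sub, abs_mul, abs_inv]
      have h1 : |(D x : ℝ)|⁻¹ ≤ 1 := inv_le_one_of_one_le₀ (hD1 x hx)
      have h2 := hq x hx
      have h3 : 0 ≤ |f x - q x| := abs_nonneg _
      calc |(D x : ℝ)|⁻¹ * |f x - q x| ≤ 1 * |f x - q x| := by gcongr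
        _ ≤ δ := by linarith
    rw [sum_const, hs, nsmul_eq_mul] at this
    push_cast at this
    exact this
  set Φ := ∑ x ∈ s, (D x : ℝ)⁻¹ * f x
  set Z := ∑ x ∈ s, (D x : ℝ)⁻¹ * q x with hZ
  have hZ0 : Z ≠ 0 := by
    intro h
    rw [h, sub_zero] at hdiff
    linarith
  have hZup : |Z| ≤ ((n : ℝ) + 1) * (ψ + δ) := by
    have : |Z| ≤ |Φ| + |Φ - Z| := by
      have h := abs_sub (Φ) (Φ - Z)
      simpa using h
    linarith
  have hV0 : (∏ x ∈ s, (D x : ℝ)) ≠ 0 := prod_ne_zero_iff.2 hDr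
  have hint : (∏ x ∈ s, (D x : ℝ)) * Z =
      ((∑ x ∈ s, (∏ y ∈ s.erase x, D y) * q x : ℤ) : ℝ) := by
    rw [hZ, mul_sum]
    push_cast
    refine sum_congr rfl fun x hx => ?_
    rw [← mul_prod_erase s _ hx]
    have := hDr x hx
    field_simp
  have hone : (1 : ℝ) ≤ |(∏ x ∈ s, (D x : ℝ)) * Z| := by
    have hne : (∑ x ∈ s, (∏ y ∈ s.erase x, D y) * q x : ℤ) ≠ 0 := by
      intro h
      rw [h] at hint
      exact mul_ne_zero hV0 hZ0 (by simpa using hint)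
    rw [hint]
    have := Int.one_le_abs hne
    exact_mod_cast this
  have hV : |∏ x ∈ s, (D x : ℝ)| ≤ (R : ℝ) ^ (n * (n + 1)) := by
    rw [abs_prod, pow_mul, ← hs, ← prod_const]
    exact prod_le_prod (fun x _ => abs_nonneg _) hDR
  rw [abs_mul] at hone
  have h0 : 0 ≤ |Z| := abs_nonneg _
  calc (1 : ℝ) ≤ |∏ x ∈ s, (D x : ℝ)| * |Z| := hone
    _ ≤ (R : ℝ) ^ (n * (n + 1)) * (((n : ℝ) + 1) * (ψ + δ)) := by gcongr
    _ = _ := by ring

/-- Two points of one class differ by a small multiple of `a`. -/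
theorem cls (k a R x y : ℕ) (ha : 0 < a) (hR : 0 < R) (hx : k < x) (hy : k < y)
    (h1 : (x - k - 1) % a = (y - k - 1) % a)
    (h2 : (x - k - 1) / (a * R) = (y - k - 1) / (a * R)) :
    ∃ d : ℤ, (x : ℤ) - y = a * d ∧ |d| ≤ R := by
  obtain ⟨u, rfl⟩ : ∃ u, x = k + 1 + u := ⟨x - k - 1, by omega⟩
  obtain ⟨v, rfl⟩ : ∃ v, y = k + 1 + v := ⟨y - k - 1, by omega⟩
  have e1 : k + 1 + u - k - 1 = u := by omega
  have e2 : k + 1 + v - k - 1 = v := by omega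
  rw [e1, e2] at h1 h2
  have hd : (a : ℤ) ∣ (u : ℤ) - v := (Nat.modEq_iff_dvd.1 h1.symm)
  obtain ⟨d, hd⟩ := hd
  refine ⟨d, by push_cast; linarith, ?_⟩
  have haR : 0 < a * R := Nat.mul_pos ha hR
  have hu := Nat.div_add_mod u (a * R)
  have hv := Nat.div_add_mod v (a * R)
  have hu' := Nat.mod_lt u haR
  have hv' := Nat.mod_lt v haR
  rw [h2] at hu
  have hlt : |(u : ℤ) - v| ≤ ((a * R : ℕ) : ℤ) := by
    rw [abs_le]
    constructor <;> omega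
  rw [hd, abs_mul, Nat.abs_cast] at hlt
  push_cast at hlt
  have ha' : (0 : ℤ) < a := by exact_mod_cast ha
  exact le_of_mul_le_mul_left hlt ha'

/-- Size of the divided difference of `1 / x ^ τ`. -/
theorem size (hDD : StDD) (s : Finset ℕ) (n k τ : ℕ) (hτ : τ = 1 ∨ τ = 2) (hk : 0 < k)
    (hs : s.card = n + 1) (hsk : ∀ x ∈ s, k < x ∧ x ≤ 2 * k) :
    ((2 * k : ℝ) ^ (n + τ))⁻¹ ≤
        |∑ x ∈ s, (∏ y ∈ s.erase x, ((x : ℝ) - y))⁻¹ * (1 / (x : ℝ) ^ τ)| ∧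
      |∑ x ∈ s, (∏ y ∈ s.erase x, ((x : ℝ) - y))⁻¹ * (1 / (x : ℝ) ^ τ)| ≤
        ((n : ℝ) + 1) * ((k : ℝ) ^ (n + τ))⁻¹ := by
  have hne : s.Nonempty := card_pos.1 (by omega)
  have h0 : 0 ∉ s := fun h => by have := (hsk 0 h).1; omega
  have hk' : (0 : ℝ) < k := by exact_mod_cast hk
  have hlo : ∀ x ∈ s, (k : ℝ) ≤ x := fun x hx => by exact_mod_cast (hsk x hx).1.le
  have hhi : ∀ x ∈ s, (x : ℝ) ≤ 2 * k := fun x hx => by exact_mod_cast (hsk x hx).2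
  have hP1 : (k : ℝ) ^ (n + 1) ≤ ∏ x ∈ s, (x : ℝ) := by
    rw [← hs, ← prod_const]
    exact prod_le_prod (fun _ _ => hk'.le) hlo
  have hP2 : ∏ x ∈ s, (x : ℝ) ≤ (2 * k : ℝ) ^ (n + 1) := by
    rw [← hs, ← prod_const]
    exact prod_le_prod (fun x _ => Nat.cast_nonneg x) hhi
  have hPpos : 0 < ∏ x ∈ s, (x : ℝ) := lt_of_lt_of_le (by positivity) hP1
  have hI1 : (∏ x ∈ s, (x : ℝ))⁻¹ ≤ ((k : ℝ) ^ (n + 1))⁻¹ :=
    inv_anti₀ (by positivity) hP1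
  have hI2 : ((2 * k : ℝ) ^ (n + 1))⁻¹ ≤ (∏ x ∈ s, (x : ℝ))⁻¹ := inv_anti₀ hPpos hP2
  have hn : (0 : ℝ) ≤ n := Nat.cast_nonneg n
  obtain ⟨h1, h2⟩ := hDD s hne h0
  rcases hτ with rfl | rfl
  · simp only [pow_one]
    rw [h1]
    refine ⟨hI2, hI1.trans ?_⟩
    have : 0 ≤ ((k : ℝ) ^ (n + 1))⁻¹ := by positivity
    nlinarith
  · rw [h2]
    have hS1 : ∑ x ∈ s, 1 / (x : ℝ) ≤ ((n : ℝ) + 1) * (k : ℝ)⁻¹ := by
      have : ∑ x ∈ s, 1 / (x : ℝ) ≤ ∑ _x ∈ s, (k : ℝ)⁻¹ :=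
        sum_le_sum fun x hx => by
          rw [one_div]
          exact inv_anti₀ hk' (hlo x hx)
      rw [sum_const, hs, nsmul_eq_mul] at this
      push_cast at this
      exact this
    have hS2 : (2 * k : ℝ)⁻¹ ≤ ∑ x ∈ s, 1 / (x : ℝ) := by
      obtain ⟨x, hx⟩ := hne
      have hx0 : (0 : ℝ) < x := hk'.trans_le (hlo x hx)
      calc (2 * k : ℝ)⁻¹ ≤ 1 / (x : ℝ) := by
            rw [one_div]
            exact inv_anti₀ hx0 (hhi x hx)
        _ ≤ _ := single_le_sum (f := fun x : ℕ => 1 / (x : ℝ)) (fun y _ => by positivity) hx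
    constructor
    · calc ((2 * k : ℝ) ^ (n + 2))⁻¹ = (2 * k : ℝ)⁻¹ * ((2 * k : ℝ) ^ (n + 1))⁻¹ := by
            rw [← mul_inv]
            ring
        _ ≤ _ := mul_le_mul hS2 hI2 (by positivity) ((by positivity : (0 : ℝ) ≤ _).trans hS2)
    · calc (∑ x ∈ s, 1 / (x : ℝ)) * (∏ x ∈ s, (x : ℝ))⁻¹
          ≤ (((n : ℝ) + 1) * (k : ℝ)⁻¹) * ((k : ℝ) ^ (n + 1))⁻¹ :=
            mul_le_mul hS1 hI1 (by positivity) (by positivity)
        _ = ((n : ℝ) + 1) * ((k : ℝ) ^ (n + 2))⁻¹ := by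
            rw [mul_assoc, ← mul_inv]
            ring

end GapAux

open GapAux in
theorem pGap (hDD : StDD) : StGap := by
  intro k m n a R τ W δ ψ G hτ hk hWk hG ha hR haR hq hψ1 hψ2 hδ hsm
  classical
  by_contra hcon
  rw [not_le] at hcon
  have haRpos : 0 < a * R := Nat.mul_pos ha hR
  set c : ℕ → ℕ × ℕ := fun x => ((x - k - 1) % a, (x - k - 1) / (a * R)) with hc
  have hmaps : ∀ x ∈ G, c x ∈ range a ×ˢ range (W / (a * R) + 1) := fun x hx => by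
    have hx' := mem_Ioc.1 (hG hx)
    rw [mem_product, mem_range, mem_range]
    refine ⟨Nat.mod_lt _ ha, Nat.lt_succ_of_le (Nat.div_le_div_right (by omega))⟩
  have hcard : (range a ×ˢ range (W / (a * R) + 1)).card * n < G.card := by
    rw [card_product, card_range, card_range]
    have h1 : a * (W / (a * R) + 1) * R ≤ 2 * W := by
      have h2 := Nat.mul_div_le W (a * R)
      calc a * (W / (a * R) + 1) * R = a * R * (W / (a * R)) + a * R := by ring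
        _ ≤ 2 * W := by omega
    refine lt_of_mul_lt_mul_right (a := R) ?_ (Nat.zero_le _)
    calc a * (W / (a * R) + 1) * n * R = (a * (W / (a * R) + 1) * R) * n := by ring
      _ ≤ 2 * W * n := Nat.mul_le_mul_right _ h1
      _ = 2 * n * W := by ring
      _ < _ := hcon
  obtain ⟨y0, -, hy0⟩ := exists_lt_card_fiber_of_mul_lt_card_of_maps_to hmaps hcard
  obtain ⟨s, hsub, hs⟩ := exists_subset_card_eq (Nat.succ_le_of_lt hy0)
  have hsG : ∀ x ∈ s, x ∈ G ∧ c x = y0 := fun x hx => mem_filter.1 (hsub hx)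
  have hsk : ∀ x ∈ s, k < x ∧ x ≤ 2 * k := fun x hx => by
    have := mem_Ioc.1 (hG (hsG x hx).1)
    omega
  have hd : ∀ x y : ℕ, ∃ d : ℤ, x ∈ s → y ∈ s → (x : ℤ) - y = a * d ∧ |d| ≤ R := fun x y => by
    by_cases hx : x ∈ s
    · by_cases hy : y ∈ s
      · have he : c x = c y := (hsG x hx).2.trans (hsG y hy).2.symm
        obtain ⟨d, hd⟩ := cls k a R x y ha hR (hsk x hx).1 (hsk y hy).1
          (congrArg Prod.fst he) (congrArg Prod.snd he)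
        exact ⟨d, fun _ _ => hd⟩
      · exact ⟨0, fun _ h => absurd h hy⟩
    · exact ⟨0, fun h => absurd h hx⟩
  choose d hd using hd
  have hq' : ∀ x : ℕ, ∃ q : ℤ, x ∈ s → |(m : ℝ) / (x : ℝ) ^ τ - q| ≤ δ := fun x => by
    by_cases hx : x ∈ s
    · obtain ⟨q, h⟩ := hq x (hsG x hx).1
      exact ⟨q, fun _ => h⟩
    · exact ⟨0, fun h => absurd h hx⟩
  choose q hq' using hq'
  have ha' : (0 : ℝ) < a := by exact_mod_cast ha
  have hk' : (0 : ℝ) < k := by exact_mod_cast hk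
  have hm : (0 : ℝ) ≤ m := Nat.cast_nonneg m
  have hn : (0 : ℝ) ≤ n := Nat.cast_nonneg n
  have hcarde : ∀ x ∈ s, (s.erase x).card = n := fun x hx => by
    rw [card_erase_of_mem hx, hs]
    rfl
  have hprod : ∀ x ∈ s, ∏ y ∈ s.erase x, ((x : ℝ) - y) =
      (a : ℝ) ^ n * ((∏ y ∈ s.erase x, d x y : ℤ) : ℝ) := fun x hx => by
    push_cast
    rw [← hcarde x hx, ← prod_const, ← prod_mul_distrib]
    refine prod_congr rfl fun y hy => ?_
    have := (hd x y hx (mem_of_mem_erase hy)).1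
    exact_mod_cast this
  have hsum : ∑ x ∈ s, (((∏ y ∈ s.erase x, d x y : ℤ) : ℝ))⁻¹ * ((m : ℝ) / (x : ℝ) ^ τ) =
      (a : ℝ) ^ n * m *
        ∑ x ∈ s, (∏ y ∈ s.erase x, ((x : ℝ) - y))⁻¹ * (1 / (x : ℝ) ^ τ) := by
    rw [mul_sum]
    refine sum_congr rfl fun x hx => ?_
    rw [hprod x hx, mul_inv]
    have : (a : ℝ) ^ n ≠ 0 := by positivity
    field_simp
  obtain ⟨hs1, hs2⟩ := size hDD s n k τ hτ hk hs hsk
  have ham : 0 ≤ (a : ℝ) ^ n * m := by positivity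
  have hkp : 0 < (k : ℝ) ^ (n + τ) := by positivity
  have hδ0 : 0 ≤ δ := by
    obtain ⟨x, hx⟩ : s.Nonempty := card_pos.1 (by omega)
    exact (abs_nonneg _).trans (hq' x hx)
  have hψ0 : 0 ≤ ψ := le_trans (by positivity) hδ.le
  refine absurd (core s n R δ ψ hs (fun x => ∏ y ∈ s.erase x, d x y) q
    (fun x => (m : ℝ) / (x : ℝ) ^ τ) (fun x hx => ?_) (fun x hx => ?_) hq' ?_ ?_) (not_le.2 hsm)
  · refine prod_ne_zero_iff.2 fun y hy h0 => ?_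
    have h1 := (hd x y hx (mem_of_mem_erase hy)).1
    have h2 := ne_of_mem_erase hy
    rw [h0, mul_zero] at h1
    omega
  · push_cast
    rw [abs_prod, ← hcarde x hx, ← prod_const]
    refine prod_le_prod (fun _ _ => abs_nonneg _) fun y hy => ?_
    have := (hd x y hx (mem_of_mem_erase hy)).2
    exact_mod_cast this
  · rw [hsum, abs_mul, abs_of_nonneg ham]
    refine lt_of_lt_of_le ?_ (mul_le_mul_of_nonneg_left hs1 ham)
    have h4 : (0 : ℝ) < 4 ^ (n + 1) := by positivity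
    have h2 : (2 : ℝ) ^ n * 2 ^ (n + τ) ≤ 4 ^ (n + 1) := by
      rw [← pow_add, show (4 : ℝ) = 2 ^ 2 by norm_num, ← pow_mul]
      exact pow_le_pow_right₀ (by norm_num) (by omega)
    refine lt_of_mul_lt_mul_left (a := (4 : ℝ) ^ (n + 1)) ?_ h4.le
    rw [← mul_assoc]
    refine hδ.trans_le ?_
    have h5 : ψ ≤ (2 * a : ℝ) ^ n * m * ((k : ℝ) ^ (n + τ))⁻¹ := by
      rw [← div_eq_mul_inv, le_div_iff₀ hkp]
      exact hψ2
    refine h5.trans ?_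
    calc (2 * a : ℝ) ^ n * m * ((k : ℝ) ^ (n + τ))⁻¹
        = (2 ^ n * 2 ^ (n + τ)) * ((a : ℝ) ^ n * m * ((2 * k : ℝ) ^ (n + τ))⁻¹) := by
          rw [mul_pow, mul_pow]
          field_simp
      _ ≤ _ := mul_le_mul_of_nonneg_right h2 (by positivity)
  · rw [hsum, abs_mul, abs_of_nonneg ham]
    refine (mul_le_mul_of_nonneg_left hs2 ham).trans ?_
    have h5 : (a : ℝ) ^ n * m * ((k : ℝ) ^ (n + τ))⁻¹ ≤ ψ := by
      rw [← div_eq_mul_inv, div_le_iff₀ hkp]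
      exact hψ1
    calc (a : ℝ) ^ n * m * (((n : ℝ) + 1) * ((k : ℝ) ^ (n + τ))⁻¹)
        = ((n : ℝ) + 1) * ((a : ℝ) ^ n * m * ((k : ℝ) ^ (n + τ))⁻¹) := by ring
      _ ≤ _ := mul_le_mul_of_nonneg_left h5 (by positivity)

end Pool.Agent.P.MP_baf437_nt.SP
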