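import Pool.Agent.P.MP_baf437_nt.SP.Defs

/-! Primes in short intervals. -/

open Finset Filter

namespace Pool.Agent.P.MP_baf437_nt.SP

open Pool.Agent.P.MP_a14ce1_nt.Ch (rs rs_nonneg)

namespace HOAux

theorem core {W H d l v L r θ s ε Z1 Z2 E1 E2 pI pJ SI SJ BI BJ BB gI gJ : ℝ} (hW : 0 < W)
    (hH : 0 < H) (hd : 0 ≤ d) (hdH : d ≤ H) (hv : 0 ≤ v) (hL : 0 ≤ L) (hr : 0 ≤ r)
    (hθ : 0 ≤ θ) (hθ1 : θ ≤ 1) (hs : 0 ≤ s) (hs1 : s ≤ 1) (hE : 0 ≤ Z1 + 2 * Z2 + E2)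
    (i1 : SI - BI + gI - E1 ≤ pI) (i2 : pJ ≤ SJ - BJ + gJ + BB + E2)
    (s1 : |SI - W * v| ≤ θ * (W * v) + Z1) (s2 : |BI - W * v * L| ≤ θ * (W * v * L) + Z2)
    (s3 : |SJ - d * v| ≤ θ * (d * v) + Z1) (s4 : |BJ - d * v * L| ≤ θ * (d * v * L) + Z2)
    (s5 : |BB - d * v * r| ≤ θ * (d * v * r) + Z2) (tr : s * (gJ / H) ≤ gI / W + ε)
    (pn : d / (2 * l) ≤ pJ) :
    s * (d / H) / (2 * l) - (1 - s * (d / H)) * v * L - 2 * θ * v * (1 + L) - 2 * v * r - ε -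
      (Z1 + Z2 + E1) / W - (Z1 + 2 * Z2 + E2) / H ≤ pI / W := by
  have a1 := (abs_le.1 s1).1
  have a2 := (abs_le.1 s2).2
  have a3 := (abs_le.1 s3).2
  have a4 := (abs_le.1 s4).1
  have a5 := (abs_le.1 s5).2
  have b0 : θ * (d * v * r) ≤ d * v * r := mul_le_of_le_one_left (by positivity) hθ1
  have b1 : d * (1 / (2 * l) + v * L - (v + θ * v + θ * v * L + 2 * v * r)) -
      (Z1 + 2 * Z2 + E2) ≤ gJ := by
    have : d / (2 * l) = d * (1 / (2 * l)) := by ring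
    nlinarith
  have b2 : v - θ * v - v * L - θ * v * L + gI / W - (Z1 + Z2 + E1) / W ≤ pI / W := by
    rw [show v - θ * v - v * L - θ * v * L + gI / W - (Z1 + Z2 + E1) / W =
      (W * (v - θ * v - v * L - θ * v * L) + gI - (Z1 + Z2 + E1)) / W by field_simp]
    refine div_le_div_of_nonneg_right ?_ hW.le
    nlinarith
  set ρ := s * (d / H) with hρ
  have ρ1 : ρ ≤ 1 := mul_le_one₀ hs1 (by positivity) ((div_le_one hH).2 hdH)
  have b3 : ρ * (1 / (2 * l) + v * L - (v + θ * v + θ * v * L + 2 * v * r)) -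
      s * ((Z1 + 2 * Z2 + E2) / H) ≤ s * (gJ / H) := by
    have := mul_le_mul_of_nonneg_left (div_le_div_of_nonneg_right b1 hH.le) hs
    refine le_of_eq_of_le ?_ this
    rw [hρ]
    ring
  have b4 : s * ((Z1 + 2 * Z2 + E2) / H) ≤ (Z1 + 2 * Z2 + E2) / H :=
    mul_le_of_le_one_left (by positivity) hs1
  have b5 : ρ * (v + θ * v + θ * v * L + 2 * v * r) ≤ v + θ * v + θ * v * L + 2 * v * r :=
    mul_le_of_le_one_left (by positivity) ρ1
  have b6 : ρ / (2 * l) = ρ * (1 / (2 * l)) := by ring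
  nlinarith

theorem fl {s : ℝ} (hs : 1 ≤ s) : 2 ≤ ⌊Real.exp s⌋₊ ∧ (⌊Real.exp s⌋₊ : ℝ) ≤ Real.exp s ∧
    Real.exp s ≤ 2 * ⌊Real.exp s⌋₊ ∧ s - 1 ≤ Real.log ⌊Real.exp s⌋₊ ∧
    Real.log ⌊Real.exp s⌋₊ ≤ s := by
  have h1 : 2 ≤ ⌊Real.exp s⌋₊ := Nat.le_floor (by
    have := Real.add_one_le_exp s
    push_cast
    linarith)
  have h2 : (2 : ℝ) ≤ ⌊Real.exp s⌋₊ := by exact_mod_cast h1
  have h3 := Nat.floor_le (Real.exp_pos s).le
  have h4 := Nat.lt_floor_add_one (Real.exp s)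
  refine ⟨h1, h3, by linarith, ?_, ?_⟩
  · rw [Real.le_log_iff_exp_le (by linarith), Real.exp_sub, div_le_iff₀ (Real.exp_pos 1)]
    nlinarith [Real.add_one_le_exp 1]
  · rwa [Real.log_le_iff_le_exp (by linarith)]

theorem ce {s : ℝ} (hs : 0 ≤ s) : Real.exp s ≤ ⌈Real.exp s⌉₊ ∧
    Real.log ⌈Real.exp s⌉₊ ≤ s + 1 := by
  have h1 := Nat.le_ceil (Real.exp s)
  have h2 := Nat.ceil_lt_add_one (Real.exp_pos s).le
  have h3 := Real.add_one_le_exp s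
  refine ⟨h1, ?_⟩
  rw [Real.log_le_iff_le_exp (by linarith), Real.exp_add]
  nlinarith [Real.add_one_le_exp 1]

theorem ev (A δ : ℝ) (hδ : 0 < δ) : ∀ᶠ l : ℝ in atTop, A * l ≤ Real.exp (δ * l) := by
  filter_upwards [eventually_ge_atTop (2 * |A| / δ ^ 2), eventually_ge_atTop 0] with l h h0
  have h1 := Real.pow_div_factorial_le_exp (δ * l) (by positivity) 2
  rw [div_le_iff₀ (by positivity)] at h
  have h2 : A * l ≤ |A| * l := mul_le_mul_of_nonneg_right (le_abs_self A) h0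
  norm_num [Nat.factorial] at h1
  nlinarith [mul_le_mul_of_nonneg_right h h0]

theorem exk {C : ℝ} (hC : 0 < C) : ∃ k : ℕ, C / 2 ^ k ≤ 1 ∧
    2 * (C / 2 ^ k) * (2 * C * ((16 * k + 40 : ℕ) : ℝ)) * (1 + 4 * ((16 * k + 40 : ℕ) : ℝ)) ≤
      1 / 40 := by
  have h := (tendsto_pow_const_div_const_pow_of_one_lt 2 (one_lt_two (α := ℝ))).eventually
    (eventually_le_nhds (show (0 : ℝ) < 1 / (3000000 * (C + 1) ^ 2) by positivity))
  obtain ⟨k, h1, h2⟩ := (h.and (eventually_ge_atTop 1)).exists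
  have h3 : (1 : ℝ) ≤ k := by exact_mod_cast h2
  have h4 : (0 : ℝ) < 2 ^ k := by positivity
  rw [div_le_div_iff₀ h4 (by positivity)] at h1
  have h5 : 1 ≤ (k : ℝ) ^ 2 := one_le_pow₀ h3
  refine ⟨k, ?_, ?_⟩
  · rw [div_le_one h4]
    nlinarith [mul_le_mul_of_nonneg_right h5 (show 0 ≤ 3000000 * (C + 1) ^ 2 by positivity)]
  · push_cast
    rw [show 2 * (C / 2 ^ k) * (2 * C * (16 * k + 40)) * (1 + 4 * (16 * (k : ℝ) + 40)) =
      4 * C ^ 2 * ((16 * k + 40) * (1 + 4 * (16 * k + 40))) / 2 ^ k by ring,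
      div_le_div_iff₀ h4 (by norm_num)]
    have h6 : (16 * (k : ℝ) + 40) * (1 + 4 * (16 * k + 40)) ≤ 16000 * k ^ 2 := by nlinarith
    have h7 : C ^ 2 ≤ (C + 1) ^ 2 := by gcongr; linarith
    have h8 := mul_le_mul h7 h6 (by positivity) (by positivity)
    nlinarith [sq_nonneg ((C + 1) * k)]

theorem exY {x : ℕ} {l : ℝ} (hx : 10 ≤ x) (hl : Real.exp l = x) (l0 : 0 ≤ l) :
    ∃ Y : ℕ, 2 * x ≤ Y ^ 2 ∧ Y ≤ x ∧ (Y : ℝ) ≤ 3 * Real.exp (1 / 2 * l) ∧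
      Real.exp (1 / 2 * l) ≤ Y ∧ Real.log Y ≤ 1 / 2 * l + 2 := by
  have Y1 : 2 * x < (Nat.sqrt (2 * x) + 1) ^ 2 := Nat.lt_succ_sqrt' _
  have sq : Real.exp (1 / 2 * l) ^ 2 = x := by
    rw [← Real.exp_nat_mul, ← hl]
    congr 1
    push_cast
    ring
  have sq1 : 1 ≤ Real.exp (1 / 2 * l) := Real.one_le_exp (by positivity)
  have Y3 : ((Nat.sqrt (2 * x) + 1 : ℕ) : ℝ) ≤ 3 * Real.exp (1 / 2 * l) := by
    have h1 : ((Nat.sqrt (2 * x) : ℕ) : ℝ) ^ 2 ≤ 2 * x := by exact_mod_cast Nat.sqrt_le' (2 * x)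
    have h2 : ((Nat.sqrt (2 * x) : ℕ) : ℝ) ≤ 2 * Real.exp (1 / 2 * l) :=
      (pow_le_pow_iff_left₀ (by positivity) (by positivity) two_ne_zero).1 (by nlinarith)
    push_cast
    linarith
  refine ⟨Nat.sqrt (2 * x) + 1, Y1.le, ?_, Y3, ?_, ?_⟩
  · have : Nat.sqrt (2 * x) < x := Nat.sqrt_lt'.2 (by nlinarith)
    omega
  · have h1 : (2 : ℝ) * x < ((Nat.sqrt (2 * x) + 1 : ℕ) : ℝ) ^ 2 := by exact_mod_cast Y1
    exact (pow_le_pow_iff_left₀ (by positivity) (by positivity) two_ne_zero).1 (by nlinarith)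
  · rw [Real.log_le_iff_le_exp (by positivity), Real.exp_add]
    nlinarith [Real.add_one_le_exp 2]

theorem exH {x : ℕ} {l e : ℝ} (hl : Real.exp l = x) (l20 : 20 ≤ l)
    (g2 : 2 * l ≤ Real.exp (1 / 20 * l)) (e0 : 0 < e) (e1 : e ≤ 1 / 10) (le : 4 / l ≤ e) :
    ∃ H a b : ℕ, H * l ≤ x ∧ (x : ℝ) ≤ 2 * H * l ∧ Real.exp (19 / 20 * l) ≤ H ∧
      (x : ℝ) + 2 * e * H ≤ a ∧ (b : ℝ) ≤ x + (1 - 2 * e) * H ∧ x ≤ a ∧ a ≤ b ∧ b ≤ 2 * x ∧
      (b : ℝ) - a ≤ H ∧ (x : ℝ) ≤ 4 * l * ((b : ℝ) - a) ∧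
      1 - 5 * e ≤ (1 - 2 / l) * (((b : ℝ) - a) / H) := by
  have l0 : 0 < l := by linarith
  have x0 : (0 : ℝ) ≤ x := Nat.cast_nonneg x
  have big : 2 * l * Real.exp (19 / 20 * l) ≤ x := by
    rw [← hl]
    calc _ ≤ Real.exp (1 / 20 * l) * Real.exp (19 / 20 * l) := by gcongr
      _ = _ := by rw [← Real.exp_add]; congr 1; ring
  have big1 : l ≤ Real.exp (19 / 20 * l) := by
    have : Real.exp (1 / 20 * l) ≤ Real.exp (19 / 20 * l) := by gcongr; norm_num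
    linarith
  set H := ⌊(x : ℝ) / l⌋₊ with hH
  have H1 : H * l ≤ x := (le_div_iff₀ l0).1 (Nat.floor_le (by positivity))
  have h1 : (x : ℝ) / l < H + 1 := Nat.lt_floor_add_one _
  have H3 : Real.exp (19 / 20 * l) ≤ H := by
    have h2 : 2 * Real.exp (19 / 20 * l) ≤ x / l := by rw [le_div_iff₀ l0]; linarith
    linarith
  have H2 : (x : ℝ) ≤ 2 * H * l := by
    rw [div_lt_iff₀ l0] at h1
    nlinarith
  have H0 : (0 : ℝ) < H := by linarith
  have Hx : (H : ℝ) ≤ x := by nlinarith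
  have eH : 0 ≤ e * H := by positivity
  have eH' : e * H ≤ 1 / 10 * H := by gcongr
  have a1 := Nat.le_ceil (2 * e * H)
  have a2 := Nat.ceil_lt_add_one (show 0 ≤ 2 * e * H by positivity)
  have b1 := Nat.floor_le (show 0 ≤ (1 - 2 * e) * H by linarith)
  have b2 := Nat.lt_floor_add_one ((1 - 2 * e) * H)
  set a := ⌈2 * e * H⌉₊
  set b := ⌊(1 - 2 * e) * H⌋₊
  have ed : ((x + b : ℕ) : ℝ) - (x + a : ℕ) = (b : ℝ) - a := by push_cast; ring
  refine ⟨H, x + a, x + b, H1, H2, H3, by push_cast; linarith, by push_cast; linarith, by omega,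
    ?_, ?_, by rw [ed]; linarith, ?_, ?_⟩
  · have : (a : ℝ) ≤ b := by linarith
    exact Nat.add_le_add_left (by exact_mod_cast this) x
  · have : (b : ℝ) ≤ x := by linarith
    have : b ≤ x := by exact_mod_cast this
    omega
  · rw [ed]
    have : (H : ℝ) / 2 ≤ (b : ℝ) - a := by linarith
    nlinarith
  · rw [ed]
    have h2 : 1 - 4 * e - 2 / l ≤ ((b : ℝ) - a) / H := by
      rw [le_div_iff₀ H0]
      have : 2 ≤ 2 / l * H := by
        rw [div_mul_eq_mul_div, le_div_iff₀ l0]; linarith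
      linarith
    have h3 : ((b : ℝ) - a) / H ≤ 1 := (div_le_one H0).2 (by linarith)
    have h4 : 4 / l = 2 * (2 / l) := by ring
    have h5 : 0 < 2 / l := by positivity
    nlinarith

theorem bad {C2 l e s : ℝ} {x z Y a : ℕ} {w0 : ℝ → ℝ} (hC2 : 0 < C2)
    (hM : ∀ u v : ℕ, 2 ≤ u → u ≤ v → rs (pp u v) ≤ (Real.log v - Real.log u + C2) / Real.log u)
    (hl : Real.exp l = x) (l20 : 20 ≤ l) (e1 : e ≤ 1 / 8) (le : 2 ≤ e * l) (s0 : 0 < s)
    (ls : 2 ≤ s * l) (z2 : 2 ≤ z) (z3 : (z : ℝ) ≤ Real.exp (s * l))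
    (z5 : s * l - 1 ≤ Real.log z) (Y3 : (Y : ℝ) ≤ 3 * Real.exp (1 / 2 * l))
    (Y4 : Real.exp (1 / 2 * l) ≤ Y) (lY : Real.log Y ≤ 1 / 2 * l + 2) (xa : x ≤ a)
    (w2 : ∀ v, s + e ≤ v → v ≤ 1 / 2 - e → w0 v = 1) (B : Finset ℕ)
    (hB : ∀ q ∈ B, q ∈ pp z Y ∧ ¬ (w0 (Real.log q / l) = 1 ∧ q * Y ≤ a)) :
    rs B ≤ (2 / s + 4) * (e + (3 + C2) / l) := by
  have l0 : 0 < l := by linarith
  have e0 : 0 < e := by nlinarith
  obtain ⟨c1, c2⟩ := ce (s := (s + e) * l) (by positivity)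
  obtain ⟨f1, f2, -, f3, -⟩ := fl (s := (1 / 2 - e) * l) (by nlinarith)
  set z1 := ⌈Real.exp ((s + e) * l)⌉₊ with hz1
  set y1 := ⌊Real.exp ((1 / 2 - e) * l)⌋₊ with hy1
  have zz : z ≤ z1 := by
    have : Real.exp (s * l) ≤ Real.exp ((s + e) * l) := by gcongr; linarith
    exact_mod_cast z3.trans (this.trans c1)
  have yy : y1 ≤ Y := by
    have : Real.exp ((1 / 2 - e) * l) ≤ Real.exp (1 / 2 * l) := by gcongr; linarith
    exact_mod_cast f2.trans (this.trans Y4)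
  have sub : B ⊆ pp z z1 ∪ pp y1 Y := by
    intro q hq
    obtain ⟨h1, h2⟩ := hB q hq
    obtain ⟨h3, h4, h5⟩ := mem_pp.1 h1
    by_contra hc
    simp only [mem_union, mem_pp, not_or, not_and, not_le] at hc
    have q1 : z1 < q := hc.1 h3 h4
    have q2 : q ≤ y1 := by
      by_contra h
      exact absurd (hc.2 h3 (not_le.1 h)) (not_lt.2 h5)
    have q0 : (0 : ℝ) < q := by exact_mod_cast h3.pos
    have q3 : Real.exp ((s + e) * l) ≤ q := c1.trans (by exact_mod_cast q1.le)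
    have q4 : (q : ℝ) ≤ Real.exp ((1 / 2 - e) * l) := le_trans (by exact_mod_cast q2) f2
    refine h2 ⟨w2 _ ?_ ?_, ?_⟩
    · rwa [le_div_iff₀ l0, Real.le_log_iff_exp_le q0]
    · rwa [div_le_iff₀ l0, Real.log_le_iff_le_exp q0]
    · have h7 : 3 ≤ Real.exp (e * l) := by linarith [Real.add_one_le_exp (e * l)]
      have h9 : (q : ℝ) * Y ≤ x :=
        calc (q : ℝ) * Y ≤ Real.exp ((1 / 2 - e) * l) * (Real.exp (e * l) * Real.exp (1 / 2 * l)) := by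
              gcongr
              exact Y3.trans (by gcongr)
          _ = x := by rw [← Real.exp_add, ← Real.exp_add, ← hl]; congr 1; ring
      exact le_trans (by exact_mod_cast h9) xa
  have h1 : rs B ≤ rs (pp z z1) + rs (pp y1 Y) := by
    refine (sum_le_sum_of_subset_of_nonneg sub fun _ _ _ => by positivity).trans ?_
    have := sum_union_inter (s₁ := pp z z1) (s₂ := pp y1 Y) (f := fun p : ℕ => (1 : ℝ) / p)
    have h2 := rs_nonneg (pp z z1 ∩ pp y1 Y)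
    unfold rs at h2 ⊢
    linarith
  have h2 : rs (pp z z1) ≤ 2 / s * (e + (3 + C2) / l) := by
    refine (hM z z1 z2 zz).trans ((div_le_div₀ (c := e * l + 3 + C2) (d := s * l / 2)
      (by positivity) (by linarith) (by positivity) (by linarith)).trans (le_of_eq ?_))
    field_simp
    ring
  have h3 : rs (pp y1 Y) ≤ 4 * (e + (3 + C2) / l) := by
    refine (hM y1 Y f1 yy).trans
      ((div_le_div₀ (c := e * l + 3 + C2) (d := l / 4) (by positivity) (by linarith)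
        (by positivity) (by nlinarith)).trans (le_of_eq ?_))
    field_simp
    ring
  linarith

theorem gen {C l s D G c A : ℝ} {z Y K : ℕ} (hC : 0 < C) (l0 : 0 ≤ l) (s1 : s ≤ 1 / 5)
    (z2 : 2 ≤ z) (lz : s * l ≤ Real.log z) (Y3 : (Y : ℝ) ≤ 3 * Real.exp (1 / 2 * l))
    (zK : (z : ℝ) ^ K ≤ Real.exp (1 / 4 * l)) (h1 : Real.exp (19 / 20 * l) ≤ G) (h2 : 0 ≤ D)
    (h3 : D ≤ G) (h4 : 0 ≤ c) (h5 : 0 ≤ A) :
    (2 * (z : ℝ) ^ K + c * (C * Y * (z : ℝ) ^ K) + A * (D / z + Y)) / G ≤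
      (2 + 3 * c * C + 4 * A) * (Real.exp (s * l))⁻¹ := by
  have z0 : (0 : ℝ) < z := by exact_mod_cast (show 0 < z by omega)
  set τ := (Real.exp (s * l))⁻¹ with hτ
  have τ0 : 0 < τ := by positivity
  have τ1 : 1 / (z : ℝ) ≤ τ := by
    rw [one_div]
    exact inv_anti₀ (Real.exp_pos _) ((Real.le_log_iff_exp_le z0).1 lz)
  have τ2 : Real.exp (3 / 4 * l) ≤ τ * Real.exp (19 / 20 * l) := by
    rw [hτ, ← Real.exp_neg, ← Real.exp_add]
    refine Real.exp_le_exp.2 ?_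
    nlinarith
  have m1 : Real.exp (1 / 2 * l) ≤ Real.exp (3 / 4 * l) := Real.exp_le_exp.2 (by linarith)
  have m2 : Real.exp (1 / 4 * l) ≤ Real.exp (3 / 4 * l) := Real.exp_le_exp.2 (by linarith)
  have m3 : (Y : ℝ) * (z : ℝ) ^ K ≤ 3 * Real.exp (3 / 4 * l) := by
    rw [show 3 / 4 * l = 1 / 2 * l + 1 / 4 * l by ring, Real.exp_add, ← mul_assoc]
    gcongr
  have G0 : 0 < G := (Real.exp_pos _).trans_le h1
  have h6 : Real.exp (3 / 4 * l) ≤ τ * G := τ2.trans (by gcongr)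
  have h7 : D / z ≤ τ * G := by
    rw [div_eq_mul_one_div, mul_comm]
    gcongr
  have h8 : c * C * (Y * (z : ℝ) ^ K) ≤ c * C * (3 * (τ * G)) :=
    mul_le_mul_of_nonneg_left (by linarith) (by positivity)
  have h9 : A * (D / z + Y) ≤ A * (4 * (τ * G)) := mul_le_mul_of_nonneg_left (by linarith) h5
  rw [div_le_iff₀ G0]
  nlinarith

theorem fin {C u l θ v L r ρ e A τ U t5 t6 P : ℝ} (hC : 0 < C) (u0 : 0 < u) (l0 : 0 < l)
    (θ0 : 0 ≤ θ) (v0 : 0 ≤ v) (v1 : v ≤ 2 * C * u / l) (L0 : 0 ≤ L) (L1 : L ≤ 4 * u)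
    (r0 : 0 ≤ r) (r1 : r ≤ 1 / (160 * C * u)) (e0 : 0 < e) (e1 : e ≤ 1 / 10)
    (e2 : e * (1600 * C * u ^ 2) ≤ 1) (ρ1 : 1 - 5 * e ≤ ρ)
    (k2 : 2 * θ * (2 * C * u) * (1 + 4 * u) ≤ 1 / 40) (τ0 : 0 < τ)
    (hA : A = 4 + 9 * C + 8 * (U ^ 2 + 1)) (τ3 : A * τ ≤ 1 / 40 / l)
    (h5 : t5 ≤ (2 + 3 * 1 * C + 4 * (U ^ 2 + 1)) * τ) (h6 : t6 ≤ (2 + 3 * 2 * C + 4 * U) * τ)
    (main : ρ / (2 * l) - (1 - ρ) * v * L - 2 * θ * v * (1 + L) - 2 * v * r - 1 / 40 / l -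
      t5 - t6 ≤ P) : 1 / 8 / l ≤ P := by
  have t1 : 1 / 4 / l ≤ ρ / (2 * l) := by
    rw [div_le_div_iff₀ l0 (by positivity)]
    nlinarith
  have t2 : (1 - ρ) * v * L ≤ 1 / 40 / l := by
    have h1 : (1 - ρ) * v * L ≤ 5 * e * (2 * C * u / l) * (4 * u) := by
      refine le_trans ?_ (mul_le_mul_of_nonneg_left L1 (by positivity))
      refine mul_le_mul_of_nonneg_right ?_ L0
      exact (mul_le_mul_of_nonneg_right (by linarith) v0).trans
        (mul_le_mul_of_nonneg_left v1 (by positivity))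
    refine h1.trans ?_
    rw [show 5 * e * (2 * C * u / l) * (4 * u) = e * (1600 * C * u ^ 2) / 40 / l by ring]
    gcongr
  have t3 : 2 * θ * v * (1 + L) ≤ 1 / 40 / l := by
    have h1 : 2 * θ * v * (1 + L) ≤ 2 * θ * (2 * C * u / l) * (1 + 4 * u) := by gcongr
    refine h1.trans ?_
    rw [show 2 * θ * (2 * C * u / l) * (1 + 4 * u) = 2 * θ * (2 * C * u) * (1 + 4 * u) / l by
      ring]
    gcongr
  have t4 : 2 * v * r ≤ 1 / 40 / l := by
    have h1 : 2 * v * r ≤ 2 * (2 * C * u / l) * (1 / (160 * C * u)) := by gcongr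
    refine h1.trans (le_of_eq ?_)
    field_simp
    norm_num
  have t7 : (2 + 3 * 1 * C + 4 * (U ^ 2 + 1)) * τ + (2 + 3 * 2 * C + 4 * U) * τ ≤ A * τ := by
    rw [← add_mul]
    refine mul_le_mul_of_nonneg_right ?_ τ0.le
    nlinarith [sq_nonneg (U - 1)]
  have : 1 / 8 / l = 1 / 4 / l - 5 * (1 / 40 / l) := by ring
  linarith

theorem exz {k u x : ℕ} {l : ℝ} (hu : u = 16 * k + 40) (hl : Real.exp l = x) (hx : 2 ≤ x)
    (lu : 2 * u ≤ l) : ∃ z : ℕ, 2 ≤ z ∧ (z : ℝ) ≤ Real.exp (1 / u * l) ∧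
      Real.exp (1 / u * l) ≤ 2 * z ∧ 1 / u * l - 1 ≤ Real.log z ∧
      1 / (2 * u) * l ≤ Real.log z ∧ 2 * x ≤ z ^ (4 * u) ∧
      (z : ℝ) ^ (4 * k + 8) ≤ Real.exp (1 / 4 * l) := by
  have u0 : (0 : ℝ) < u := by exact_mod_cast (show 0 < u by omega)
  have l0 : 0 < l := by linarith
  have lu' : 2 ≤ 1 / (u : ℝ) * l := by
    rw [one_div_mul_eq_div, le_div_iff₀ u0]
    linarith
  obtain ⟨z2, z3, z4, z5, -⟩ := fl (s := 1 / u * l) (by linarith)
  set z := ⌊Real.exp (1 / u * l)⌋₊ with hz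
  have z0 : (0 : ℝ) < z := by exact_mod_cast (show 0 < z by omega)
  have lz : 1 / (2 * u) * l ≤ Real.log z := by
    have : 1 / (2 * (u : ℝ)) * l = 1 / u * l / 2 := by field_simp
    linarith
  refine ⟨z, z2, z3, z4, z5, lz, ?_, ?_⟩
  · have h1 : Real.exp (2 * l) ≤ (z : ℝ) ^ (4 * u) := by
      rw [← Real.exp_log z0, ← Real.exp_nat_mul]
      refine Real.exp_le_exp.2 ?_
      have : ((4 * u : ℕ) : ℝ) * (1 / (2 * u) * l) = 2 * l := by push_cast; field_simp; ring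
      rw [← this]
      gcongr
    have h2 : Real.exp (2 * l) = x * x := by rw [two_mul, Real.exp_add, hl]
    have h3 : (2 : ℝ) ≤ x := by exact_mod_cast hx
    have h4 : (2 : ℝ) * x ≤ (z : ℝ) ^ (4 * u) := by nlinarith
    exact_mod_cast h4
  · refine (pow_le_pow_left₀ z0.le z3 _).trans ?_
    rw [← Real.exp_nat_mul, ← mul_assoc]
    gcongr
    rw [mul_one_div, div_le_div_iff₀ u0 (by norm_num), hu]
    push_cast
    linarith

theorem rb {C C2 u l e r : ℝ} (hC : 0 < C) (hC2 : 0 < C2) (u40 : 40 ≤ u) (l0 : 0 < l) (e0 : 0 < e)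
    (e1 : e * (1000 * C * u ^ 2) ≤ 1) (h : 1600 * C * u ^ 2 * (3 + C2) ≤ l)
    (hr : r ≤ (2 / (1 / u) + 4) * (e + (3 + C2) / l)) : r ≤ 1 / (160 * C * u) := by
  have h4 : (3 + C2) / l * (1600 * C * u ^ 2) ≤ 1 := by
    rw [div_mul_eq_mul_div, div_le_one l0]
    linarith
  have h5 : 0 ≤ (3 + C2) / l := by positivity
  rw [div_div_eq_mul_div, div_one] at hr
  have h6 : r ≤ 3 * u * (e + (3 + C2) / l) :=
    hr.trans (mul_le_mul_of_nonneg_right (by linarith) (by positivity))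
  rw [le_div_iff₀ (by positivity)]
  refine (mul_le_mul_of_nonneg_right h6 (by positivity)).trans ?_
  nlinarith

end HOAux

open HOAux in
theorem pHO (hTr : StTr) (hId : StId) (hSv : StSv) (hUp : StUp) (hPN : StPN) : StHO := by
  obtain ⟨C, hC, hV, hS, hB⟩ := hSv
  obtain ⟨C2, hC2, -, -, hM⟩ := hUp
  obtain ⟨x1, hPN⟩ := hPN
  obtain ⟨k, k1, k2⟩ := exk hC
  obtain ⟨u, hu⟩ : ∃ u : ℕ, u = 16 * k + 40 := ⟨_, rfl⟩
  rw [← hu] at k2
  have u40 : (40 : ℝ) ≤ u := by exact_mod_cast (show 40 ≤ u by omega)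
  have u0 : (0 : ℝ) < u := by linarith
  obtain ⟨e1, e10, e11, e12⟩ : ∃ e : ℝ, 0 < e ∧ e ≤ 1 / 8 ∧ e * (1000 * C * u ^ 2) ≤ 1 :=
    ⟨min (1 / 8) (1 / (1000 * C * u ^ 2)), lt_min (by norm_num) (by positivity), min_le_left _ _,
      (le_div_iff₀ (by positivity)).1 (min_le_right _ _)⟩
  obtain ⟨e2, e20, e21, e22⟩ : ∃ e : ℝ, 0 < e ∧ e ≤ 1 / 10 ∧ e * (1600 * C * u ^ 2) ≤ 1 :=
    ⟨min (1 / 10) (1 / (1600 * C * u ^ 2)), lt_min (by norm_num) (by positivity),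
      min_le_left _ _, (le_div_iff₀ (by positivity)).1 (min_le_right _ _)⟩
  obtain ⟨η, η0, η1, w0, w1, w2, x2, hT⟩ := hTr u e1 e2 (1 / 40) (by omega) e10 e11 e20
    (by linarith) (by norm_num)
  obtain ⟨A0, hA0⟩ : ∃ A : ℝ, A = 4 + 9 * C + 8 * (((4 * u : ℕ) : ℝ) ^ 2 + 1) := ⟨_, rfl⟩
  have hev : ∀ᶠ x : ℕ in atTop, (40 * A0 * Real.log x ≤ Real.exp (1 / (2 * u) * Real.log x) ∧
      2 * Real.log x ≤ Real.exp (1 / 20 * Real.log x)) ∧
      (2 * u + C2 + 20 + 4 / e2 + 2 / e1 + 1600 * C * u ^ 2 * (3 + C2) ≤ Real.log x) :=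
    (Real.tendsto_log_atTop.comp tendsto_natCast_atTop_atTop).eventually
      (((ev (40 * A0) (1 / (2 * u)) (by positivity)).and (ev 2 (1 / 20) (by norm_num))).and
        (eventually_ge_atTop _))
  obtain ⟨x3, hx3⟩ := eventually_atTop.1 hev
  refine ⟨η, 1 / 8, η0, η1, by norm_num, x1 + x2 + x3 + 10, fun x W hx hW1 hW2 => ?_⟩
  obtain ⟨⟨g1, g2⟩, g3⟩ := hx3 x (by omega)
  have x0 : (0 : ℝ) < x := by exact_mod_cast (show 0 < x by omega)
  have hT := fun H a b z Y => hT x W H a b z Y (by omega) hW1 hW2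
  have hPN := fun a b => hPN x a b (by omega)
  obtain ⟨l, hl⟩ : ∃ l, l = Real.log x := ⟨_, rfl⟩
  have rp : ∀ s : ℝ, (x : ℝ) ^ s = Real.exp (s * l) := fun s => by
    rw [Real.rpow_def_of_pos x0, mul_comm, hl]
  have ex : Real.exp l = x := by rw [hl, Real.exp_log x0]
  simp only [rp] at hT hW1
  simp only [← hl] at *
  clear hx3 hev
  have p1 : 0 < 4 / e2 := by positivity
  have p2 : 0 < 2 / e1 := by positivity
  have p3 : 0 < 1600 * C * u ^ 2 * (3 + C2) := by positivity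
  have l20 : 20 ≤ l := by linarith
  have l0 : 0 < l := by linarith
  have le1 : 2 ≤ e1 * l := by
    have : 2 / e1 ≤ l := by linarith
    rwa [div_le_iff₀ e10, mul_comm] at this
  have le2 : 4 / l ≤ e2 := by
    have : 4 / e2 ≤ l := by linarith
    rwa [div_le_iff₀ e20, mul_comm, ← div_le_iff₀ l0] at this
  have lu : 2 * u ≤ l := by linarith
  have lC : C2 ≤ l := by linarith
  have lb : 1600 * C * u ^ 2 * (3 + C2) ≤ l := by linarith
  clear p1 p2 p3 g3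
  have lu' : 2 ≤ 1 / (u : ℝ) * l := by rwa [one_div_mul_eq_div, le_div_iff₀ u0]
  obtain ⟨z, z2, z3, z4, z5, lz, zU, zK⟩ := exz hu ex (by omega) lu
  obtain ⟨Y, Y1, Y2, Y3, Y4, lY⟩ := exY (by omega) ex l0.le
  obtain ⟨H, a, b, H1, H2, H3, a1, b1, xa, ab, b3, d2, d4, ρ1⟩ := exH ex l20 g2 e20 e21 le2
  have lz0 : 0 < 1 / (2 * (u : ℝ)) * l := by positivity
  have zY : z ≤ Y := by
    have : Real.exp (1 / u * l) ≤ Real.exp (1 / 2 * l) := by gcongr; linarith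
    exact_mod_cast z3.trans (this.trans Y4)
  have H0 : (0 : ℝ) < H := (Real.exp_pos _).trans_le H3
  have W3 : Real.exp (19 / 20 * l) ≤ W := le_trans (by gcongr; linarith) hW1
  have W0 : (0 : ℝ) < W := (Real.exp_pos _).trans_le W3
  have Wx : W ≤ x := by
    have : (W : ℝ) ≤ x := le_trans (le_mul_of_one_le_right W0.le (by linarith)) hW2
    exact_mod_cast this
  have d0 : 0 ≤ (b : ℝ) - a := sub_nonneg.2 (by exact_mod_cast ab)
  classical
  obtain ⟨B, hBd⟩ : ∃ B, B = (pp z Y).filter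
    fun q : ℕ => ¬ (w0 (Real.log q / l) = 1 ∧ q * Y ≤ a) := ⟨_, rfl⟩
  have BB : B ⊆ pp z Y := hBd ▸ filter_subset _ _
  have i1 := (hId z Y (2 * x) (4 * u) x (x + W) (fun q => w0 (Real.log q / l)) (pp z Y) z2 zY Y2
    (by omega) (by omega) (by omega) (by omega) (fun q => w1 _) Subset.rfl
    fun q h h' => absurd h h').1
  have i2 := (hId z Y (2 * x) (4 * u) a b (fun q => w0 (Real.log q / l)) B z2 zY (by omega) ab
    (by omega) b3 (by omega) (fun q => w1 _) BB fun q h h' => by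
      by_contra hc
      exact h' (hBd ▸ mem_filter.2 ⟨h, hc⟩)).2
  have s1 := hS z k x (x + W) z2 (by omega)
  have s2 := hB z k x (x + W) Y (pp z Y) z2 (by omega) Subset.rfl
  have eW : ((x + W : ℕ) : ℝ) - x = W := by push_cast; ring
  rw [eW] at i1 s1 s2
  have sl : 2 / l ≤ 1 := (div_le_one l0).2 (by linarith)
  have sl0 : 0 < 2 / l := by positivity
  have main := core W0 H0 d0 d2 (hV z z2).1 (rs_nonneg _) (rs_nonneg B)
    (by positivity) k1 (sub_nonneg.2 sl) (sub_le_self _ sl0.le) (by positivity)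
    i1 i2 s1 s2 (hS z k a b z2 ab) (hB z k a b Y (pp z Y) z2 ab Subset.rfl)
    (hB z k a b Y B z2 ab BB) (hT H a b z Y H1 H2 a1 b1 z3 z4 (by omega) Y2) (hPN a b xa b3 d4)
  clear i1 i2 s1 s2
  have v1 : VV z ≤ 2 * C * u / l := by
    refine (hV z z2).2.trans ((div_le_div_of_nonneg_left hC.le lz0 lz).trans (le_of_eq ?_))
    field_simp
  have L1 : rs (pp z Y) ≤ 4 * u := by
    refine (hM z Y z2 zY).trans ((div_le_div₀ (c := 2 * l) (by positivity) (by linarith) lz0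
      lz).trans (le_of_eq ?_))
    field_simp
    ring
  have r1 := rb hC hC2 u40 l0 e10 e12 lb (bad hC2 hM ex l20 e11 le1 (by positivity) lu' z2 z3 z5
    Y3 Y4 lY xa w2 B fun q hq => mem_filter.1 (hBd ▸ hq))
  have s5 : 1 / (2 * (u : ℝ)) ≤ 1 / 5 := one_div_le_one_div_of_le (by norm_num) (by linarith)
  have t5 := gen (A := ((4 * u : ℕ) : ℝ) ^ 2 + 1) hC l0.le s5 z2 lz Y3 zK W3 W0.le le_rfl
    zero_le_one (by positivity)
  have t6 := gen (A := ((4 * u : ℕ) : ℝ)) hC l0.le s5 z2 lz Y3 zK H3 d0 d2 zero_le_two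
    (by positivity)
  rw [one_mul] at t5
  have f := fin hC u0 l0 (by positivity) (hV z z2).1 v1 (rs_nonneg _) L1 (rs_nonneg _) r1 e20 e21
    e22 ρ1 k2 (by positivity) hA0 (by
      rw [← div_eq_mul_inv, div_le_div_iff₀ (Real.exp_pos _) l0]
      linarith) t5 t6 main
  rw [le_div_iff₀ W0] at f
  refine le_of_eq_of_le ?_ f
  ring

end Pool.Agent.P.MP_baf437_nt.SP
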