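import Pool.Agent.P.MP_baf437_nt.SP.Defs

/-! The combinatorial identity that detects primes among the sifted integers. -/

open Finset

namespace Pool.Agent.P.MP_baf437_nt.SP

namespace IdAux

/-- Prime factors of `n` in `(z, Y]`. -/
def pf (z Y n : ℕ) : Finset ℕ := (pp z Y).filter fun p => p ∣ n

/-- The part of the trilinear sum with given `q`, `p` and product `n`. -/
noncomputable def tm (z Y N : ℕ) (w : ℕ → ℝ) (n q p : ℕ) : ℝ :=
  ∑ r ∈ ro z z N, if q * p * r = n then w q / ((omP z Y r : ℝ) + 2) else 0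

/-- The part of the trilinear sum with product `n`. -/
noncomputable def gn (z Y N : ℕ) (w : ℕ → ℝ) (n : ℕ) : ℝ :=
  ∑ q ∈ pp z Y, ∑ p ∈ pp z Y, tm z Y N w n q p

variable {z Y N : ℕ} {w : ℕ → ℝ}

theorem mem_pf {n p : ℕ} : p ∈ pf z Y n ↔ p ∈ pp z Y ∧ p ∣ n := mem_filter

theorem gam_eq (a b : ℕ) : gam z Y N w a b = ∑ n ∈ Ioc a b, gn z Y N w n := by
  unfold gam gn tm
  rw [sum_comm (s := Ioc a b)]
  refine sum_congr rfl fun q _ => ?_
  rw [sum_comm (s := Ioc a b)]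
  refine sum_congr rfl fun p _ => ?_
  rw [sum_comm (s := Ioc a b)]
  refine sum_congr rfl fun r _ => ?_
  rw [sum_ite_eq]

theorem bet_eq (a b : ℕ) (Q : Finset ℕ) : bet z a b Q =
    ∑ n ∈ Ioc a b, if Ro z n then ((Q.filter fun p => p ∣ n).card : ℝ) else 0 := by
  unfold bet ro
  simp only [card_filter, sum_filter, Nat.cast_sum, Nat.cast_ite, Nat.cast_one, Nat.cast_zero]
  rw [sum_comm]
  refine sum_congr rfl fun n _ => ?_
  split_ifs <;> simp

theorem tm_nonneg (hw : ∀ q, 0 ≤ w q ∧ w q ≤ 1) (n q p : ℕ) : 0 ≤ tm z Y N w n q p :=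
  sum_nonneg fun r _ => by
    have := (hw q).1
    split_ifs
    · positivity
    · exact le_rfl

theorem tm_zero {n q p : ℕ} (h : ∀ r, Ro z r → q * p * r ≠ n) : tm z Y N w n q p = 0 :=
  sum_eq_zero fun r hr => if_neg (h r (mem_ro.1 hr).1)

theorem tm_eq {n q p r : ℕ} (h0 : n ≠ 0) (h : q * p * r = n) : tm z Y N w n q p =
    if r ∈ ro z z N then w q / ((omP z Y r : ℝ) + 2) else 0 := by
  unfold tm
  rw [← sum_ite_eq (ro z z N) r fun r => w q / ((omP z Y r : ℝ) + 2)]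
  refine sum_congr rfl fun s _ => ?_
  have hqp : q * p ≠ 0 := fun e => h0 (by rw [← h, e, zero_mul])
  have : q * p * s = n ↔ r = s := by
    rw [← h]
    exact ⟨fun e => (mul_left_cancel₀ hqp e).symm, fun e => by rw [e]⟩
  by_cases e : r = s
  · rw [if_pos (this.2 e), if_pos e]
  · rw [if_neg (fun e' => e (this.1 e')), if_neg e]

theorem tm_le_one (hw : ∀ q, 0 ≤ w q ∧ w q ≤ 1) {n : ℕ} (h0 : n ≠ 0) (q p : ℕ) :
    tm z Y N w n q p ≤ 1 := by
  by_cases h : ∃ r, q * p * r = n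
  · obtain ⟨r, hr⟩ := h
    rw [tm_eq h0 hr]
    split_ifs
    · rw [div_le_one (by positivity)]
      have := (hw q).2
      have h2 : (0 : ℝ) ≤ omP z Y r := Nat.cast_nonneg _
      linarith
    · exact zero_le_one
  · rw [tm_zero fun r _ e => h ⟨r, e⟩]
    exact zero_le_one

theorem gn_eq (n : ℕ) : gn z Y N w n = ∑ q ∈ pf z Y n, ∑ p ∈ pf z Y n, tm z Y N w n q p := by
  unfold gn
  symm
  refine Eq.trans (sum_congr rfl fun q _ => ?_) (sum_subset (filter_subset _ _) fun q hq hq' => ?_)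
  · refine sum_subset (filter_subset _ _) fun p hp hp' => tm_zero fun r _ e => hp' ?_
    exact mem_pf.2 ⟨hp, e ▸ Dvd.intro (q * r) (by ring)⟩
  · refine sum_eq_zero fun p _ => tm_zero fun r _ e => hq' ?_
    exact mem_pf.2 ⟨hq, e ▸ Dvd.intro (p * r) (by ring)⟩

theorem gn_nonneg (hw : ∀ q, 0 ≤ w q ∧ w q ≤ 1) (n : ℕ) : 0 ≤ gn z Y N w n :=
  sum_nonneg fun _ _ => sum_nonneg fun _ _ => tm_nonneg hw _ _ _

theorem gn_le_sq (hw : ∀ q, 0 ≤ w q ∧ w q ≤ 1) {n : ℕ} (h0 : n ≠ 0) :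
    gn z Y N w n ≤ ((pf z Y n).card : ℝ) ^ 2 := by
  rw [gn_eq]
  calc _ ≤ ∑ _q ∈ pf z Y n, ∑ _p ∈ pf z Y n, (1 : ℝ) :=
        sum_le_sum fun q _ => sum_le_sum fun p _ => tm_le_one hw h0 q p
    _ = _ := by simp [sq]

theorem gn_not_ro {n : ℕ} (h : ¬ Ro z n) : gn z Y N w n = 0 :=
  sum_eq_zero fun q hq => sum_eq_zero fun p hp => tm_zero fun r hr e => h (by
    rw [← e]
    exact ro_mul.2 ⟨ro_mul.2 ⟨ro_prime (mem_pp.1 hq).1 (mem_pp.1 hq).2.1,
      ro_prime (mem_pp.1 hp).1 (mem_pp.1 hp).2.1⟩, hr⟩)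

theorem card_pf_le {n U : ℕ} (hz : 2 ≤ z) (h0 : n ≠ 0) (hU : n ≤ z ^ U) :
    (pf z Y n).card ≤ U := by
  have h1 : ∏ p ∈ pf z Y n, p ∣ n :=
    Finset.prod_primes_dvd n (fun p hp => (mem_pp.1 (mem_pf.1 hp).1).1.prime)
      fun p hp => (mem_pf.1 hp).2
  have h2 : z ^ (pf z Y n).card ≤ ∏ p ∈ pf z Y n, p :=
    Finset.pow_card_le_prod _ _ _ fun p hp => (mem_pp.1 (mem_pf.1 hp).1).2.1.le
  exact (Nat.pow_le_pow_iff_right (by omega)).1
    (h2.trans ((Nat.le_of_dvd (Nat.pos_of_ne_zero h0) h1).trans hU))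

theorem omP_quot {n q p r : ℕ} (hs : ∀ t ∈ pp z Y, ¬ t ^ 2 ∣ n) (hq : q ∈ pf z Y n)
    (hp : p ∈ pf z Y n) (hqp : p ≠ q) (h : q * p * r = n) :
    (omP z Y r : ℝ) + 2 = (pf z Y n).card := by
  have hq1 := (mem_pp.1 (mem_pf.1 hq).1).1
  have hp1 := (mem_pp.1 (mem_pf.1 hp).1).1
  have e : (pp z Y).filter (fun t => t ∣ r) = ((pf z Y n).erase q).erase p := by
    ext t
    simp only [mem_filter, mem_erase, mem_pf]
    constructor
    · rintro ⟨ht, s, rfl⟩
      refine ⟨?_, ?_, ht, h ▸ Dvd.intro (q * p * s) (by ring)⟩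
      · rintro rfl
        exact hs t ht (h ▸ Dvd.intro (q * s) (by ring))
      · rintro rfl
        exact hs t ht (h ▸ Dvd.intro (p * s) (by ring))
    · rintro ⟨h1, h2, ht, hd⟩
      refine ⟨ht, ?_⟩
      have ht1 := (mem_pp.1 ht).1
      rw [← h] at hd
      rcases ht1.dvd_mul.1 hd with hd | hd
      · rcases ht1.dvd_mul.1 hd with hd | hd
        · exact absurd ((Nat.prime_dvd_prime_iff_eq ht1 hq1).1 hd) h2
        · exact absurd ((Nat.prime_dvd_prime_iff_eq ht1 hp1).1 hd) h1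
      · exact hd
  have c1 := card_erase_add_one hq
  have c2 := card_erase_add_one (mem_erase.2 ⟨hqp, hp⟩)
  have : omP z Y r + 2 = (pf z Y n).card := by
    unfold omP
    rw [e]
    omega
  exact_mod_cast this

theorem exists_quot {n q p : ℕ} (hq : q ∈ pf z Y n) (hp : p ∈ pf z Y n) (hqp : p ≠ q) :
    ∃ r, q * p * r = n := by
  have hq1 := (mem_pp.1 (mem_pf.1 hq).1).1
  have hp1 := (mem_pp.1 (mem_pf.1 hp).1).1
  obtain ⟨r, hr⟩ := ((Nat.coprime_primes hq1 hp1).2 hqp.symm).mul_dvd_of_dvd_of_dvd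
    (mem_pf.1 hq).2 (mem_pf.1 hp).2
  exact ⟨r, hr.symm⟩

theorem row_eq {n q : ℕ} (hs : ∀ t ∈ pp z Y, ¬ t ^ 2 ∣ n) (hq : q ∈ pf z Y n) :
    ∑ p ∈ pf z Y n, tm z Y N w n q p = ∑ p ∈ (pf z Y n).erase q, tm z Y N w n q p := by
  rw [← add_sum_erase _ _ hq, tm_zero, zero_add]
  exact fun r _ e => hs q (mem_pf.1 hq).1 (e ▸ Dvd.intro r (by ring))

theorem card_erase_cast {n q : ℕ} (hq : q ∈ pf z Y n) :
    (((pf z Y n).erase q).card : ℝ) = (pf z Y n).card - 1 := by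
  rw [← card_erase_add_one hq]
  push_cast
  ring

theorem gn_le (hw : ∀ q, 0 ≤ w q ∧ w q ≤ 1) {n : ℕ} (h0 : n ≠ 0)
    (hs : ∀ t ∈ pp z Y, ¬ t ^ 2 ∣ n) (hne : (pf z Y n).Nonempty) :
    gn z Y N w n ≤ (pf z Y n).card - 1 := by
  have hk : (0 : ℝ) < (pf z Y n).card := Nat.cast_pos.2 hne.card_pos
  rw [gn_eq]
  calc _ ≤ ∑ _q ∈ pf z Y n, (((pf z Y n).card : ℝ) - 1) * (1 / (pf z Y n).card) := by
        refine sum_le_sum fun q hq => ?_
        rw [row_eq hs hq, ← card_erase_cast hq, ← nsmul_eq_mul]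
        refine sum_le_card_nsmul _ _ _ fun p hp => ?_
        obtain ⟨hp1, hp2⟩ := mem_erase.1 hp
        obtain ⟨r, hr⟩ := exists_quot hq hp2 hp1
        rw [tm_eq h0 hr, omP_quot hs hq hp2 hp1 hr]
        split_ifs
        · exact div_le_div_of_nonneg_right (hw q).2 hk.le
        · positivity
    _ = _ := by
        rw [sum_const, nsmul_eq_mul]
        field_simp

theorem le_gn (hw : ∀ q, 0 ≤ w q ∧ w q ≤ 1) {n : ℕ} {B : Finset ℕ} (h0 : n ≠ 0) (hN : n ≤ N)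
    (hro : Ro z n) (hs : ∀ t ∈ pp z Y, ¬ t ^ 2 ∣ n) (hne : (pf z Y n).Nonempty)
    (hB : ∀ q ∈ pp z Y, q ∉ B → w q = 1 ∧ q * Y < n) :
    ((pf z Y n).card : ℝ) - 1 ≤ gn z Y N w n + (B.filter fun p => p ∣ n).card := by
  have hk : (0 : ℝ) < (pf z Y n).card := Nat.cast_pos.2 hne.card_pos
  have h1 : ∑ q ∈ pf z Y n, (if q ∈ B then (1 : ℝ) else 0) ≤ (B.filter fun p => p ∣ n).card := by
    rw [sum_boole]
    exact Nat.cast_le.2 (card_le_card fun q hq =>
      mem_filter.2 ⟨(mem_filter.1 hq).2, (mem_pf.1 (mem_filter.1 hq).1).2⟩)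
  refine le_trans ?_ (add_le_add_right h1 _)
  rw [gn_eq, ← sum_add_distrib]
  calc _ = ∑ _q ∈ pf z Y n, (((pf z Y n).card : ℝ) - 1) * (1 / (pf z Y n).card) := by
        rw [sum_const, nsmul_eq_mul]
        field_simp
    _ ≤ _ := by
        refine sum_le_sum fun q hq => ?_
        split_ifs with hb
        · have h2 : (0 : ℝ) ≤ ∑ p ∈ pf z Y n, tm z Y N w n q p :=
            sum_nonneg fun p _ => tm_nonneg hw _ _ _
          have h3 : (((pf z Y n).card : ℝ) - 1) * (1 / (pf z Y n).card) ≤ 1 := by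
            rw [mul_one_div, div_le_one hk]
            linarith
          linarith
        · obtain ⟨hw1, hY⟩ := hB q (mem_pf.1 hq).1 hb
          rw [add_zero, row_eq hs hq, ← card_erase_cast hq, ← nsmul_eq_mul]
          refine card_nsmul_le_sum _ _ _ fun p hp => ?_
          obtain ⟨hp1, hp2⟩ := mem_erase.1 hp
          obtain ⟨r, hr⟩ := exists_quot hq hp2 hp1
          have hr0 : r ≠ 0 := fun e => h0 (by rw [← hr, e, mul_zero])
          have hr1 : r ≠ 1 := by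
            intro e
            rw [e, mul_one] at hr
            have := Nat.mul_le_mul_left q (mem_pp.1 (mem_pf.1 hp2).1).2.2
            omega
          have hrd : r ∣ n := hr ▸ Dvd.intro_left _ rfl
          have hrr : Ro z r := (ro_mul.1 (hr ▸ hro)).2
          have hrz : z < r := by
            by_contra hc
            exact ro_iff.1 hrr _ (Nat.minFac_prime hr1)
              ((Nat.minFac_le (Nat.pos_of_ne_zero hr0)).trans (not_lt.1 hc)) (Nat.minFac_dvd r)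
          rw [tm_eq h0 hr, omP_quot hs hq hp2 hp1 hr, hw1,
            if_pos (mem_ro.2 ⟨hrr, hrz, (Nat.le_of_dvd (Nat.pos_of_ne_zero h0) hrd).trans hN⟩)]

theorem card_dvd_le {a b d : ℕ} (hab : a ≤ b) (hd : 0 < d) :
    (((Ioc a b).filter fun n => d ∣ n).card : ℝ) ≤ ((b : ℝ) - a) / d + 1 := by
  have h1 : ((Ioc 0 a).filter fun n => d ∣ n).card + ((Ioc a b).filter fun n => d ∣ n).card =
      ((Ioc 0 b).filter fun n => d ∣ n).card := by
    rw [← card_union_of_disjoint, ← filter_union, Ioc_union_Ioc_eq_Ioc (Nat.zero_le a) hab]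
    refine disjoint_filter_filter (disjoint_left.2 fun n h h' => ?_)
    have := mem_Ioc.1 h
    have := mem_Ioc.1 h'
    omega
  rw [Nat.Ioc_filter_dvd_card_eq_div, Nat.Ioc_filter_dvd_card_eq_div] at h1
  have h2 : ((a / d : ℕ) : ℝ) + ((Ioc a b).filter fun n => d ∣ n).card = ((b / d : ℕ) : ℝ) := by
    exact_mod_cast h1
  have h3 : ((b / d : ℕ) : ℝ) ≤ (b : ℝ) / d := Nat.cast_div_le
  have h4 : (a : ℝ) / d ≤ ((a / d : ℕ) : ℝ) + 1 := by
    rw [div_le_iff₀ (Nat.cast_pos.2 hd)]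
    have : a ≤ (a / d + 1) * d := by
      have := Nat.lt_div_mul_add (a := a) hd
      nlinarith
    exact_mod_cast this
  rw [sub_div]
  linarith

theorem sq_count {a b : ℕ} (hz : 2 ≤ z) (hzY : z ≤ Y) (hab : a ≤ b) :
    ∑ n ∈ Ioc a b, (if ∃ t ∈ pp z Y, t ^ 2 ∣ n then (1 : ℝ) else 0) ≤ ((b : ℝ) - a) / z + Y := by
  have hba : (0 : ℝ) ≤ (b : ℝ) - a := sub_nonneg.2 (Nat.cast_le.2 hab)
  calc _ ≤ ∑ n ∈ Ioc a b, ∑ t ∈ Ioc z Y, (if t ^ 2 ∣ n then (1 : ℝ) else 0) := by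
        refine sum_le_sum fun n _ => ?_
        split_ifs with h
        · obtain ⟨t, ht, hd⟩ := h
          refine le_trans ?_ (single_le_sum (f := fun t => if t ^ 2 ∣ n then (1 : ℝ) else 0)
            (fun t _ => by positivity) (mem_filter.1 ht).1)
          rw [if_pos hd]
        · positivity
    _ ≤ ∑ t ∈ Ioc z Y, (((b : ℝ) - a) * ((t : ℝ) ^ 2)⁻¹ + 1) := by
        rw [sum_comm]
        refine sum_le_sum fun t ht => ?_
        have ht0 : 0 < t := by
          have := mem_Ioc.1 ht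
          omega
        rw [sum_boole]
        have := card_dvd_le hab (pow_pos ht0 2)
        rw [Nat.cast_pow, div_eq_mul_inv] at this
        exact this
    _ ≤ _ := by
        rw [sum_add_distrib, ← mul_sum, sum_const, Nat.card_Ioc, nsmul_eq_mul, mul_one,
          div_eq_mul_inv]
        have h1 : ∑ t ∈ Ioc z Y, ((t : ℝ) ^ 2)⁻¹ ≤ (z : ℝ)⁻¹ :=
          (sum_Ioc_inv_sq_le_sub (by omega) hzY).trans (sub_le_self _ (by positivity))
        have h2 : ((Y - z : ℕ) : ℝ) ≤ Y := Nat.cast_le.2 (Nat.sub_le _ _)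
        have h3 := mul_le_mul_of_nonneg_left h1 hba
        linarith

/-- The two pointwise inequalities. -/
theorem point {U a n : ℕ} {B : Finset ℕ} (hz : 2 ≤ z) (hzY : z ≤ Y) (hYa : Y ≤ a) (han : a < n)
    (hY : n ≤ Y ^ 2) (hN : n ≤ N) (hU : n ≤ z ^ U) (hw : ∀ q, 0 ≤ w q ∧ w q ≤ 1)
    (hB : ∀ q ∈ pp z Y, q ∉ B → w q = 1 ∧ q * Y ≤ a) :
    (if Ro z n then (1 : ℝ) else 0) - (if Ro z n then ((pf z Y n).card : ℝ) else 0) +
        gn z Y N w n - ((U : ℝ) ^ 2 + 1) * (if ∃ t ∈ pp z Y, t ^ 2 ∣ n then (1 : ℝ) else 0) ≤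
      (if n.Prime then (1 : ℝ) else 0) ∧
    (if n.Prime then (1 : ℝ) else 0) ≤
      (if Ro z n then (1 : ℝ) else 0) - (if Ro z n then ((pf z Y n).card : ℝ) else 0) +
        gn z Y N w n + (if Ro z n then ((B.filter fun p => p ∣ n).card : ℝ) else 0) +
        U * (if ∃ t ∈ pp z Y, t ^ 2 ∣ n then (1 : ℝ) else 0) := by
  have h0 : n ≠ 0 := by omega
  have hU0 : (0 : ℝ) ≤ U := Nat.cast_nonneg _
  have hs0 : (0 : ℝ) ≤ if ∃ t ∈ pp z Y, t ^ 2 ∣ n then (1 : ℝ) else 0 := by positivity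
  have hB0 : (0 : ℝ) ≤ (B.filter fun p => p ∣ n).card := Nat.cast_nonneg _
  have e1 := mul_nonneg (by positivity : (0 : ℝ) ≤ (U : ℝ) ^ 2 + 1) hs0
  have e2 := mul_nonneg hU0 hs0
  by_cases hro : Ro z n
  · simp only [if_pos hro]
    by_cases hp : n.Prime
    · have he : pf z Y n = ∅ := by
        refine eq_empty_of_forall_notMem fun t ht => ?_
        obtain ⟨ht1, ht2⟩ := mem_pf.1 ht
        have := (Nat.prime_dvd_prime_iff_eq (mem_pp.1 ht1).1 hp).1 ht2
        have := (mem_pp.1 ht1).2.2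
        omega
      rw [gn_eq, he, if_pos hp, sum_empty, card_empty, Nat.cast_zero]
      constructor <;> linarith
    · rw [if_neg hp]
      have hg := gn_nonneg (z := z) (Y := Y) (N := N) hw n
      by_cases hs : ∃ t ∈ pp z Y, t ^ 2 ∣ n
      · rw [if_pos hs]
        have hc : ((pf z Y n).card : ℝ) ≤ U := Nat.cast_le.2 (card_pf_le hz h0 hU)
        have hc0 : (0 : ℝ) ≤ (pf z Y n).card := Nat.cast_nonneg _
        have h1 := (gn_le_sq (N := N) hw h0).trans (pow_le_pow_left₀ hc0 hc 2)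
        constructor <;> linarith
      · rw [if_neg hs]
        have hs' : ∀ t ∈ pp z Y, ¬ t ^ 2 ∣ n := fun t ht hd => hs ⟨t, ht, hd⟩
        have hne : (pf z Y n).Nonempty := by
          have h1 : n ≠ 1 := by omega
          have h2 := Nat.minFac_prime h1
          have h3 := (Nat.minFac_sq_le_self (Nat.pos_of_ne_zero h0) hp).trans hY
          refine ⟨n.minFac, mem_pf.2 ⟨mem_pp.2 ⟨h2, ?_, ?_⟩, Nat.minFac_dvd n⟩⟩
          · by_contra hc
            exact ro_iff.1 hro _ h2 (not_lt.1 hc) (Nat.minFac_dvd n)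
          · exact (Nat.pow_le_pow_iff_left (by norm_num)).1 h3
        have h1 := gn_le (N := N) hw h0 hs' hne
        have h2 := le_gn (B := B) hw h0 hN hro hs' hne fun q hq hb =>
          ⟨(hB q hq hb).1, (hB q hq hb).2.trans_lt han⟩
        constructor <;> linarith
  · have hp : ¬ n.Prime := fun hp => hro (ro_prime hp (by omega))
    simp only [if_neg hro, if_neg hp]
    rw [gn_not_ro hro]
    constructor <;> linarith

end IdAux

open IdAux

theorem pId : StId := by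
  intro z Y N U a b w B hz hzY hYa hab hY hN hU hw _ hB
  have hp := fun n (hn : n ∈ Ioc a b) => point (N := N) (B := B) hz hzY hYa (mem_Ioc.1 hn).1
    ((mem_Ioc.1 hn).2.trans hY) ((mem_Ioc.1 hn).2.trans hN) ((mem_Ioc.1 hn).2.trans hU) hw hB
  have h1 := sum_le_sum fun n hn => (hp n hn).1
  have h2 := sum_le_sum fun n hn => (hp n hn).2
  simp only [sum_add_distrib, sum_sub_distrib, ← mul_sum] at h1 h2
  have e1 : ((ro z a b).card : ℝ) = ∑ n ∈ Ioc a b, if Ro z n then (1 : ℝ) else 0 := by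
    rw [sum_boole, ro]
  have e2 : ((pp a b).card : ℝ) = ∑ n ∈ Ioc a b, if n.Prime then (1 : ℝ) else 0 := by
    rw [sum_boole, pp]
  have hs := sq_count hz hzY hab
  have h3 := mul_le_mul_of_nonneg_left hs (by positivity : (0 : ℝ) ≤ (U : ℝ) ^ 2 + 1)
  have h4 := mul_le_mul_of_nonneg_left hs (Nat.cast_nonneg (α := ℝ) U)
  rw [e1, e2, gam_eq, bet_eq, bet_eq]
  unfold pf at h1 h2
  constructor <;> linarith

end Pool.Agent.P.MP_baf437_nt.SP
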