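import Pool.Agent.P.MP_baf437_nt.SP.Defs

/-! Mean square of a Dirichlet polynomial supported on sifted integers. -/

open Finset MeasureTheory

namespace Pool.Agent.P.MP_baf437_nt.SP

open Pool.Agent.P.MP_a14ce1_nt.Ch (ex nit cw rs)

namespace MSAux

open Pool.Agent.P.MP_a14ce1_nt.Ch (integrable_cw continuous_ex norm_ex conj_ex ex_add)

theorem int_le (hC : Pool.Agent.P.MP_a14ce1_nt.Ch.S_Cauchy) {T : ℝ} (hT : 0 < T) (F : Finset ℕ)
    (b : ℕ → ℝ) : ∫ t, cw T t * ‖dp F b t‖ ^ 2 ≤ Real.pi * T *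
      ∑ m ∈ F, ∑ n ∈ F, |b m| * |b n| * Real.exp (-(T * |Real.log m - Real.log n|)) := by
  have hint : ∀ θ : ℝ, Integrable fun t : ℝ => (cw T t : ℂ) * ex (-(t * θ)) := fun θ =>
    (integrable_cw hT).ofReal.mul_bdd (c := 1)
      (continuous_ex.comp (by fun_prop)).aestronglyMeasurable
      (Filter.Eventually.of_forall fun t => (norm_ex _).le)
  have h1 : ∀ t : ℝ, ((cw T t * ‖dp F b t‖ ^ 2 : ℝ) : ℂ) =
      ∑ m ∈ F, ∑ n ∈ F, (b m : ℂ) * (starRingEnd ℂ) (b n : ℂ) *
        ((cw T t : ℂ) * ex (-(t * (Real.log m - Real.log n)))) := fun t => by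
    rw [Complex.ofReal_mul, Complex.ofReal_pow, ← Complex.mul_conj', dp, map_sum, sum_mul_sum,
      mul_sum]
    refine sum_congr rfl fun m _ => ?_
    rw [mul_sum]
    refine sum_congr rfl fun n _ => ?_
    rw [map_mul, nit, nit, conj_ex, show -(t * (Real.log m - Real.log n)) =
      -(t * Real.log m) + - -(t * Real.log n) by ring, ex_add]
    ring
  have h2 : ((∫ t : ℝ, cw T t * ‖dp F b t‖ ^ 2 : ℝ) : ℂ) =
      ∑ m ∈ F, ∑ n ∈ F, (b m : ℂ) * (starRingEnd ℂ) (b n : ℂ) *
        ((Real.pi * T * Real.exp (-(T * |Real.log m - Real.log n|)) : ℝ) : ℂ) := by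
    rw [← integral_complex_ofReal]
    simp only [h1]
    rw [integral_finsetSum _ fun m _ =>
      integrable_finsetSum _ fun n _ => (hint _).const_mul _]
    refine sum_congr rfl fun m _ => ?_
    rw [integral_finsetSum _ fun n _ => (hint _).const_mul _]
    refine sum_congr rfl fun n _ => ?_
    rw [integral_const_mul, hC T _ hT]
  calc ∫ t : ℝ, cw T t * ‖dp F b t‖ ^ 2
      ≤ ‖((∫ t : ℝ, cw T t * ‖dp F b t‖ ^ 2 : ℝ) : ℂ)‖ := by
        rw [Complex.norm_real]
        exact le_abs_self _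
    _ ≤ ∑ m ∈ F, ∑ n ∈ F, Real.pi * T * (|b m| * |b n| *
          Real.exp (-(T * |Real.log m - Real.log n|))) := by
        rw [h2]
        refine (norm_sum_le _ _).trans (sum_le_sum fun m _ => ?_)
        refine (norm_sum_le _ _).trans (sum_le_sum fun n _ => le_of_eq ?_)
        rw [norm_mul, norm_mul, Complex.norm_conj, Complex.norm_real, Complex.norm_real,
          Complex.norm_real, Real.norm_eq_abs, Real.norm_eq_abs,
          Real.norm_of_nonneg (by positivity)]
        ring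
    _ = _ := by simp only [← mul_sum]

theorem tele (K : ℕ) : ∑ j ∈ range K, 1 / (((j : ℝ) + 1) * (j + 2)) = 1 - 1 / ((K : ℝ) + 1) := by
  induction K with
  | zero => simp
  | succ K ih =>
    rw [sum_range_succ, ih]
    push_cast
    field_simp
    ring

theorem decay {T : ℝ} (hT : 2 ≤ T) {m n h : ℕ} (hm : 0 < m) (hmn : m ≤ n) (hh : (m : ℝ) / T ≤ h) :
    Real.exp (-(T * |Real.log m - Real.log n|)) ≤
      4 * (1 / (((((n - m) / h : ℕ) : ℝ) + 1) * (((n - m) / h : ℕ) + 2))) := by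
  set j : ℕ := (n - m) / h with hj
  have hT0 : 0 < T := by linarith
  have hm0 : (0 : ℝ) < m := by exact_mod_cast hm
  have hj0 : (0 : ℝ) ≤ j := Nat.cast_nonneg j
  have h1 : m + j * h ≤ n := by
    have : j * h ≤ n - m := Nat.div_mul_le_self (n - m) h
    omega
  have h2 : (m : ℝ) + j * h ≤ n := by exact_mod_cast h1
  have h3 : (m : ℝ) * (1 + j / T) ≤ n := by
    have := mul_le_mul_of_nonneg_left hh hj0
    calc (m : ℝ) * (1 + j / T) = m + j * (m / T) := by ring
      _ ≤ _ := by linarith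
  have hs : (0 : ℝ) ≤ j / T := by positivity
  have h4 : Real.log (1 + j / T) ≤ |Real.log m - Real.log n| := by
    have := Real.log_le_log (by positivity) h3
    rw [Real.log_mul hm0.ne' (by positivity)] at this
    rw [abs_sub_comm]
    exact le_trans (by linarith) (le_abs_self _)
  have h5 : 1 + (j : ℝ) / 2 ≤ (1 + j / T) ^ (T / 2) := by
    have := one_add_mul_self_le_rpow_one_add (s := j / T) (by linarith) (p := T / 2) (by linarith)
    rwa [show T / 2 * (j / T) = j / 2 by field_simp] at this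
  have h6 : 1 + (j : ℝ) / 2 ≤ Real.exp (T * |Real.log m - Real.log n| / 2) := by
    refine h5.trans ?_
    rw [Real.rpow_def_of_pos (by positivity)]
    refine Real.exp_le_exp.2 ?_
    nlinarith
  have h7 : (1 + (j : ℝ) / 2) ^ 2 ≤ Real.exp (T * |Real.log m - Real.log n|) := by
    refine (pow_le_pow_left₀ (by positivity) h6 2).trans_eq ?_
    rw [← Real.exp_nat_mul]
    congr 1
    push_cast
    ring
  rw [Real.exp_neg, mul_one_div, inv_eq_one_div, div_le_div_iff₀ (Real.exp_pos _) (by positivity)]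
  nlinarith

theorem row {C T : ℝ} {z : ℕ} (hC : 0 < C) (hz : 2 ≤ z) (hT : 2 ≤ T)
    (hU : ∀ a b : ℕ, a + z ^ 9 ≤ b → ((ro z a b).card : ℝ) ≤ C * ((b : ℝ) - a) / Real.log z)
    {m : ℕ} (hm : (z : ℝ) ^ 9 * T ≤ m) (F : Finset ℕ) (hF : ∀ n ∈ F, Ro z n) :
    ∑ n ∈ F with m ≤ n, Real.exp (-(T * |Real.log m - Real.log n|)) ≤
      8 * C * m / (T * Real.log z) := by
  have hT0 : 0 < T := by linarith
  have hz1 : (1 : ℝ) < z := by exact_mod_cast hz
  have hl : 0 < Real.log z := Real.log_pos hz1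
  have hz9 : (1 : ℝ) ≤ (z : ℝ) ^ 9 := one_le_pow₀ hz1.le
  have h1 : (z : ℝ) ^ 9 ≤ m / T := (le_div_iff₀ hT0).2 hm
  have hm0 : 0 < m := by
    have : (0 : ℝ) < m := lt_of_lt_of_le (by positivity) hm
    exact_mod_cast this
  set h : ℕ := ⌈(m : ℝ) / T⌉₊ with hh
  have h2 : (m : ℝ) / T ≤ h := Nat.le_ceil _
  have h3 : (h : ℝ) ≤ 2 * (m / T) := by
    have := Nat.ceil_lt_add_one (a := (m : ℝ) / T) (by positivity)
    linarith
  have h4 : z ^ 9 ≤ h := by exact_mod_cast h1.trans h2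
  have h0 : 0 < h := lt_of_lt_of_le (by positivity) h4
  set G := F.filter fun n => m ≤ n with hG
  set K := F.sup id + 1 with hK
  have hmap : ∀ n ∈ G, (n - m) / h ∈ range K := fun n hn => by
    have h5 : n ≤ F.sup id := le_sup (f := id) (mem_filter.1 hn).1
    have := Nat.div_le_self (n - m) h
    rw [mem_range]
    omega
  have hfib : ∀ j : ℕ, ((G.filter fun n => (n - m) / h = j).card : ℝ) ≤ C * h / Real.log z :=
    fun j => by
      have h5 := hU (m - 1 + j * h) (m - 1 + j * h + h) (by omega)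
      rw [Nat.cast_add (m - 1 + j * h) h, add_sub_cancel_left] at h5
      refine le_trans ?_ h5
      refine Nat.cast_le.2 (card_le_card fun n hn => ?_)
      obtain ⟨hn1, hn2⟩ := mem_filter.1 hn
      obtain ⟨hn3, hn4⟩ := mem_filter.1 hn1
      have h6 := Nat.div_mul_le_self (n - m) h
      have h7 := Nat.lt_div_mul_add (a := n - m) h0
      rw [hn2] at h6 h7
      exact mem_ro.2 ⟨hF n hn3, by omega, by omega⟩
  calc ∑ n ∈ G, Real.exp (-(T * |Real.log m - Real.log n|))
      ≤ ∑ n ∈ G, 4 * (1 / (((((n - m) / h : ℕ) : ℝ) + 1) * (((n - m) / h : ℕ) + 2))) :=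
        sum_le_sum fun n hn => decay hT hm0 (mem_filter.1 hn).2 h2
    _ = ∑ j ∈ range K, ((G.filter fun n => (n - m) / h = j).card : ℝ) *
          (4 * (1 / (((j : ℝ) + 1) * (j + 2)))) := by
        rw [← sum_fiberwise_of_maps_to hmap]
        refine sum_congr rfl fun j _ => ?_
        rw [← nsmul_eq_mul, ← sum_const]
        exact sum_congr rfl fun n hn => by rw [(mem_filter.1 hn).2]
    _ ≤ ∑ j ∈ range K, C * h / Real.log z * (4 * (1 / (((j : ℝ) + 1) * (j + 2)))) :=
        sum_le_sum fun j _ => mul_le_mul_of_nonneg_right (hfib j) (by positivity)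
    _ = C * h / Real.log z * (4 * (1 - 1 / ((K : ℝ) + 1))) := by
        rw [← mul_sum, ← mul_sum, tele]
    _ ≤ C * (2 * (m / T)) / Real.log z * (4 * 1) := by
        have : (0 : ℝ) < 1 / ((K : ℝ) + 1) := by positivity
        have h5 : 1 / ((K : ℝ) + 1) ≤ 1 := by
          rw [div_le_one (by positivity)]
          linarith [Nat.cast_nonneg (α := ℝ) K]
        gcongr
        linarith
    _ = _ := by
        field_simp
        ring

theorem sym (F : Finset ℕ) (hF : 0 ∉ F) (e : ℕ → ℕ → ℝ) (h0 : ∀ m n, 0 ≤ e m n)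
    (hs : ∀ m n, e m n = e n m) :
    ∑ m ∈ F, ∑ n ∈ F, 1 / (m : ℝ) * (1 / (n : ℝ)) * e m n ≤
      2 * ∑ m ∈ F, 1 / (m : ℝ) ^ 2 * ∑ n ∈ F with m ≤ n, e m n := by
  set g : ℕ → ℕ → ℝ := fun m n => if m ≤ n then 1 / (m : ℝ) ^ 2 * e m n else 0 with hg
  have hg0 : ∀ m n, 0 ≤ g m n := fun m n => by
    simp only [hg]
    split_ifs
    · exact mul_nonneg (by positivity) (h0 m n)
    · exact le_rfl
  have h1 : ∀ m ∈ F, ∀ n ∈ F, m ≤ n → 1 / (m : ℝ) * (1 / (n : ℝ)) * e m n ≤ g m n :=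
    fun m hm n _ hmn => by
      have hm0 : (0 : ℝ) < m := by
        exact_mod_cast Nat.pos_of_ne_zero fun h => hF (h ▸ hm)
      have hmn' : (m : ℝ) ≤ n := by exact_mod_cast hmn
      simp only [hg, if_pos hmn]
      refine mul_le_mul_of_nonneg_right ?_ (h0 m n)
      rw [sq, ← one_div_mul_one_div]
      gcongr
  have h2 : ∑ m ∈ F, 1 / (m : ℝ) ^ 2 * ∑ n ∈ F with m ≤ n, e m n = ∑ m ∈ F, ∑ n ∈ F, g m n :=
    sum_congr rfl fun m _ => by rw [mul_sum, sum_filter]
  rw [h2, two_mul]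
  nth_rewrite 2 [sum_comm]
  rw [← sum_add_distrib]
  refine sum_le_sum fun m hm => ?_
  rw [← sum_add_distrib]
  refine sum_le_sum fun n hn => ?_
  rcases le_total m n with h | h
  · linarith [h1 m hm n hn h, hg0 n m]
  · have := h1 n hn m hm h
    rw [hs n m, mul_comm (1 / (n : ℝ))] at this
    linarith [hg0 m n]

end MSAux

open MSAux

theorem pMS (hC : Pool.Agent.P.MP_a14ce1_nt.Ch.S_Cauchy) (hUp : StUp) : StMS := by
  obtain ⟨C, hC0, hU1, hU2, -⟩ := hUp
  refine ⟨16 * Real.pi * C ^ 2, by positivity, fun T z a N F b hT hz ha hF hb => ?_⟩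
  have hT0 : 0 < T := by linarith
  have hz1 : (1 : ℝ) < z := by exact_mod_cast hz
  have hl : 0 < Real.log z := Real.log_pos hz1
  have ha9 : z ^ 9 ≤ a := by
    have : (z : ℝ) ^ 9 ≤ a := le_trans (le_mul_of_one_le_right (by positivity) (by linarith)) ha
    exact_mod_cast this
  have hF0 : 0 ∉ F := fun h => by
    have := (mem_ro.1 (hF h)).2.1
    omega
  have h1 : ∑ m ∈ F, ∑ n ∈ F, |b m| * |b n| * Real.exp (-(T * |Real.log m - Real.log n|)) ≤
      2 * ∑ m ∈ F, 1 / (m : ℝ) ^ 2 *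
        ∑ n ∈ F with m ≤ n, Real.exp (-(T * |Real.log m - Real.log n|)) := by
    refine le_trans (sum_le_sum fun m hm => sum_le_sum fun n hn => ?_)
      (sym F hF0 _ (fun _ _ => (Real.exp_pos _).le) fun m n => by rw [abs_sub_comm])
    exact mul_le_mul_of_nonneg_right (mul_le_mul (hb m hm) (hb n hn) (abs_nonneg _)
      (by positivity)) (Real.exp_pos _).le
  have h2 : ∑ m ∈ F, 1 / (m : ℝ) ^ 2 *
      ∑ n ∈ F with m ≤ n, Real.exp (-(T * |Real.log m - Real.log n|)) ≤
      8 * C / (T * Real.log z) * rs F := by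
    rw [rs, mul_sum]
    refine sum_le_sum fun m hm => ?_
    have hm1 : (a : ℝ) ≤ m := by exact_mod_cast (mem_ro.1 (hF hm)).2.1.le
    have hm0 : (0 : ℝ) < m := by
      exact_mod_cast Nat.pos_of_ne_zero fun h => hF0 (h ▸ hm)
    refine (mul_le_mul_of_nonneg_left (row hC0 hz hT (fun a b => hU1 z a b hz) (ha.trans hm1) F
      fun n hn => (mem_ro.1 (hF hn)).1) (by positivity)).trans_eq ?_
    field_simp
  have h3 : rs F ≤ C * Real.log N / Real.log z :=
    le_trans (sum_le_sum_of_subset_of_nonneg hF fun _ _ _ => by positivity) (hU2 z a N hz ha9)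
  refine (int_le hC hT0 F b).trans ?_
  calc _ ≤ Real.pi * T * (2 * (8 * C / (T * Real.log z) * (C * Real.log N / Real.log z))) := by
        refine mul_le_mul_of_nonneg_left (h1.trans ?_) (by positivity)
        refine mul_le_mul_of_nonneg_left (h2.trans ?_) (by norm_num)
        exact mul_le_mul_of_nonneg_left h3 (by positivity)
    _ = _ := by
        field_simp
        ring

end Pool.Agent.P.MP_baf437_nt.SP
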