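import Pool.Agent.P.MP_baf437_nt.SP.Defs

/-! Primes in intervals of relative length about the inverse logarithm. -/

open Finset Filter

namespace Pool.Agent.P.MP_baf437_nt.SP

namespace PNAux

theorem psi_nat (n : ℕ) :
    Chebyshev.psi n = ∑ m ∈ Icc 1 n, ArithmeticFunction.vonMangoldt m := by
  simp [Chebyshev.psi, ← Icc_add_one_left_eq_Ioc]

theorem theta_diff {a b : ℕ} (hab : a ≤ b) :
    Chebyshev.theta b = Chebyshev.theta a + ∑ p ∈ pp a b, Real.log p := by
  simp only [Chebyshev.theta, Nat.floor_natCast, pp, sum_filter]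
  exact (sum_Ioc_consecutive _ (Nat.zero_le a) hab).symm

theorem large (C : ℝ) : ∃ x0 : ℕ, ∀ x : ℕ, x0 ≤ x → 2 ≤ x ∧ 2 ≤ Real.log x ∧
    128 * C ≤ Real.log x ∧ 192 * Real.log x ^ 2 ≤ √(x : ℝ) := by
  have hl : Tendsto (fun x : ℕ => Real.log (x : ℝ)) atTop atTop :=
    Real.tendsto_log_atTop.comp tendsto_natCast_atTop_atTop
  have h4 := ((Real.isLittleO_pow_log_id_atTop (n := 4)).comp_tendsto
    (tendsto_natCast_atTop_atTop (R := ℝ))).def (c := 1 / 192 ^ 2) (by norm_num)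
  obtain ⟨x0, hx0⟩ := eventually_atTop.1 ((eventually_ge_atTop 2).and
    ((hl.eventually_ge_atTop 2).and ((hl.eventually_ge_atTop (128 * C)).and h4)))
  refine ⟨x0, fun x hx => ?_⟩
  obtain ⟨h1, h2, h3, h5⟩ := hx0 x hx
  refine ⟨h1, h2, h3, Real.le_sqrt_of_sq_le ?_⟩
  simp only [Function.comp, id, Real.norm_eq_abs] at h5
  rw [abs_of_nonneg (by positivity), abs_of_nonneg (by positivity)] at h5
  nlinarith

end PNAux

open PNAux

theorem pPN (h : Pool.Agent.P.MP_0ad054_nt.An.S_PNT) : StPN := by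
  obtain ⟨C, hC, hP⟩ := h 3
  obtain ⟨x0, hx0⟩ := large C
  refine ⟨x0, fun x a b hx hxa hb hD => ?_⟩
  obtain ⟨h2, hL2, hLC, hsq⟩ := hx0 x hx
  set L := Real.log x with hL
  have hL0 : 0 < L := by linarith
  have hxR : (2 : ℝ) ≤ x := by exact_mod_cast h2
  have hxaR : (x : ℝ) ≤ a := by exact_mod_cast hxa
  have hbR : (b : ℝ) ≤ 2 * x := by exact_mod_cast hb
  have hD0 : (0 : ℝ) < (b : ℝ) - a := by
    by_contra hn
    have : 4 * L * ((b : ℝ) - a) ≤ 0 :=
      mul_nonpos_of_nonneg_of_nonpos (by positivity) (not_lt.1 hn)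
    linarith
  have habR : (a : ℝ) ≤ b := by linarith
  have hab : a ≤ b := by exact_mod_cast habR
  have hlog2 : Real.log 2 ≤ 1 := by
    have := Real.log_le_sub_one_of_pos (show (0 : ℝ) < 2 by norm_num)
    linarith
  have hup : ∀ y : ℝ, 0 < y → y ≤ 2 * x → Real.log y ≤ 3 / 2 * L := fun y hy hy2 => by
    have h1 := Real.log_le_log hy hy2
    rw [Real.log_mul (by norm_num) (by linarith)] at h1
    linarith
  have herr : ∀ y : ℕ, x ≤ y → y ≤ 2 * x →
      |Chebyshev.psi y - y| ≤ ((b : ℝ) - a) / 16 := fun y hy hy2 => by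
    have hyR : (x : ℝ) ≤ y := by exact_mod_cast hy
    have hy2R : (y : ℝ) ≤ 2 * x := by exact_mod_cast hy2
    rw [psi_nat]
    refine (hP y (h2.trans hy)).trans ?_
    have hly : L ≤ Real.log y := Real.log_le_log (by linarith) hyR
    have h3 : L ^ 3 ≤ Real.log y ^ 3 := pow_le_pow_left₀ hL0.le hly 3
    rw [div_le_iff₀ (lt_of_lt_of_le (pow_pos hL0 3) h3)]
    have h4 : C * y ≤ ((b : ℝ) - a) / 16 * L ^ 3 := by
      have e1 : C * y ≤ C * (2 * (4 * L * ((b : ℝ) - a))) :=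
        mul_le_mul_of_nonneg_left (by linarith) hC.le
      have e2 : 128 * C ≤ L ^ 2 := by nlinarith
      have e3 : 0 ≤ L * ((b : ℝ) - a) := by positivity
      nlinarith [mul_le_mul_of_nonneg_right e2 e3]
    exact h4.trans (mul_le_mul_of_nonneg_left h3 (by positivity))
  have hb1 := abs_le.1 (herr b (hxa.trans hab) hb)
  have ha1 := abs_le.1 (herr a hxa (hab.trans hb))
  have hth := abs_le.1 (Chebyshev.abs_psi_sub_theta_le_sqrt_mul_log
    (x := (b : ℝ)) (by linarith))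
  have hsb : √(b : ℝ) ≤ 2 * √(x : ℝ) := by
    refine Real.sqrt_le_iff.2 ⟨by positivity, ?_⟩
    rw [mul_pow, Real.sq_sqrt (by linarith)]
    linarith
  have hlb := hup b (by linarith) hbR
  have hlb0 : 0 ≤ Real.log (b : ℝ) := Real.log_natCast_nonneg b
  have hs0 : 0 ≤ √(x : ℝ) := Real.sqrt_nonneg _
  have hss : √(x : ℝ) * √(x : ℝ) = x := Real.mul_self_sqrt (by linarith)
  have hsm : 2 * √(b : ℝ) * Real.log b ≤ ((b : ℝ) - a) / 8 := by
    have e1 : √(b : ℝ) * Real.log b ≤ 2 * √(x : ℝ) * (3 / 2 * L) :=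
      mul_le_mul hsb hlb hlb0 (by positivity)
    have e2 : 192 * L ^ 2 * √(x : ℝ) ≤ x := by
      nlinarith [mul_le_mul_of_nonneg_right hsq hs0]
    have e3 : L * (48 * L * √(x : ℝ)) ≤ L * ((b : ℝ) - a) := by nlinarith
    have e4 := le_of_mul_le_mul_left e3 hL0
    nlinarith
  have hsum : ∑ p ∈ pp a b, Real.log p ≤ (pp a b).card * (3 / 2 * L) := by
    have := sum_le_card_nsmul (pp a b) (fun p => Real.log (p : ℝ)) (3 / 2 * L) fun p hp => by
      obtain ⟨hp1, -, hp3⟩ := mem_pp.1 hp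
      have : (p : ℝ) ≤ b := by exact_mod_cast hp3
      exact hup p (by exact_mod_cast hp1.pos) (by linarith)
    rwa [nsmul_eq_mul] at this
  have hta := Chebyshev.theta_le_psi (a : ℝ)
  have htd := theta_diff hab
  rw [div_le_iff₀ (by positivity)]
  linarith [hb1.1, ha1.2, hth.2]

end Pool.Agent.P.MP_baf437_nt.SP
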