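import Pool.Agent.P.MP_baf437_nt.SP.Defs

/-! Exceptional products need `m` large compared with `k`. -/

open Finset

namespace Pool.Agent.P.MP_baf437_nt.SP

namespace R3Aux

theorem core (hGap : StGap) (k m n τ W R : ℕ) (u δ ψ : ℝ) (G : Finset ℕ) (hτ : τ = 1 ∨ τ = 2)
    (hk : 0 < k) (hWk : W ≤ k) (hG : G ⊆ Ioc k (k + W))
    (hq : ∀ x ∈ G, ∃ q : ℤ, |(m : ℝ) / (x : ℝ) ^ τ - q| ≤ δ) (hm : 0 < m) (hn : 0 < n)
    (hR : 0 < R) (hψ : 0 < ψ) (hψu : ψ * u ≤ 1) (hδ : δ * u ≤ 2 * ψ)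
    (hM : 4 ^ (n + 2) * ((n : ℝ) + 1) * (R : ℝ) ^ (n * (n + 1)) ≤ u)
    (h1 : (m : ℝ) ≤ ψ * (k : ℝ) ^ (n + τ)) (h2 : ψ * (k : ℝ) ^ τ * u ^ (2 * n + 1) ≤ m)
    (hW : (k : ℝ) ≤ W * u ^ 2) : G.card * R ≤ 2 * n * W := by
  have hm1 : (1 : ℝ) ≤ m := by exact_mod_cast hm
  have hR1 : (1 : ℝ) ≤ R := by exact_mod_cast hR
  have hn0 : (0 : ℝ) ≤ n := Nat.cast_nonneg n
  have hk0 : (0 : ℝ) < k := by exact_mod_cast hk
  have hP1 : (1 : ℝ) ≤ (R : ℝ) ^ (n * (n + 1)) := one_le_pow₀ hR1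
  have h41 : (1 : ℝ) ≤ 4 ^ n := one_le_pow₀ (by norm_num)
  have h4 : (4 : ℝ) ^ (n + 2) = 16 * 4 ^ n := by ring
  have h4' : (4 : ℝ) ^ (n + 1) = 4 * 4 ^ n := by ring
  set P : ℝ := (R : ℝ) ^ (n * (n + 1)) with hP
  set F : ℝ := 4 ^ n with hF
  rw [h4] at hM
  have hA : 16 * (F * ((n : ℝ) + 1)) ≤ u := by
    have : 16 * F * ((n : ℝ) + 1) * 1 ≤ 16 * F * ((n : ℝ) + 1) * P := by gcongr
    linarith
  have hB : 16 * (((n : ℝ) + 1) * P) ≤ u := by
    have : 16 * 1 * ((n : ℝ) + 1) * P ≤ 16 * F * ((n : ℝ) + 1) * P := by gcongr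
    linarith
  have hFn : 1 ≤ F * ((n : ℝ) + 1) := one_le_mul_of_one_le_of_one_le h41 (by linarith)
  have hnP : P ≤ ((n : ℝ) + 1) * P := le_mul_of_one_le_left (by linarith) (by linarith)
  have hu : 16 ≤ u := by linarith
  have hex : ∃ a : ℕ, ψ * (k : ℝ) ^ (n + τ) < ((a : ℝ) + 1) ^ n * m := by
    obtain ⟨a, ha⟩ := exists_nat_gt (ψ * (k : ℝ) ^ (n + τ))
    refine ⟨a, ha.trans_le ?_⟩
    have ha0 : (0 : ℝ) ≤ a := Nat.cast_nonneg a
    have : (a : ℝ) + 1 ≤ ((a : ℝ) + 1) ^ n := le_self_pow₀ (by linarith) hn.ne'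
    nlinarith
  classical
  have hs := Nat.find_spec hex
  have ha0 : Nat.find hex ≠ 0 := fun h => by
    rw [h] at hs
    simp only [Nat.cast_zero, zero_add, one_pow, one_mul] at hs
    linarith
  obtain ⟨b, hb⟩ := Nat.exists_eq_succ_of_ne_zero ha0
  have hmin := Nat.find_min hex (show b < Nat.find hex by omega)
  rw [hb] at hs
  have hlow : ((b + 1 : ℕ) : ℝ) ^ n * m ≤ ψ * (k : ℝ) ^ (n + τ) := by
    push_cast
    exact not_lt.1 hmin
  have hb0 : (0 : ℝ) ≤ b := Nat.cast_nonneg b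
  have hup : ψ * (k : ℝ) ^ (n + τ) ≤ (2 * ((b + 1 : ℕ) : ℝ)) ^ n * m := by
    refine hs.le.trans ?_
    push_cast
    gcongr
    linarith
  have hRn : (R : ℝ) ^ n ≤ u := by
    have : (R : ℝ) ^ n ≤ P := pow_le_pow_right₀ hR1 (Nat.le_mul_of_pos_right n (by omega))
    linarith
  have haR : (b + 1) * R ≤ W := by
    have hpos : (0 : ℝ) < m * u ^ (2 * n) := by positivity
    have key : (((b + 1 : ℕ) : ℝ) * R) ^ n * (m * u ^ (2 * n)) ≤
        (W : ℝ) ^ n * (m * u ^ (2 * n)) := by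
      calc (((b + 1 : ℕ) : ℝ) * R) ^ n * (m * u ^ (2 * n))
          = (((b + 1 : ℕ) : ℝ) ^ n * m) * (R : ℝ) ^ n * u ^ (2 * n) := by rw [mul_pow]; ring
        _ ≤ (ψ * (k : ℝ) ^ (n + τ)) * u * u ^ (2 * n) := by gcongr
        _ = (k : ℝ) ^ n * (ψ * (k : ℝ) ^ τ * u ^ (2 * n + 1)) := by ring
        _ ≤ (W * u ^ 2) ^ n * m := by gcongr
        _ = (W : ℝ) ^ n * (m * u ^ (2 * n)) := by rw [mul_pow, ← pow_mul]; ring
    have h3 := le_of_mul_le_mul_right key hpos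
    have h5 := le_of_pow_le_pow_left₀ hn.ne' (Nat.cast_nonneg W) h3
    exact_mod_cast h5
  have hu0 : 0 < u := by linarith
  refine hGap k m n (b + 1) R τ W δ ψ G hτ hk hWk hG (Nat.succ_pos b) hR haR hq hlow hup ?_ ?_
  · rw [h4']
    refine lt_of_mul_lt_mul_right ?_ hu0.le
    calc 4 * F * ((n : ℝ) + 1) * δ * u = 4 * (F * ((n : ℝ) + 1)) * (δ * u) := by ring
      _ ≤ 4 * (F * ((n : ℝ) + 1)) * (2 * ψ) := by gcongr
      _ < ψ * u := by nlinarith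
  · rw [← hP]
    refine lt_of_mul_lt_mul_right ?_ hu0.le
    have hψ1 : ψ ≤ 1 := by nlinarith
    calc ((n : ℝ) + 1) * (ψ + δ) * P * u = (((n : ℝ) + 1) * P) * (ψ * u + δ * u) := by ring
      _ ≤ (((n : ℝ) + 1) * P) * 3 := by
          have : 0 ≤ ((n : ℝ) + 1) * P := by positivity
          gcongr
          linarith
      _ < 1 * u := by linarith

/-- The master inequality. -/
theorem master (n R : ℕ) (κ η : ℝ) (hn : 2 ≤ n) (hη : 0 < η) (hκ : 0 < κ)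
    (hl : 1 ≤ Real.log κ) (hR : (R : ℝ) ≤ κ ^ 3)
    (hC : 88 / η * (n : ℝ) ^ 2 * Real.log κ ≤ 4 * κ) :
    4 ^ (n + 2) * ((n : ℝ) + 1) * (R : ℝ) ^ (n * (n + 1)) ≤ Real.exp (η * κ / 2) := by
  have hn2 : (2 : ℝ) ≤ n := by exact_mod_cast hn
  have e4 : (4 : ℝ) ≤ Real.exp 2 := by
    have h := Real.add_one_le_exp (1 : ℝ)
    have : Real.exp 2 = Real.exp 1 * Real.exp 1 := by rw [← Real.exp_add]; norm_num
    nlinarith
  have e1 : (n : ℝ) + 1 ≤ Real.exp n := Real.add_one_le_exp _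
  have e3 : (R : ℝ) ≤ Real.exp (3 * Real.log κ) := by
    have : Real.exp (3 * Real.log κ) = κ ^ 3 := by
      rw [show (3 : ℝ) = ((3 : ℕ) : ℝ) by norm_num, Real.exp_nat_mul, Real.exp_log hκ]
    rwa [this]
  have h22 : 22 * ((n : ℝ) ^ 2 * Real.log κ) ≤ η * κ := by
    have h := mul_le_mul_of_nonneg_left hC hη.le
    have : η * (88 / η * (n : ℝ) ^ 2 * Real.log κ) = 88 * ((n : ℝ) ^ 2 * Real.log κ) := by
      field_simp
    linarith
  calc 4 ^ (n + 2) * ((n : ℝ) + 1) * (R : ℝ) ^ (n * (n + 1))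
      ≤ Real.exp 2 ^ (n + 2) * Real.exp n * Real.exp (3 * Real.log κ) ^ (n * (n + 1)) := by
        gcongr
    _ = Real.exp (((n + 2 : ℕ) : ℝ) * 2 + n + ((n * (n + 1) : ℕ) : ℝ) * (3 * Real.log κ)) := by
        rw [← Real.exp_nat_mul, ← Real.exp_nat_mul, ← Real.exp_add, ← Real.exp_add]
    _ ≤ Real.exp (η * κ / 2) := by
        refine Real.exp_le_exp.2 ?_
        push_cast
        have a1 : (n : ℝ) ^ 2 * 1 ≤ (n : ℝ) ^ 2 * Real.log κ := by gcongr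
        have a2 : (n : ℝ) * (n + 1) * Real.log κ ≤ 2 * (n : ℝ) ^ 2 * Real.log κ := by
          have : (n : ℝ) * (n + 1) ≤ 2 * (n : ℝ) ^ 2 := by nlinarith
          gcongr
        nlinarith

/-- One of the two types holds for at least half of the primes. -/
theorem split (hTy : StTy) (k m W : ℕ) (hE : Exc k m) :
    ∃ G : Finset ℕ, G ⊆ Ioc k (k + W) ∧ (pp k (k + W)).card ≤ 2 * G.card ∧
      ((∀ x ∈ G, ∃ e : ℕ, e + k < x ∧ (x : ℤ) ∣ (m : ℤ) - e) ∨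
        ∀ x ∈ G, ∃ e : ℕ, e < k ∧ ((x ^ 2 : ℕ) : ℤ) ∣ ((m + k : ℕ) : ℤ) - e) := by
  classical
  have hsplit := card_filter_add_card_filter_not (s := pp k (k + W))
    (fun p => ∃ e : ℕ, e + k < p ∧ (p : ℤ) ∣ (m : ℤ) - e)
  by_cases hmaj : (pp k (k + W)).card ≤
      2 * ((pp k (k + W)).filter fun p => ∃ e : ℕ, e + k < p ∧ (p : ℤ) ∣ (m : ℤ) - e).card
  · exact ⟨_, (filter_subset _ _).trans (filter_subset _ _), hmaj,
      Or.inl fun x hx => (mem_filter.1 hx).2⟩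
  · refine ⟨(pp k (k + W)).filter fun p => ¬ ∃ e : ℕ, e + k < p ∧ (p : ℤ) ∣ (m : ℤ) - e,
      (filter_subset _ _).trans (filter_subset _ _), by omega, Or.inr fun x hx => ?_⟩
    obtain ⟨hx, hne⟩ := mem_filter.1 hx
    obtain ⟨hx0, hx1, -⟩ := mem_pp.1 hx
    exact (hTy k m x hE hx0 hx1).resolve_left hne

theorem near1 (k m W x e : ℕ) (u : ℝ) (hk : 0 < k) (hu : 0 < u) (hW : W * u ^ 2 ≤ 2 * (k : ℝ))
    (hx : x ∈ Ioc k (k + W)) (he : e + k < x) (hd : (x : ℤ) ∣ (m : ℤ) - e) :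
    ∃ q : ℤ, |(m : ℝ) / (x : ℝ) ^ 1 - q| ≤ 2 / u ^ 2 := by
  obtain ⟨q, hq⟩ := hd
  obtain ⟨hx1, hx2⟩ := mem_Ioc.1 hx
  have b1 : (k : ℝ) ≤ x := by exact_mod_cast hx1.le
  have b2 : (e : ℝ) ≤ W := by exact_mod_cast (show e ≤ W by omega)
  have b3 : (m : ℝ) - e = x * q := by exact_mod_cast hq
  have hx0 : (0 : ℝ) < x := by exact_mod_cast (show 0 < x by omega)
  refine ⟨q, ?_⟩
  have b4 : (m : ℝ) / (x : ℝ) ^ 1 - q = e / x := by
    field_simp
    linarith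
  rw [b4, abs_of_nonneg (by positivity), div_le_div_iff₀ hx0 (by positivity)]
  have : (e : ℝ) * u ^ 2 ≤ W * u ^ 2 := by gcongr
  linarith

theorem near2 (k m x e : ℕ) (hk : 0 < k) (hx : k < x) (he : e < k)
    (hd : ((x ^ 2 : ℕ) : ℤ) ∣ ((m + k : ℕ) : ℤ) - e) :
    ∃ q : ℤ, |(m : ℝ) / (x : ℝ) ^ 2 - q| ≤ 1 / (k : ℝ) := by
  obtain ⟨q, hq⟩ := hd
  have hk0 : (0 : ℝ) < k := by exact_mod_cast hk
  have b1 : (k : ℝ) ≤ x := by exact_mod_cast hx.le
  have b2 : (e : ℝ) ≤ k := by exact_mod_cast he.le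
  have b3 : (m : ℝ) + k - e = (x : ℝ) ^ 2 * q := by exact_mod_cast hq
  have hx0 : (0 : ℝ) < x := by linarith
  have he0 : (0 : ℝ) ≤ e := Nat.cast_nonneg e
  refine ⟨q, ?_⟩
  have b4 : (m : ℝ) / (x : ℝ) ^ 2 - q = -((k - e) / (x : ℝ) ^ 2) := by
    field_simp
    linarith
  rw [b4, abs_neg, abs_of_nonneg (div_nonneg (by linarith) (by positivity)),
    div_le_div_iff₀ (by positivity) hk0]
  nlinarith

theorem sizeR (n R : ℕ) (κ c : ℝ) (hc : 0 < c) (hκ : 4 / c + 1 ≤ κ) (hnκ : (n : ℝ) ≤ κ)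
    (hRd : R = ⌊4 * n * κ / c⌋₊ + 1) : 4 * n * κ / c < R ∧ (R : ℝ) ≤ κ ^ 3 := by
  have hc4 : 0 < 4 / c := by positivity
  have hκ0 : 0 < κ := by linarith
  constructor
  · rw [hRd]
    push_cast
    exact Nat.lt_floor_add_one _
  · have a1 : (R : ℝ) ≤ 4 * n * κ / c + 1 := by
      rw [hRd]
      push_cast
      have := Nat.floor_le (show 0 ≤ 4 * n * κ / c by positivity)
      linarith
    have a2 : 4 * n * κ / c ≤ 4 / c * κ ^ 2 := by
      calc 4 * n * κ / c = 4 / c * (n * κ) := by ring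
        _ ≤ 4 / c * (κ * κ) := by gcongr
        _ = 4 / c * κ ^ 2 := by ring
    have a3 : 1 ≤ κ ^ 2 := one_le_pow₀ (by linarith)
    have a4 : (4 / c + 1) * κ ^ 2 ≤ κ * κ ^ 2 := by gcongr
    nlinarith

theorem sizeN (n κ L η : ℝ) (hη : 0 < η) (hη' : η ≤ 1 / 20) (hκ0 : 0 < κ) (hn2 : 2 ≤ n)
    (hl : 1 ≤ Real.log κ) (hln : (n - 1) * κ ≤ L)
    (hcon : 88 / η * L ^ 2 * Real.log κ < κ ^ 3) :
    88 / η * n ^ 2 * Real.log κ ≤ 4 * κ ∧ n ≤ κ := by
  have hC : 88 / η * n ^ 2 * Real.log κ ≤ 4 * κ := by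
    have a1 : n * κ ≤ 2 * L := by nlinarith
    have a2 : (n * κ) ^ 2 ≤ (2 * L) ^ 2 := by gcongr
    have a3 : 88 / η * (n * κ) ^ 2 * Real.log κ ≤ 88 / η * (2 * L) ^ 2 * Real.log κ := by
      gcongr
    refine le_of_mul_le_mul_right ?_ (show 0 < κ ^ 2 by positivity)
    nlinarith
  refine ⟨hC, ?_⟩
  have a1 : (4 : ℝ) ≤ 88 / η := by
    rw [le_div_iff₀ hη]
    linarith
  have a2 : 4 * n ^ 2 * 1 ≤ 88 / η * n ^ 2 * Real.log κ := by gcongr
  nlinarith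

theorem sizeU (κ η u : ℝ) (hη : 0 < η) (hκ0 : 0 < κ) (hκ : 8 / η ^ 2 ≤ κ)
    (hu : u = Real.exp (η * κ / 2)) : 2 * κ ≤ u ^ 2 := by
  have a1 : η * κ / 2 ≤ u := by
    have := Real.add_one_le_exp (η * κ / 2)
    linarith
  have a2 : (η * κ / 2) ^ 2 ≤ u ^ 2 := by gcongr
  have a3 : 8 ≤ κ * η ^ 2 := by rwa [← div_le_iff₀ (by positivity)]
  nlinarith

end R3Aux

open R3Aux in
theorem pR3 (hHO : StHO) (hTy : StTy) (hGap : StGap) (hSy : StSy) : StR3 := by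
  obtain ⟨η, c, hη, hη', hc, x0, hHO⟩ := hHO
  obtain ⟨k1, hSy⟩ := hSy
  obtain ⟨k2, hk2⟩ : ∃ k2 : ℕ, ∀ k : ℕ, k2 ≤ k →
      3 + (4 / c + 1) + 8 / η ^ 2 ≤ Real.log k := by
    have h := (Real.tendsto_log_atTop.comp tendsto_natCast_atTop_atTop).eventually_ge_atTop
      (3 + (4 / c + 1) + 8 / η ^ 2)
    exact Filter.eventually_atTop.1 h
  refine ⟨88 / η, x0 + k1 + k2 + 2, by positivity, fun k m hk hkm hE => ?_⟩
  by_contra hcon
  rw [not_le] at hcon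
  have hκ := hk2 k (by omega)
  have hc4 : 0 < 4 / c := by positivity
  have hη8 : 0 < 8 / η ^ 2 := by positivity
  have hk0 : (0 : ℝ) < k := by exact_mod_cast (show 0 < k by omega)
  have hm0 : (0 : ℝ) < m := by exact_mod_cast (show 0 < m by omega)
  have hke : Real.exp (Real.log k) = k := Real.exp_log hk0
  have hme : Real.exp (Real.log m) = m := Real.exp_log hm0
  have hrp : (k : ℝ) ^ (1 - η) = Real.exp (Real.log k * (1 - η)) := Real.rpow_def_of_pos hk0 _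
  have hmk : k ^ 3 < m ^ 2 := not_le.1 fun h => hSy k m (by omega) hkm h hE
  have hl32 : 3 * Real.log k ≤ 2 * Real.log m := by
    have h : Real.log ((k : ℝ) ^ 3) ≤ Real.log ((m : ℝ) ^ 2) :=
      Real.log_le_log (by positivity) (by exact_mod_cast hmk.le)
    rw [Real.log_pow, Real.log_pow] at h
    exact_mod_cast h
  have hex : ∃ n : ℕ, m ≤ k ^ (n + 1) :=
    ⟨m, (Nat.le_succ m).trans (Nat.lt_pow_self (by omega)).le⟩
  have hs := Nat.find_spec hex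
  have hf0 : Nat.find hex ≠ 0 := fun h => by
    rw [h, zero_add, pow_one] at hs
    have h1 : m ^ 2 ≤ k ^ 2 := Nat.pow_le_pow_left hs 2
    have h2 : k ^ 2 ≤ k ^ 3 := Nat.pow_le_pow_right (by omega) (by omega)
    omega
  obtain ⟨b, hb⟩ := Nat.exists_eq_succ_of_ne_zero hf0
  have hmin := not_le.1 (Nat.find_min hex (show b < Nat.find hex by omega))
  rw [hb] at hs
  obtain ⟨n, hn⟩ : ∃ n, n = b + 2 := ⟨_, rfl⟩
  have hmn : (m : ℝ) ≤ (k : ℝ) ^ n := by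
    rw [hn]
    exact_mod_cast hs
  have hn2 : (2 : ℝ) ≤ n := by exact_mod_cast (show 2 ≤ n by omega)
  have hln : ((n : ℝ) - 1) * Real.log k ≤ Real.log m := by
    have h : Real.log ((k : ℝ) ^ (b + 1)) ≤ Real.log m :=
      Real.log_le_log (by positivity) (by exact_mod_cast hmin.le)
    rw [Real.log_pow] at h
    rw [hn]
    push_cast at h ⊢
    linarith
  have h2m : ∀ p e : ℕ, k < p → e < k → ((p ^ 2 : ℕ) : ℤ) ∣ ((m + k : ℕ) : ℤ) - e →
      2 * Real.log k - 1 ≤ Real.log m := fun p e hp he hd => by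
    have h1 := Int.le_of_dvd (by omega) hd
    have h2 : k ^ 2 ≤ p ^ 2 := Nat.pow_le_pow_left hp.le 2
    have h3 : k ^ 2 ≤ 2 * m := by omega
    have h : Real.log ((k : ℝ) ^ 2) ≤ Real.log (2 * m) :=
      Real.log_le_log (by positivity) (by exact_mod_cast h3)
    rw [Real.log_pow, Real.log_mul (by norm_num) hm0.ne'] at h
    have := Real.log_two_lt_d9
    push_cast at h
    linarith
  have hHO' := fun W => hHO k W (by omega)
  rw [hrp] at hHO'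
  generalize Real.log k = κ at *
  generalize Real.log m = L at *
  have hκ0 : 0 < κ := by linarith
  have hl : 1 ≤ Real.log κ := by
    rw [Real.le_log_iff_exp_le hκ0]
    have := Real.exp_one_lt_d9
    linarith
  obtain ⟨hC, hnκ⟩ := sizeN n κ L η hη hη' hκ0 hn2 hl hln hcon
  obtain ⟨R, hRd⟩ : ∃ R : ℕ, R = ⌊4 * n * κ / c⌋₊ + 1 := ⟨_, rfl⟩
  obtain ⟨hRlow, hRup⟩ := sizeR n R κ c hc (by linarith) hnκ hRd
  have hM := master n R κ η (by omega) hη hκ0 hl hRup hC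
  have hηκ : η * κ ≤ κ / 20 := by nlinarith
  have hηκ0 : 0 < η * κ := by positivity
  have hnη : (n : ℝ) * (η * κ) ≤ n * (κ / 20) := by gcongr
  obtain ⟨u, hu⟩ : ∃ u, u = Real.exp (η * κ / 2) := ⟨_, rfl⟩
  have hu0 : 0 < u := hu ▸ Real.exp_pos _
  have hup : ∀ j : ℕ, u ^ j = Real.exp (j * (η * κ / 2)) := fun j => by
    rw [hu, Real.exp_nat_mul]
  have hkp : ∀ j : ℕ, (k : ℝ) ^ j = Real.exp (j * κ) := fun j => by
    rw [Real.exp_nat_mul, hke]
  rw [← hu] at hM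
  obtain ⟨y, hy⟩ : ∃ y, y = Real.exp (κ * (1 - η)) := ⟨_, rfl⟩
  rw [← hy] at hHO'
  have hyu : y * u ^ 2 = k := by
    rw [hup, hy, ← Real.exp_add, ← hke]
    congr 1
    push_cast
    ring
  have hy1 : 1 ≤ y := hy ▸ Real.one_le_exp (by nlinarith)
  have hWl : y ≤ (⌈y⌉₊ : ℕ) := Nat.le_ceil y
  have hWu : ((⌈y⌉₊ : ℕ) : ℝ) ≤ 2 * y := by
    have := Nat.ceil_lt_add_one (show 0 ≤ y by linarith)
    linarith
  generalize ⌈y⌉₊ = W at hWl hWu
  have hu2 : 2 * κ ≤ u ^ 2 := sizeU κ η u hη hκ0 (by linarith) hu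
  have hWκ : W * κ ≤ k := by
    calc W * κ ≤ 2 * y * κ := by gcongr
      _ = y * (2 * κ) := by ring
      _ ≤ y * u ^ 2 := by gcongr
      _ = k := hyu
  have hW0 : (0 : ℝ) < W := by linarith
  have hWk : W ≤ k := by
    have : (W : ℝ) ≤ k := by nlinarith
    exact_mod_cast this
  have hkW : (k : ℝ) ≤ W * u ^ 2 := by
    rw [← hyu]
    gcongr
  have hcard := hHO' W hWl hWκ
  have hfin : ∀ G : Finset ℕ, (pp k (k + W)).card ≤ 2 * G.card → ¬ G.card * R ≤ 2 * n * W :=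
    fun G h1 h2 => by
      have a1 : ((pp k (k + W)).card : ℝ) ≤ 2 * G.card := by exact_mod_cast h1
      have a2 : (G.card : ℝ) * R ≤ 2 * n * W := by exact_mod_cast h2
      have a3 : 0 < c * W / κ := by positivity
      have a4 : c * W / κ * (4 * n * κ / c) < c * W / κ * R := by gcongr
      have a5 : c * W / κ * (4 * n * κ / c) = 4 * n * W := by field_simp
      have a6 : c * W / κ * R ≤ 2 * G.card * R := by
        gcongr
        linarith
      linarith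
  have hR0 : 0 < R := by omega
  obtain ⟨G, hG, hGc, hT | hT⟩ := split hTy k m W hE
  · refine hfin G hGc (core hGap k m n 1 W R u (2 / u ^ 2) (1 / u) G (Or.inl rfl) (by omega) hWk
      hG ?_ (by omega) (by omega) hR0 (by positivity) (by rw [one_div_mul_cancel hu0.ne'])
      (le_of_eq (by field_simp)) hM ?_ ?_ hkW)
    · intro x hx
      obtain ⟨e, he, hd⟩ := hT x hx
      refine near1 k m W x e u (by omega) hu0 ?_ (hG hx) he hd
      calc (W : ℝ) * u ^ 2 ≤ 2 * y * u ^ 2 := by gcongr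
        _ = 2 * (k : ℝ) := by rw [mul_assoc, hyu]
    · have b1 : u ≤ k := by
        rw [hu, ← hke]
        exact Real.exp_le_exp.2 (by linarith)
      rw [pow_succ, one_div, ← div_eq_inv_mul, le_div_iff₀ hu0]
      gcongr
    · have b1 : 1 / u * (k : ℝ) ^ 1 * u ^ (2 * n + 1) = (k : ℝ) ^ 1 * u ^ (2 * n) := by
        field_simp
        ring
      rw [b1, hkp, hup, ← Real.exp_add, ← hme]
      refine Real.exp_le_exp.2 ?_
      push_cast
      linarith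
  · obtain ⟨p, hp⟩ : G.Nonempty := by
      have a3 : 0 < c * W / κ := by positivity
      have a4 : 0 < (pp k (k + W)).card := by exact_mod_cast a3.trans_le hcard
      exact card_pos.1 (by omega)
    obtain ⟨e0, he0, hd0⟩ := hT p hp
    have hL2 := h2m p e0 (mem_Ioc.1 (hG hp)).1 he0 hd0
    refine hfin G hGc (core hGap k m n 2 W R u (1 / k) (Real.exp (-(κ / 2))) G (Or.inr rfl)
      (by omega) hWk hG ?_ (by omega) (by omega) hR0 (Real.exp_pos _) ?_ ?_ hM ?_ ?_ hkW)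
    · intro x hx
      obtain ⟨e, he, hd⟩ := hT x hx
      exact near2 k m x e (by omega) (mem_Ioc.1 (hG hx)).1 he hd
    · rw [hu, ← Real.exp_add]
      exact Real.exp_le_one_iff.2 (by linarith)
    · have b1 : 1 / (k : ℝ) * u ≤ Real.exp (-(κ / 2)) := by
        rw [hu, ← hke, one_div, ← Real.exp_neg, ← Real.exp_add]
        exact Real.exp_le_exp.2 (by linarith)
      have := Real.exp_pos (-(κ / 2))
      linarith
    · refine hmn.trans ?_
      rw [hkp, hkp, ← Real.exp_add]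
      refine Real.exp_le_exp.2 ?_
      push_cast
      linarith
    · rw [hkp, hup, ← Real.exp_add, ← Real.exp_add, ← hme]
      refine Real.exp_le_exp.2 ?_
      push_cast
      linarith

end Pool.Agent.P.MP_baf437_nt.SP
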