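import Pool.Agent.P.MP_baf437_nt.SP.Defs

/-! The count of exceptional starting points for one length. -/

open Finset

namespace Pool.Agent.P.MP_baf437_nt.SP

namespace R5Aux

theorem half_le_div {a b : ℕ} (hb : 0 < b) (h : (b : ℝ) ≤ a) :
    (a : ℝ) / (2 * b) ≤ ((a / b : ℕ) : ℝ) := by
  have h1 : b ≤ a := by exact_mod_cast h
  have h2 : 1 ≤ a / b := (Nat.le_div_iff_mul_le hb).2 (by simpa using h1)
  have h3 : a < b * (a / b + 1) := Nat.lt_mul_div_succ a hb
  have h4 : a ≤ a / b * (2 * b) := by nlinarith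
  rw [div_le_iff₀ (by positivity)]
  exact_mod_cast h4

theorem core (hB : StB) (I : Finset ℕ) (q : ℕ → ℕ) (Q s X D σ j t J : ℕ) (M : Finset ℕ)
    (h1 : I.Nonempty) (h2 : ∀ i ∈ I, Q ≤ q i)
    (h3 : ∀ i ∈ I, ∀ i' ∈ I, i ≠ i' → (q i).Coprime (q i')) (h4 : 0 < σ)
    (h5 : X + σ < Q ^ (D + 1)) (h6 : 16 * σ * D ≤ I.card) (h7 : j * t * s ≤ Q)
    (h8 : 2 * j * t * X + 1 < t ^ j) (h9 : s ≤ J * σ) (hj : 1 ≤ j) (hJ : 1 ≤ J)
    (hM : ∀ m ∈ M, m ≤ X ∧
      I.card ≤ 2 * (I.filter fun i => ∃ e ∈ range s, (q i : ℤ) ∣ (m : ℤ) - (e : ℕ)).card) :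
    (M.card : ℝ) ≤ σ * Real.exp (j * (5 * Real.log (16 * j * J) + 6)) := by
  set n := Nat.log 2 (16 * j * J) with hn
  have hy : 1 ≤ j * J := Nat.mul_pos hj hJ
  have hlt : 16 * j * J < 2 ^ (n + 1) := Nat.lt_pow_succ_log_self (by norm_num) _
  have hle : 2 ^ n ≤ 16 * j * J := Nat.pow_log_le_self 2 (by positivity)
  have hnP : n < 2 ^ n := Nat.lt_two_pow_self
  have key : 4 * (j * (2 * n + 4) * J + 1) < 2 ^ (2 * n + 4) := by
    have e : 2 ^ (2 * n + 4) = 16 * (2 ^ n * 2 ^ n) := by ring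
    rw [pow_succ] at hlt
    rw [e]
    generalize 2 ^ n = P at *
    have e2 : j * (2 * n + 4) * J = (2 * n + 4) * (j * J) := by ring
    rw [e2]
    rw [mul_assoc] at hlt
    generalize j * J = y at *
    have : (2 * n + 4) * y ≤ (2 * P + 2) * P := Nat.mul_le_mul (by omega) (by omega)
    nlinarith
  have h10 : 4 * (j * (2 * n + 4) * J + 1) ^ j < 2 ^ (j * (2 * n + 4)) := by
    calc 4 * (j * (2 * n + 4) * J + 1) ^ j ≤ 4 ^ j * (j * (2 * n + 4) * J + 1) ^ j :=
          Nat.mul_le_mul_right _ (by simpa using Nat.pow_le_pow_right (by norm_num : 0 < 4) hj)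
      _ = (4 * (j * (2 * n + 4) * J + 1)) ^ j := (mul_pow _ _ _).symm
      _ < (2 ^ (2 * n + 4)) ^ j := Nat.pow_lt_pow_left key (by omega)
      _ = _ := by rw [← pow_mul, mul_comm]
  have h := hB I q Q s X D σ j t J (j * (2 * n + 4)) M h1 h2 h3 h4 h5 h6 h7 h8 h9 h10 hM
  have hl2 := Real.log_two_lt_d9
  have hl2' := Real.log_two_gt_d9
  have hlog : n * Real.log 2 ≤ Real.log (16 * j * J) := by
    rw [← Real.log_pow]
    exact Real.log_le_log (by positivity) (by exact_mod_cast hle)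
  have h4r : (4 : ℝ) ^ (j * (2 * n + 4)) ≤ Real.exp (j * (5 * Real.log (16 * j * J) + 6)) := by
    have e : (4 : ℝ) = Real.exp (2 * Real.log 2) := by
      rw [show (2 : ℝ) * Real.log 2 = Real.log 2 + Real.log 2 by ring, Real.exp_add,
        Real.exp_log (by norm_num)]; norm_num
    rw [e, ← Real.exp_nat_mul]
    refine Real.exp_le_exp.2 ?_
    push_cast
    rw [mul_assoc]
    refine mul_le_mul_of_nonneg_left ?_ (by positivity)
    have : (0 : ℝ) ≤ n * Real.log 2 := by positivity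
    nlinarith
  calc (M.card : ℝ) ≤ ((σ * 4 ^ (j * (2 * n + 4)) : ℕ) : ℝ) := by exact_mod_cast h
    _ = σ * (4 : ℝ) ^ (j * (2 * n + 4)) := by push_cast; rfl
    _ ≤ _ := mul_le_mul_of_nonneg_left h4r (by positivity)

theorem pow_ge {t j X : ℕ} {a : ℝ} (hX : 0 < X) (ha : 0 < a) (ht : Real.exp (a / 2) ≤ t)
    (hj : 8 * Real.log X / a ≤ j) : X ^ 4 ≤ t ^ j := by
  have h1 : Real.exp (a / 2) ^ j ≤ (t : ℝ) ^ j := pow_le_pow_left₀ (Real.exp_pos _).le ht j
  rw [← Real.exp_nat_mul] at h1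
  have h2 : (X : ℝ) ^ 4 = Real.exp (4 * Real.log X) := by
    rw [show (4 : ℝ) * Real.log X = ((4 : ℕ) : ℝ) * Real.log X by norm_num, Real.exp_nat_mul,
      Real.exp_log (by exact_mod_cast hX)]
  rw [div_le_iff₀ ha] at hj
  have h3 : (X : ℝ) ^ 4 ≤ (t : ℝ) ^ j := by
    rw [h2]
    exact (Real.exp_le_exp.2 (by linarith)).trans h1
  exact_mod_cast h3

theorem exp_ge (n : ℕ) (y : ℝ) (h : y ≤ 2 ^ n) : y ≤ Real.exp n := by
  refine h.trans ?_
  rw [← mul_one (n : ℝ), Real.exp_nat_mul]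
  refine pow_le_pow_left₀ (by norm_num) ?_ n
  have := Real.add_one_le_exp (1 : ℝ)
  linarith

theorem log_le_of {y a : ℝ} (hy : 0 < y) (h : y ≤ Real.exp a) : Real.log y ≤ a :=
  (Real.log_le_iff_le_exp hy).2 h

end R5Aux

open R5Aux

theorem pR5 (hHO : StHO) (hTy : StTy) (hB : StB) : StR5 := by
  obtain ⟨η, c0, hη, hη', hc0, x0, H⟩ := hHO
  obtain ⟨c, hc, hc1, hcc⟩ : ∃ c : ℝ, 0 < c ∧ c ≤ 1 ∧ c ≤ c0 :=
    ⟨min 1 c0, lt_min one_pos hc0, min_le_left _ _, min_le_right _ _⟩
  have hlc : 0 ≤ -Real.log c := by linarith [Real.log_nonpos hc.le hc1]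
  obtain ⟨B, hB1, hB2, hB3, hB4⟩ : ∃ B : ℝ, 20 ≤ B ∧ 1 / η ≤ B ∧ (x0 : ℝ) ≤ B ∧
      -Real.log c ≤ B := by
    have : 0 < 1 / η := by positivity
    have : (0 : ℝ) ≤ x0 := by positivity
    exact ⟨20 + 1 / η + x0 + -Real.log c, by linarith, by linarith, by linarith, by linarith⟩
  have hcB : 1 / c ≤ Real.exp B := by
    rw [one_div, ← Real.exp_log hc, ← Real.exp_neg]; exact Real.exp_le_exp.2 hB4
  refine ⟨9 * (86 + 5 * B) + 1, B ^ 2, by positivity, by positivity, ?_⟩
  intro X k M hX hkX hk hM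
  have hX0 : (0 : ℝ) < X := by exact_mod_cast (by omega : 0 < X)
  set L := Real.log X with hL
  set lam := Real.log L with hlam
  set kap := Real.log k with hkap
  have hLe : Real.exp 1 ≤ L := by
    have h1 : Real.log 16 ≤ L := Real.log_le_log (by norm_num) (by exact_mod_cast hX)
    rw [show (16 : ℝ) = 2 ^ 4 by norm_num, Real.log_pow] at h1
    have := Real.log_two_gt_d9
    have := Real.exp_one_lt_d9
    push_cast at h1
    linarith
  have he1 : (2 : ℝ) ≤ Real.exp 1 := by linarith [Real.add_one_le_exp (1 : ℝ)]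
  have hL0 : 0 < L := by linarith
  have hlam1 : 1 ≤ lam := (Real.le_log_iff_exp_le hL0).2 hLe
  have hLl : L = Real.exp lam := (Real.exp_log hL0).symm
  have hkapB : 20 * (B * lam) ≤ kap := by
    nlinarith only [hk, hB1, mul_nonneg (by linarith : 0 ≤ B) (by linarith : 0 ≤ lam)]
  have hBl : B ≤ B * lam := by nlinarith only [hB1, hlam1]
  have hBl' : 20 * lam ≤ B * lam := by nlinarith only [hB1, hlam1]
  have hkap0 : 0 < kap := by linarith
  have hk0 : 0 < k := by
    rcases Nat.eq_zero_or_pos k with h | h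
    · rw [h] at hkap; simp at hkap; linarith
    · exact h
  have hk0' : (0 : ℝ) < k := by exact_mod_cast hk0
  have hkk : (k : ℝ) = Real.exp kap := (Real.exp_log hk0').symm
  have hkapL : kap ≤ L := Real.log_le_log hk0' (by exact_mod_cast hkX)
  set g := √(lam * kap) with hg
  have hg2 : g * g = lam * kap := Real.mul_self_sqrt (by positivity)
  have hgB : B * lam ≤ g := Real.le_sqrt_of_sq_le (by nlinarith only [hk, hlam1])
  have hg0 : 0 < g := by linarith
  have hgk : B * g ≤ kap := by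
    by_contra h
    push Not at h
    have h1 : kap * kap < B * g * (B * g) := mul_self_lt_mul_self hkap0.le h
    have h2 : B * g * (B * g) = B ^ 2 * lam * kap := by
      rw [mul_assoc (B ^ 2), ← hg2]; ring
    nlinarith only [h1, h2, hk, hkap0]
  have hg20 : 20 * g ≤ kap := by nlinarith only [hgk, hB1, hg0]
  have hE : L * √(lam / kap) = L * g / kap := by
    rw [mul_div_assoc, hg]
    congr 1
    rw [eq_div_iff hkap0.ne', ← Real.sqrt_mul_self hkap0.le, ← Real.sqrt_mul (by positivity),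
      Real.sqrt_mul_self hkap0.le]
    congr 1; field_simp
  have hE2 : L * g / kap = L / g * lam := by
    field_simp; nlinarith only [hg2]
  have hLk : 1 ≤ L / kap := (one_le_div hkap0).2 hkapL
  have hLg : 1 ≤ L / g := (one_le_div hg0).2 (by linarith)
  set W := ⌈(k : ℝ) * Real.exp (-g)⌉₊ with hW
  have hw0 : (k : ℝ) * Real.exp (-g) = Real.exp (kap - g) := by
    rw [hkk, ← Real.exp_add]; rfl
  have hW1 : Real.exp (kap - g) ≤ W := hw0 ▸ Nat.le_ceil _
  have hW2 : (W : ℝ) ≤ 2 * Real.exp (kap - g) := by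
    have h1 : (W : ℝ) < k * Real.exp (-g) + 1 := Nat.ceil_lt_add_one (by positivity)
    have h2 : 1 ≤ Real.exp (kap - g) := Real.one_le_exp (by linarith)
    rw [hw0] at h1; linarith
  have hW0 : (0 : ℝ) < W := (Real.exp_pos _).trans_le hW1
  have hW0' : 0 < W := by exact_mod_cast hW0
  have hWk : W * kap ≤ k := by
    calc W * kap ≤ 2 * Real.exp (kap - g) * L := by gcongr
      _ ≤ Real.exp 1 * Real.exp (kap - g) * Real.exp lam := by rw [← hLl]; gcongr
      _ ≤ k := by
        rw [hkk, ← Real.exp_add, ← Real.exp_add]; exact Real.exp_le_exp.2 (by linarith)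
  have hWk' : W ≤ k := by
    have : (W : ℝ) ≤ k := by
      nlinarith only [hWk, hW0, (by linarith : 1 ≤ kap)]
    exact_mod_cast this
  have hN0 := H k W (by
      have : kap ≤ k := by linarith [Real.log_le_sub_one_of_pos hk0']
      have : (x0 : ℝ) ≤ k := by linarith
      exact_mod_cast this)
    (by
      refine le_trans ?_ hW1
      rw [Real.rpow_def_of_pos hk0']
      refine Real.exp_le_exp.2 ?_
      have h1 : 1 ≤ B * η := by rwa [div_le_iff₀ hη] at hB2
      have : g ≤ η * kap := by nlinarith only [h1, hgk, hg0, hη]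
      linarith) hWk
  set I := pp k (k + W) with hI
  have hN : c * W / kap ≤ I.card := le_trans (by gcongr) hN0
  have hNW : I.card ≤ W :=
    (card_filter_le _ _).trans (by rw [Nat.card_Ioc, Nat.add_sub_cancel_left])
  set D := ⌈2 * L / kap⌉₊ with hD
  have hD1 : 2 * L / kap ≤ D := Nat.le_ceil _
  have hD2 : (D : ℝ) ≤ 3 * L / kap := by
    have h1 : (D : ℝ) < 2 * L / kap + 1 := Nat.ceil_lt_add_one (by positivity)
    rw [mul_div_assoc] at h1 ⊢; linarith
  have hD0 : 0 < D := by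
    have : (0 : ℝ) < D := lt_of_lt_of_le (by positivity) hD1
    exact_mod_cast this
  have hcW : 96 * L ≤ c * W := by
    have h1 : (96 : ℝ) ≤ Real.exp (7 : ℕ) := exp_ge 7 _ (by norm_num)
    have h2 : 96 * L * (1 / c) ≤ W := by
      calc 96 * L * (1 / c) ≤ Real.exp (7 : ℕ) * Real.exp lam * Real.exp B := by
            rw [← hLl]; gcongr
        _ ≤ Real.exp (kap - g) := by
            rw [← Real.exp_add, ← Real.exp_add]
            refine Real.exp_le_exp.2 ?_
            push_cast; linarith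
        _ ≤ W := hW1
    rw [mul_one_div, div_le_iff₀ hc] at h2; linarith
  have hDN : ((16 * D : ℕ) : ℝ) ≤ I.card := by
    refine le_trans ?_ hN
    push_cast
    rw [le_div_iff₀ hkap0] at hD2 ⊢
    linarith
  set σ := I.card / (16 * D) with hσ
  have hσ1 : c * W / (96 * L) ≤ σ := by
    refine le_trans ?_ (half_le_div (by omega) hDN)
    push_cast
    rw [div_le_div_iff₀ (by positivity) (by positivity)]
    rw [le_div_iff₀ hkap0] at hD2
    rw [div_le_iff₀ hkap0] at hN
    have h0 : (0 : ℝ) ≤ D := by positivity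
    have h1 : c * W * D ≤ I.card * kap * D := mul_le_mul_of_nonneg_right hN h0
    have h2 : (I.card : ℝ) * (D * kap) ≤ I.card * (3 * L) :=
      mul_le_mul_of_nonneg_left hD2 (Nat.cast_nonneg _)
    linarith
  have hσ0 : 0 < σ := by
    have : (0 : ℝ) < σ := lt_of_lt_of_le (by positivity) hσ1
    exact_mod_cast this
  have hσk : σ ≤ k := (Nat.div_le_self _ _).trans (hNW.trans hWk')
  have hσD : 16 * σ * D ≤ I.card := by
    have := Nat.div_mul_le_self I.card (16 * D)
    calc 16 * σ * D = σ * (16 * D) := by ring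
      _ ≤ _ := this
  have hIne : I.Nonempty := card_pos.1 (lt_of_lt_of_le (by positivity) hσD)
  have hkD : X ^ 2 ≤ k ^ D := by
    have h1 : (X : ℝ) ^ 2 ≤ (k : ℝ) ^ D := by
      rw [hkk, ← Real.exp_nat_mul, ← Real.exp_log hX0, ← Real.exp_nat_mul]
      refine Real.exp_le_exp.2 ?_
      rw [div_le_iff₀ hkap0] at hD1
      push_cast; linarith
    exact_mod_cast h1
  have hQ1 : 2 * X + σ < k ^ (D + 1) := by
    have : k ^ D ≤ k ^ (D + 1) := Nat.pow_le_pow_right hk0 (by omega)
    nlinarith only [this, hkD, hσk, hkX, hX]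
  have hX4 : 4 * (X * X) + 1 < X ^ 4 := by
    have h1 : X ^ 4 = X * X * (X * X) := by ring
    have h2 : 256 ≤ X * X := by nlinarith only [hX]
    nlinarith only [h1, h2]
  have hcop : ∀ i ∈ I, ∀ i' ∈ I, i ≠ i' → i.Coprime i' := fun i hi i' hi' h =>
    (Nat.coprime_primes (mem_pp.1 hi).1 (mem_pp.1 hi').1).2 h
  have hceil : ∀ a : ℝ, 0 < a → 1 ≤ L / a → 1 ≤ a → 8 * L / a ≤ ⌈8 * L / a⌉₊ ∧
      (⌈8 * L / a⌉₊ : ℝ) ≤ 9 * (L / a) ∧ (⌈8 * L / a⌉₊ : ℝ) ≤ 9 * L ∧ 1 ≤ ⌈8 * L / a⌉₊ := by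
    intro a ha h1 h2
    have h3 : (⌈8 * L / a⌉₊ : ℝ) < 8 * L / a + 1 := Nat.ceil_lt_add_one (by positivity)
    have h4 : L / a ≤ L := div_le_self hL0.le h2
    rw [mul_div_assoc] at h3
    refine ⟨Nat.le_ceil _, by rw [mul_div_assoc]; linarith, by rw [mul_div_assoc]; linarith,
      Nat.ceil_pos.2 (by positivity)⟩
  have h36 : (36 : ℝ) ≤ Real.exp (6 : ℕ) := exp_ge 6 _ (by norm_num)
  have h14 : (16 * 9 * 97 : ℝ) ≤ Real.exp (14 : ℕ) := exp_ge 14 _ (by norm_num)
  have hc1' : 1 ≤ 1 / c := one_le_one_div hc hc1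
  classical
  let P1 : ℕ → ℕ → Prop := fun m i => ∃ e ∈ range W, ((id i : ℕ) : ℤ) ∣ (m : ℤ) - (e : ℕ)
  let M1 := M.filter fun m => I.card ≤ 2 * (I.filter (P1 m)).card
  let M2 := M.filter fun m => ¬ I.card ≤ 2 * (I.filter (P1 m)).card
  have hM1 : (M1.card : ℝ) ≤ k * Real.exp (9 * (86 + 5 * B) * (L * g / kap)) := by
    obtain ⟨j1, j2, j3, j4⟩ := hceil g hg0 hLg (by linarith)
    set j := ⌈8 * L / g⌉₊
    have hj0 : (0 : ℝ) < j := by exact_mod_cast j4
    set J := ⌈96 * L / c⌉₊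
    have J1 : 96 * L / c ≤ J := Nat.le_ceil _
    have J0 : 1 ≤ J := Nat.ceil_pos.2 (by positivity)
    have J2 : (J : ℝ) ≤ 97 * L * (1 / c) := by
      have h3 : (J : ℝ) < 96 * L / c + 1 := Nat.ceil_lt_add_one (by positivity)
      rw [div_eq_mul_one_div] at h3
      nlinarith only [h3, hc1', (by linarith : 1 ≤ L)]
    have hjW : Real.exp (g / 2) * (2 * ((j * W : ℕ) : ℝ)) ≤ k := by
      push_cast
      calc Real.exp (g / 2) * (2 * (j * W)) ≤
            Real.exp (g / 2) * (2 * (9 * L * (2 * Real.exp (kap - g)))) := by gcongr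
        _ = 36 * L * Real.exp (g / 2) * Real.exp (kap - g) := by ring
        _ ≤ Real.exp (6 : ℕ) * Real.exp lam * Real.exp (g / 2) * Real.exp (kap - g) := by
            rw [← hLl]; gcongr
        _ ≤ k := by
            rw [hkk, ← Real.exp_add, ← Real.exp_add, ← Real.exp_add]
            refine Real.exp_le_exp.2 ?_
            push_cast; linarith
    have hjW0 : (0 : ℝ) < ((j * W : ℕ) : ℝ) := by push_cast; positivity
    have hg1 : 1 ≤ Real.exp (g / 2) := Real.one_le_exp (by positivity)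
    have ht : Real.exp (g / 2) ≤ (k / (j * W) : ℕ) :=
      le_trans (by rwa [le_div_iff₀ (by positivity)])
        (half_le_div (Nat.mul_pos j4 hW0') (by nlinarith only [hjW, hjW0, hg1]))
    have h7 : j * (k / (j * W)) * W ≤ k := by
      have := Nat.div_mul_le_self k (j * W)
      calc j * (k / (j * W)) * W = k / (j * W) * (j * W) := by ring
        _ ≤ _ := this
    have h8 := pow_ge (by omega : 0 < X) hg0 ht j1
    have h := core hB I id k W X D σ j (k / (j * W)) J M1 hIne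
      (fun i hi => (mem_pp.1 hi).2.1.le) hcop hσ0 (by omega) hσD h7
      (by
        have h1 : j * (k / (j * W)) ≤ X :=
          (Nat.le_mul_of_pos_right _ hW0').trans (h7.trans hkX)
        have h2 : j * (k / (j * W)) * X ≤ X * X := Nat.mul_le_mul_right _ h1
        rw [mul_assoc 2, mul_assoc 2]; omega)
      (by
        have h1 : (W : ℝ) ≤ J * σ := by
          calc (W : ℝ) = 96 * L / c * (c * W / (96 * L)) := by field_simp
            _ ≤ J * σ := by gcongr
        exact_mod_cast h1) j4 J0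
      (fun m hm => ⟨(hM m (mem_filter.1 hm).1).1, (mem_filter.1 hm).2⟩)
    refine h.trans (mul_le_mul (by exact_mod_cast hσk) (Real.exp_le_exp.2 ?_)
      (Real.exp_pos _).le hk0'.le)
    have hJ0 : (0 : ℝ) < J := by exact_mod_cast J0
    have hl : Real.log (16 * j * J) ≤ 14 + lam + lam + B := by
      refine log_le_of (by positivity) ?_
      calc (16 : ℝ) * j * J ≤ 16 * (9 * L) * (97 * L * (1 / c)) := by gcongr
        _ = 16 * 9 * 97 * L * L * (1 / c) := by ring
        _ ≤ Real.exp (14 : ℕ) * Real.exp lam * Real.exp lam * Real.exp B := by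
            rw [← hLl]; gcongr
        _ = _ := by rw [← Real.exp_add, ← Real.exp_add, ← Real.exp_add]; norm_num
    rw [hE2]
    calc (j : ℝ) * (5 * Real.log (16 * j * J) + 6) ≤ j * ((86 + 5 * B) * lam) :=
          mul_le_mul_of_nonneg_left (by linarith) hj0.le
      _ ≤ 9 * (L / g) * ((86 + 5 * B) * lam) := by gcongr
      _ = _ := by ring
  have hM2 : (M2.card : ℝ) ≤ k * Real.exp (9 * (86 + 5 * B) * (L * g / kap)) := by
    obtain ⟨j1, j2, j3, j4⟩ := hceil kap hkap0 hLk (by linarith)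
    set j := ⌈8 * L / kap⌉₊
    have hj0 : (0 : ℝ) < j := by exact_mod_cast j4
    have hσ0' : (0 : ℝ) < σ := by exact_mod_cast hσ0
    have J2 : ((k / σ + 1 : ℕ) : ℝ) ≤ 97 * L * (1 / c) * Real.exp g := by
      have h1 : ((k / σ : ℕ) : ℝ) ≤ k / σ := Nat.cast_div_le
      have h2 : (k : ℝ) ≤ W * Real.exp g := by
        calc (k : ℝ) = Real.exp (kap - g) * Real.exp g := by
              rw [← Real.exp_add, sub_add_cancel, hkk]
          _ ≤ _ := by gcongr
      have h3 : (k : ℝ) / σ ≤ W * Real.exp g / (c * W / (96 * L)) := by gcongr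
      have h4 : W * Real.exp g / (c * W / (96 * L)) = 96 * (L * (1 / c) * Real.exp g) := by
        field_simp
      have h5 : 1 ≤ Real.exp g := Real.one_le_exp hg0.le
      have h6 : 1 ≤ L * (1 / c) * Real.exp g :=
        one_le_mul_of_one_le_of_one_le (one_le_mul_of_one_le_of_one_le (by linarith) hc1') h5
      push_cast; linarith
    have hjk : Real.exp (kap / 2) * (2 * (j : ℝ)) ≤ k := by
      calc Real.exp (kap / 2) * (2 * j) ≤ Real.exp (kap / 2) * (36 * L) :=
            mul_le_mul_of_nonneg_left (by linarith) (Real.exp_pos _).le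
        _ ≤ Real.exp (kap / 2) * (Real.exp (6 : ℕ) * Real.exp lam) := by rw [← hLl]; gcongr
        _ ≤ k := by
            rw [hkk, ← Real.exp_add, ← Real.exp_add]
            refine Real.exp_le_exp.2 ?_
            push_cast; linarith
    have hg1 : 1 ≤ Real.exp (kap / 2) := Real.one_le_exp (by positivity)
    have ht : Real.exp (kap / 2) ≤ (k / j : ℕ) :=
      le_trans (by rwa [le_div_iff₀ (by positivity)])
        (half_le_div j4 (by nlinarith only [hjk, hj0, hg1]))
    have h7 : j * (k / j) ≤ k := Nat.mul_div_le k j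
    have h8 := pow_ge (by omega : 0 < X) hkap0 ht j1
    have h := core hB I (fun p => p ^ 2) (k ^ 2) k (2 * X) D σ j (k / j) (k / σ + 1)
      (M2.image (· + k)) hIne
      (fun i hi => Nat.pow_le_pow_left (mem_pp.1 hi).2.1.le 2)
      (fun i hi i' hi' h => Nat.Coprime.pow 2 2 (hcop i hi i' hi' h)) hσ0
      (hQ1.trans_le (Nat.pow_le_pow_left (Nat.le_self_pow two_ne_zero k) _)) hσD
      (by rw [sq]; exact Nat.mul_le_mul_right _ h7)
      (by
        have h2 : j * (k / j) * X ≤ X * X := Nat.mul_le_mul_right _ (h7.trans hkX)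
        have e : 2 * j * (k / j) * (2 * X) = 4 * (j * (k / j) * X) := by ring
        omega)
      (by rw [mul_comm]; exact (Nat.lt_mul_div_succ k hσ0).le) j4 (Nat.le_add_left 1 _)
      (by
        intro m' hm'
        obtain ⟨m, hm, rfl⟩ := mem_image.1 hm'
        obtain ⟨hm, hn⟩ := mem_filter.1 hm
        refine ⟨by have := (hM m hm).1; omega, ?_⟩
        have h1 := card_filter_add_card_filter_not (s := I) (P1 m)
        have h2 : (I.filter fun i => ¬ P1 m i).card ≤ (I.filter fun i =>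
            ∃ e ∈ range k, ((i ^ 2 : ℕ) : ℤ) ∣ ((m + k : ℕ) : ℤ) - (e : ℕ)).card := by
          refine card_le_card fun p hp => ?_
          obtain ⟨hp, hp'⟩ := mem_filter.1 hp
          obtain ⟨p1, p2, p3⟩ := mem_pp.1 hp
          rcases hTy k m p (hM m hm).2 p1 p2 with ⟨e, e1, e2⟩ | ⟨e, e1, e2⟩
          · exact absurd ⟨e, mem_range.2 (by omega), e2⟩ hp'
          · exact mem_filter.2 ⟨hp, e, mem_range.2 e1, e2⟩
        omega)
    rw [card_image_of_injective _ (add_left_injective k)] at h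
    refine h.trans (mul_le_mul (by exact_mod_cast hσk) (Real.exp_le_exp.2 ?_)
      (Real.exp_pos _).le hk0'.le)
    have hJ0 : (0 : ℝ) < (k / σ + 1 : ℕ) := by exact_mod_cast Nat.succ_pos _
    have hl : Real.log (16 * j * (k / σ + 1 : ℕ)) ≤ 14 + lam + lam + B + g := by
      refine log_le_of (by positivity) ?_
      calc (16 : ℝ) * j * (k / σ + 1 : ℕ) ≤ 16 * (9 * L) * (97 * L * (1 / c) * Real.exp g) := by
            gcongr
        _ = 16 * 9 * 97 * L * L * (1 / c) * Real.exp g := by ring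
        _ ≤ Real.exp (14 : ℕ) * Real.exp lam * Real.exp lam * Real.exp B * Real.exp g := by
            rw [← hLl]; gcongr
        _ = _ := by
            rw [← Real.exp_add, ← Real.exp_add, ← Real.exp_add, ← Real.exp_add]; norm_num
    have hBg : 0 ≤ B * g := by positivity
    calc (j : ℝ) * (5 * Real.log (16 * j * (k / σ + 1 : ℕ)) + 6) ≤ j * ((86 + 5 * B) * g) :=
          mul_le_mul_of_nonneg_left (by linarith) hj0.le
      _ ≤ 9 * (L / kap) * ((86 + 5 * B) * g) := by gcongr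
      _ = _ := by ring
  have hsum : (M1.card : ℝ) + M2.card = M.card := by
    exact_mod_cast card_filter_add_card_filter_not (s := M) _
  have hE1 : 1 ≤ L * g / kap := by
    rw [hE2]; exact one_le_mul_of_one_le_of_one_le hLg hlam1
  rw [mul_assoc, hE, add_mul, one_mul, Real.exp_add]
  have h2 : 2 ≤ Real.exp (L * g / kap) := he1.trans (Real.exp_le_exp.2 hE1)
  have h3 : 0 ≤ k * Real.exp (9 * (86 + 5 * B) * (L * g / kap)) := by positivity
  nlinarith only [h2, h3, hsum, hM1, hM2]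

end Pool.Agent.P.MP_baf437_nt.SP
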