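import Pool.Agent.P.MP_baf437_nt.SP.Defs

/-! The two types of primes just above `k`, and the sum over the lengths `k`. -/

open Finset

namespace Pool.Agent.P.MP_baf437_nt.SP

namespace SumAux

theorem fact_ne_one {k m i p : ℕ} (h : Exc k m) (hi : i ∈ Icc 1 k) (hp : p.Prime) (hk : k < p)
    (hd2 : p ∣ m + i) : (m + i).factorization p ≠ 1 := by
  intro h1
  refine h ⟨p, hp, hk, ?_⟩
  rw [Nat.factorization_prod fun j hj => by rw [mem_Icc] at hj; omega, Finsupp.finsetSum_apply,
    sum_eq_single_of_mem i hi, h1]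
  intro j hj hne
  refine Nat.factorization_eq_zero_of_not_dvd fun hd => hne ?_
  rw [mem_Icc] at hi hj
  rcases le_total i j with l | l
  · have : p ∣ j - i := by simpa [Nat.add_sub_add_left] using Nat.dvd_sub hd hd2
    have := Nat.eq_zero_of_dvd_of_lt this (by omega)
    omega
  · have : p ∣ i - j := by simpa [Nat.add_sub_add_left] using Nat.dvd_sub hd2 hd
    have := Nat.eq_zero_of_dvd_of_lt this (by omega)
    omega

theorem one_le_loglog {X : ℕ} (hX : 16 ≤ X) : 1 ≤ Real.log (Real.log X) := by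
  have h16 : (16 : ℝ) ≤ X := by exact_mod_cast hX
  have h1 : Real.log 16 ≤ Real.log X := Real.log_le_log (by norm_num) h16
  have h2 : Real.log 16 = 4 * Real.log 2 := by
    rw [show (16 : ℝ) = 2 ^ 4 by norm_num, Real.log_pow]; norm_num
  have h3 := Real.log_two_gt_d9
  have h4 := Real.exp_one_lt_d9
  rw [Real.le_log_iff_exp_le (by linarith)]
  linarith

end SumAux

open SumAux

theorem pTy : StTy := by
  intro k m p h hp hk
  have hlt := Nat.mod_lt m hp.pos
  have hdm := Nat.div_add_mod m p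
  by_cases hc : m % p + k < p
  · refine Or.inl ⟨m % p, hc, (m / p : ℕ), ?_⟩
    have : (m : ℤ) = p * (m / p : ℕ) + (m % p : ℕ) := by exact_mod_cast hdm.symm
    linarith
  · have hi : p - m % p ∈ Icc 1 k := by rw [mem_Icc]; omega
    have hd : p ∣ m + (p - m % p) := ⟨m / p + 1, by rw [Nat.mul_add]; omega⟩
    have hne := fact_ne_one h hi hp hk hd
    have h0 : m + (p - m % p) ≠ 0 := by omega
    have h1 := (hp.dvd_iff_one_le_factorization h0).1 hd
    have h2 : p ^ 2 ∣ m + (p - m % p) := (hp.pow_dvd_iff_le_factorization h0).2 (by omega)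
    refine Or.inr ⟨k - (p - m % p), by omega, ?_⟩
    have e : ((m + k : ℕ) : ℤ) - (k - (p - m % p) : ℕ) = (m + (p - m % p) : ℕ) := by omega
    rw [e]
    exact_mod_cast h2

theorem pSum (hR3 : StR3) (hR5 : StR5) : StSum := by
  classical
  obtain ⟨C3, k0, hC3, h3⟩ := hR3
  obtain ⟨C5, C1, hC5, hC1, h5⟩ := hR5
  obtain ⟨C', hC'1, hC'2, hC'3⟩ : ∃ C' : ℝ, 1 ≤ C' ∧ C1 ≤ C' ∧ (k0 : ℝ) ≤ C' :=
    ⟨1 + C1 + k0, by have := Nat.cast_nonneg (α := ℝ) k0; linarith,
      by have := Nat.cast_nonneg (α := ℝ) k0; linarith, by linarith⟩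
  refine ⟨√C' + 3 * √C3 + C5, fun X K E hX hK hE => ?_⟩
  have hlam := one_le_loglog hX
  have hX0 : (0 : ℝ) < X := by exact_mod_cast (by omega : 0 < X)
  have hL : 0 < Real.log X := Real.log_pos (by exact_mod_cast (by omega : 1 < X))
  have hK0 : (0 : ℝ) < K := by exact_mod_cast (by omega : 0 < K)
  have hkap : 0 < Real.log K := Real.log_pos (by exact_mod_cast (by omega : 1 < K))
  set L := Real.log X with hLd
  set lam := Real.log L with hlamd
  set E0 := L * √(lam / Real.log K) with hE0d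
  have hE0 : 0 ≤ E0 := mul_nonneg hL.le (Real.sqrt_nonneg _)
  have hs' := Real.sqrt_nonneg C'
  have hs3 := Real.sqrt_nonneg C3
  rw [mul_assoc, ← hE0d]
  by_cases hc : Real.log K ≤ C' * lam
  · have hsub : E ⊆ Icc 1 X := fun n hn => by
      obtain ⟨h1, m, k, -, -, h2, -⟩ := hE n hn
      rw [mem_Icc]; omega
    have hcard : (E.card : ℝ) ≤ X := by
      have := card_le_card hsub
      rw [Nat.card_Icc] at this
      exact_mod_cast (by omega : E.card ≤ X)
    have h1 : 1 ≤ √C' * √(lam / Real.log K) := by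
      rw [← Real.sqrt_mul (by linarith), Real.one_le_sqrt, ← mul_div_assoc, one_le_div hkap]
      exact hc
    have h2 : L ≤ √C' * E0 := by rw [hE0d]; nlinarith
    calc (E.card : ℝ) ≤ X := hcard
      _ = Real.exp L := (Real.exp_log hX0).symm
      _ ≤ _ := Real.exp_le_exp.2 (by nlinarith [mul_nonneg hs3 hE0, mul_nonneg hC5.le hE0])
  · push Not at hc
    have hk0 : k0 ≤ K := by
      have h1 : Real.log K ≤ K - 1 := Real.log_le_sub_one_of_pos hK0
      have : (k0 : ℝ) ≤ K := by nlinarith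
      exact_mod_cast this
    set Ks := Real.exp (√C3 * E0) with hKs
    have hKs0 : 0 < Ks := Real.exp_pos _
    have key : ∀ k m : ℕ, K ≤ k → k ≤ m → m ≤ X → Exc k m → (k : ℝ) ≤ Ks := by
      intro k m h1 h2 h4 he
      have hk : (0 : ℝ) < k := by exact_mod_cast (by omega : 0 < k)
      have hm : (1 : ℝ) ≤ m := by exact_mod_cast (by omega : 1 ≤ m)
      have a1 : Real.log K ≤ Real.log k := Real.log_le_log hK0 (by exact_mod_cast h1)
      have a2 : Real.log m ≤ L := Real.log_le_log (by linarith) (by exact_mod_cast h4)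
      have a3 : Real.log k ≤ L := Real.log_le_log hk (by exact_mod_cast h2.trans h4)
      have a4 : Real.log (Real.log k) ≤ lam := Real.log_le_log (by linarith) a3
      have a5 : 0 ≤ Real.log m := Real.log_nonneg hm
      have a6 := h3 k m (hk0.trans h1) h2 he
      have a7 : Real.log m ^ 2 ≤ L ^ 2 := pow_le_pow_left₀ a5 a2 2
      have a8 : Real.log k ^ 3 ≤ C3 * L ^ 2 * lam :=
        calc Real.log k ^ 3 ≤ C3 * Real.log m ^ 2 * Real.log (Real.log k) := a6
          _ ≤ C3 * Real.log m ^ 2 * lam := by gcongr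
          _ ≤ C3 * L ^ 2 * lam := by gcongr
      have a9 : (√C3 * E0) ^ 2 = C3 * L ^ 2 * lam / Real.log K := by
        rw [hE0d, mul_pow, mul_pow, Real.sq_sqrt hC3.le, Real.sq_sqrt (by positivity)]
        ring
      have a10 : Real.log k ^ 2 ≤ (√C3 * E0) ^ 2 := by
        rw [a9, le_div_iff₀ hkap]
        nlinarith [sq_nonneg (Real.log k)]
      have a11 : Real.log k ≤ √C3 * E0 :=
        (pow_le_pow_iff_left₀ (by linarith) (by positivity) two_ne_zero).1 a10
      rw [hKs, ← Real.log_le_iff_le_exp hk]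
      exact a11
    set S := (Icc 1 ⌊Ks⌋₊).filter fun k => K ≤ k ∧ k ≤ X with hS
    set M : ℕ → Finset ℕ := fun k => (range (X + 1)).filter fun m => Exc k m with hM
    have hsub : E ⊆ S.biUnion fun k => (M k).biUnion fun m => Icc (m + 1) (m + k) := by
      intro n hn
      obtain ⟨h1, m, k, h2, h4, h6, h7, he⟩ := hE n hn
      simp only [mem_biUnion, hS, hM, mem_filter, mem_Icc, mem_range]
      exact ⟨k, ⟨⟨by omega, Nat.le_floor (key k m h2 h4 (by omega) he)⟩, h2, by omega⟩,
        m, ⟨by omega, he⟩, h6, h7⟩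
    have hone : ∀ k ∈ S, (((M k).biUnion fun m => Icc (m + 1) (m + k)).card : ℝ) ≤
        Ks ^ 2 * Real.exp (C5 * E0) := by
      intro k hk
      simp only [hS, mem_filter, mem_Icc] at hk
      obtain ⟨⟨h1, h2⟩, h4, h6⟩ := hk
      have hkK : (k : ℝ) ≤ Ks := (Nat.le_floor_iff hKs0.le).1 h2
      have a1 : Real.log K ≤ Real.log k := Real.log_le_log hK0 (by exact_mod_cast h4)
      have a2 := h5 X k (M k) hX h6 (by nlinarith) fun m hm => by
        simp only [hM, mem_filter, mem_range] at hm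
        exact ⟨by omega, hm.2⟩
      have a3 : ((M k).biUnion fun m => Icc (m + 1) (m + k)).card ≤ (M k).card * k :=
        card_biUnion_le_card_mul _ _ _ fun m _ => by rw [Nat.card_Icc]; omega
      have a4 : Real.exp (C5 * Real.log X * √(Real.log (Real.log X) / Real.log k)) ≤
          Real.exp (C5 * E0) := by
        rw [Real.exp_le_exp, mul_assoc, hE0d]
        gcongr
      calc (((M k).biUnion fun m => Icc (m + 1) (m + k)).card : ℝ) ≤ (M k).card * k := by
            exact_mod_cast a3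
        _ ≤ (Ks * Real.exp (C5 * E0)) * Ks := by
            refine mul_le_mul (a2.trans ?_) hkK (Nat.cast_nonneg _) (by positivity)
            exact mul_le_mul hkK a4 (Real.exp_pos _).le hKs0.le
        _ = _ := by ring
    have hSc : (S.card : ℝ) ≤ Ks := by
      have h1 : S.card ≤ ⌊Ks⌋₊ := (card_filter_le _ _).trans (by rw [Nat.card_Icc]; omega)
      exact (Nat.cast_le.2 h1).trans (Nat.floor_le hKs0.le)
    calc (E.card : ℝ)
        ≤ ∑ k ∈ S, (((M k).biUnion fun m => Icc (m + 1) (m + k)).card : ℝ) := by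
          exact_mod_cast (card_le_card hsub).trans card_biUnion_le
      _ ≤ S.card • (Ks ^ 2 * Real.exp (C5 * E0)) := sum_le_card_nsmul _ _ _ hone
      _ ≤ Ks * (Ks ^ 2 * Real.exp (C5 * E0)) := by
          rw [nsmul_eq_mul]; gcongr
      _ = Real.exp ((3 * √C3 + C5) * E0) := by
          rw [hKs, ← Real.exp_nat_mul, ← Real.exp_add, ← Real.exp_add]
          congr 1; push_cast; ring
      _ ≤ _ := Real.exp_le_exp.2 (by nlinarith [mul_nonneg hs' hE0])

end Pool.Agent.P.MP_baf437_nt.SP
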