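import Pool.Agent.P.MP_baf437_nt.SP.Defs

/-! Transfer of the trilinear sum from a long interval to a short one. -/

open Finset MeasureTheory

namespace Pool.Agent.P.MP_baf437_nt.SP

open Pool.Agent.P.MP_a14ce1_nt.Ch (ex nit cw rs)

namespace TrAux

theorem log_bd {h : ℝ} (h0 : 0 < h) : h / (1 + h) ≤ Real.log (1 + h) ∧ Real.log (1 + h) ≤ h := by
  have h1 : 0 < 1 + h := by positivity
  refine ⟨le_trans (le_of_eq ?_) (Real.one_sub_inv_le_log_of_pos h1), ?_⟩
  · field_simp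
    ring
  · linarith [Real.log_le_sub_one_of_pos h1]

theorem inv_log {x W : ℝ} (hx : 0 < x) (hW : 0 < W) :
    x / W ≤ 1 / Real.log (1 + W / x) ∧ 1 / Real.log (1 + W / x) ≤ x / W + 1 := by
  have h0 : 0 < W / x := by positivity
  obtain ⟨h1, h2⟩ := log_bd h0
  have h3 : 0 < W / x / (1 + W / x) := by positivity
  refine ⟨le_trans (le_of_eq ?_) (one_div_le_one_div_of_le (h3.trans_le h1) h2),
    (one_div_le_one_div_of_le h3 h1).trans (le_of_eq ?_)⟩
  · rw [one_div_div]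
  · field_simp

theorem win_up {x W n : ℝ} (hx : 0 < x) (hW : 0 < W) (hn : 0 < n)
    (h0 : 0 < 1 / Real.log (1 + W / x) * (Real.log n - Real.log x))
    (h1 : 1 / Real.log (1 + W / x) * (Real.log n - Real.log x) < 1) : x < n ∧ n < x + W := by
  have h2 : 0 < W / x := by positivity
  have h3 : 0 < Real.log (1 + W / x) := Real.log_pos (by linarith)
  rw [one_div_mul_eq_div] at h0 h1
  rw [div_lt_one h3] at h1
  have h4 := (div_pos_iff_of_pos_right h3).1 h0
  refine ⟨(Real.log_lt_log_iff hx hn).1 (by linarith),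
    (Real.log_lt_log_iff hn (by positivity)).1 ?_⟩
  rw [show x + W = x * (1 + W / x) by field_simp, Real.log_mul hx.ne' (by positivity)]
  linarith

theorem win_lo {x H e n : ℝ} (hx : 0 < x) (hH : 0 < H) (he : 0 < e) (he' : e ≤ 1 / 8)
    (h : H / x ≤ e) (h0 : x + 2 * e * H ≤ n) (h1 : n ≤ x + (1 - 2 * e) * H) :
    e ≤ 1 / Real.log (1 + H / x) * (Real.log n - Real.log x) ∧
      1 / Real.log (1 + H / x) * (Real.log n - Real.log x) ≤ 1 - e := by
  have h2 : 0 < H / x := by positivity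
  have hn : 0 < n := lt_of_lt_of_le (by positivity) h0
  have h3 : 0 < Real.log (1 + H / x) := Real.log_pos (by linarith)
  have h4 : 1 + 2 * e * (H / x) ≤ n / x := by
    rw [le_div_iff₀ hx]
    refine le_trans (le_of_eq ?_) h0
    field_simp
  have h5 : n / x ≤ 1 + (1 - 2 * e) * (H / x) := by
    rw [div_le_iff₀ hx]
    refine h1.trans (le_of_eq ?_)
    field_simp
  rw [one_div_mul_eq_div, le_div_iff₀ h3, div_le_iff₀ h3, ← Real.log_div hn.ne' hx.ne']
  obtain ⟨h6, h7⟩ := log_bd h2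
  generalize H / x = s at *
  have h8 : 0 < 2 * e * s := by positivity
  constructor
  · refine le_trans ?_ ((log_bd h8).1.trans (Real.log_le_log (by positivity) h4))
    refine (mul_le_mul_of_nonneg_left h7 he.le).trans ?_
    rw [le_div_iff₀ (by positivity)]
    have : 2 * e * s ≤ 1 := by nlinarith
    nlinarith [mul_pos he h2]
  · refine (Real.log_le_sub_one_of_pos (by positivity)).trans (le_trans ?_
      (mul_le_mul_of_nonneg_left h6 (by linarith)))
    rw [← mul_div_assoc, le_div_iff₀ (by positivity)]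
    have : (1 - 2 * e) * (1 + s) ≤ 1 - e := by nlinarith [mul_pos he h2]
    nlinarith

/-- The trilinear sum with the weights of `gam`. -/
noncomputable abbrev tr (z Y N : ℕ) (w : ℕ → ℝ) (g : ℝ → ℝ) (T l : ℝ) : ℝ :=
  tri (pp z Y) (pp z Y) (ro z z N) (fun q => w q / q) (fun p => 1 / (p : ℝ))
    (fun r => 1 / (((omP z Y r : ℝ) + 2) * r)) g T l

theorem term (w o : ℝ) (q p r : ℕ) :
    w / q * (1 / (p : ℝ)) * (1 / (o * r)) = w / o / ((q * p * r : ℕ) : ℝ) := by
  push_cast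
  ring

theorem tr_up {z Y N x W : ℕ} {w : ℕ → ℝ} {g : ℝ → ℝ} (hw : ∀ q, 0 ≤ w q) (hx : 0 < x)
    (hW : 0 < W) (h1 : ∀ v, g v ≤ 1) (h2 : ∀ v, g v ≠ 0 → 0 < v ∧ v < 1) :
    tr z Y N w g (1 / Real.log (1 + W / x)) (Real.log x) ≤ gam z Y N w x (x + W) / x := by
  simp only [tri, gam, sum_div, term]
  refine sum_le_sum fun q hq => sum_le_sum fun p hp => sum_le_sum fun r hr => ?_
  have := hw q
  have hx' : (0 : ℝ) < x := by exact_mod_cast hx
  by_cases h : g (1 / Real.log (1 + W / x) * (Real.log ((q * p * r : ℕ) : ℝ) - Real.log x)) = 0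
  · rw [h, mul_zero]
    split_ifs <;> positivity
  have h3 : 0 < q * p * r := Nat.mul_pos (Nat.mul_pos (mem_pp.1 hq).1.pos (mem_pp.1 hp).1.pos)
    (Nat.zero_lt_of_lt (mem_ro.1 hr).2.1)
  obtain ⟨h4, h5⟩ := win_up hx' (by exact_mod_cast hW) (by exact_mod_cast h3) (h2 _ h).1 (h2 _ h).2
  rw [if_pos (mem_Ioc.2 ⟨by exact_mod_cast h4, by exact_mod_cast h5.le⟩)]
  refine (mul_le_of_le_one_right (by positivity) (h1 _)).trans ?_
  gcongr

theorem tr_lo {z Y N a b : ℕ} {x H e : ℝ} {w : ℕ → ℝ} {g : ℝ → ℝ} (hw : ∀ q, 0 ≤ w q)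
    (hx : 0 < x) (hH : 0 < H) (he : 0 < e) (he' : e ≤ 1 / 8) (h : H / x ≤ e)
    (ha : x + 2 * e * H ≤ a) (hb : b ≤ x + (1 - 2 * e) * H) (h1 : ∀ v, 0 ≤ g v)
    (h2 : ∀ v, e ≤ v → v ≤ 1 - e → g v = 1) :
    gam z Y N w a b / (x + H) ≤ tr z Y N w g (1 / Real.log (1 + H / x)) (Real.log x) := by
  simp only [tri, gam, sum_div, term]
  refine sum_le_sum fun q hq => sum_le_sum fun p hp => sum_le_sum fun r hr => ?_
  have := hw q
  split_ifs with h3
  · have h4 : x + 2 * e * H ≤ (q * p * r : ℕ) :=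
      ha.trans (by exact_mod_cast (mem_Ioc.1 h3).1.le)
    have h5 : ((q * p * r : ℕ) : ℝ) ≤ x + (1 - 2 * e) * H :=
      le_trans (by exact_mod_cast (mem_Ioc.1 h3).2) hb
    obtain ⟨h6, h7⟩ := win_lo hx hH he he' h h4 h5
    rw [h2 _ h6 h7, mul_one]
    have h8 : (0 : ℝ) < (q * p * r : ℕ) := lt_of_lt_of_le (by positivity) h4
    gcongr
    nlinarith [mul_pos he hH]
  · rw [zero_div]
    exact mul_nonneg (by positivity) (h1 _)

theorem gam_nonneg (z Y N a b : ℕ) {w : ℕ → ℝ} (hw : ∀ q, 0 ≤ w q) : 0 ≤ gam z Y N w a b :=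
  sum_nonneg fun q _ => sum_nonneg fun _ _ => sum_nonneg fun _ _ => by
    have := hw q
    split_ifs <;> positivity

theorem bump {c d e : ℝ} (he : 0 < e) (h : c + e < d - e) : ∃ g : ℝ → ℝ, ContDiff ℝ 2 g ∧
    HasCompactSupport g ∧ (∀ v, 0 ≤ g v ∧ g v ≤ 1) ∧ (∀ v, g v ≠ 0 → c < v ∧ v < d) ∧
    ∀ v, c + e ≤ v → v ≤ d - e → g v = 1 := by
  let f : ContDiffBump ((c + d) / 2) := ⟨(d - c) / 2 - e, (d - c) / 2, by linarith, by linarith⟩
  refine ⟨f, f.contDiff, f.hasCompactSupport, fun v => ⟨f.nonneg, f.le_one⟩, fun v hv => ?_,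
    fun v h1 h2 => f.one_of_mem_closedBall ?_⟩
  · have : v ∈ Metric.ball ((c + d) / 2) ((d - c) / 2) := f.support_eq ▸ hv
    rw [Metric.mem_ball, Real.dist_eq, abs_lt] at this
    constructor <;> linarith [this.1, this.2]
  · change dist v _ ≤ (d - c) / 2 - e
    rw [Real.dist_eq, abs_le]
    constructor <;> linarith

theorem fin {s A B P Q E : ℝ} (hs : 0 ≤ s) (hA : 0 ≤ A) (hE : 0 ≤ E) (h1 : A ≤ (1 + s) * P)
    (h2 : Q ≤ (1 + s) * B) (h3 : |Q - P| ≤ E) : (1 - 2 * s) * A ≤ B + E := by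
  have h4 := (abs_le.1 h3).1
  have h5 : A ≤ (1 + s) ^ 2 * (B + E) := by
    nlinarith [mul_le_mul_of_nonneg_left (show P ≤ (1 + s) * (B + E) by nlinarith)
      (show 0 ≤ 1 + s by positivity)]
  refine le_of_mul_le_mul_left (le_trans ?_ h5) (by positivity)
  nlinarith [mul_nonneg hA (show 0 ≤ 3 * s ^ 2 + 2 * s ^ 3 by positivity)]

end TrAux

open TrAux in
theorem pTr (hW : StW) (hF : StF) (hMS : StMS) (hUp : StUp) : StTr := by
  intro u e1 e2 ε hu he1 he1' he2 he2' hε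
  have hu' : (40 : ℝ) ≤ u := by exact_mod_cast hu
  have hu1 : 1 / (u : ℝ) ≤ 1 / 40 := one_div_le_one_div_of_le (by norm_num) hu'
  obtain ⟨w0, a1, a2, a3, a4, a5⟩ := bump (c := 1 / (u : ℝ)) (d := 1 / 2) he1 (by linarith)
  obtain ⟨g, b1, b2, b3, b4, b5⟩ := bump (c := 0) (d := 1) he2 (by linarith)
  obtain ⟨CW, hCW, hW⟩ := hW w0 (1 / u) a1 a2 (by positivity) (by linarith)
    fun v hv => by_contra fun h => absurd (a4 v h).1 (not_lt.2 hv)
  obtain ⟨CF, hCF, hF⟩ := hF g b1 b2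
  obtain ⟨CM, hCM, hMS⟩ := hMS
  obtain ⟨CU, hCU, -, -, hUp⟩ := hUp
  obtain ⟨M, hM⟩ : ∃ M : ℝ, M = CM * 2 * (80 * u) ^ 2 := ⟨_, rfl⟩
  have hM0 : 0 < M := by rw [hM]; positivity
  obtain ⟨l0, y0, hW⟩ := hW (ε / (4 * M * CF)) (by positivity)
  obtain ⟨T1, hT1, hF⟩ := hF (ε / (16 * u * M)) (by positivity)
  obtain ⟨η, hη, hη1, hη2⟩ : ∃ η : ℝ, 0 < η ∧ η ≤ 1 / (4 * u) ∧ η ≤ ε / (12 * M * CF * CW) :=
    ⟨min _ _, by positivity, min_le_left _ _, min_le_right _ _⟩
  have hη3 : 4 * η ≤ 1 / (u : ℝ) := by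
    rw [le_div_iff₀ (by positivity)] at hη1 ⊢
    linarith
  refine ⟨η, hη, by linarith, w0, a3, a5, ⌈Real.exp (|l0| + T1 + CU + 1 / e2 + 2 / η ^ 2 + y0 +
    64 * u * CF * M / ε + 120 * u)⌉₊, fun x W H a b z Y h0 h1 h2 h3 h4 h5 h6 h7 h8 h9 h10 => ?_⟩
  have hx : (0 : ℝ) < x := (Real.exp_pos _).trans_le (Nat.ceil_le.1 h0)
  have hl := (Real.le_log_iff_exp_le hx).2 (Nat.ceil_le.1 h0)
  have p1 := abs_nonneg l0
  have p2 : 0 < 1 / e2 := by positivity
  have p3 : 0 < 2 / η ^ 2 := by positivity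
  have p4 : (0 : ℝ) ≤ y0 := by positivity
  have p5 : 0 < 64 * u * CF * M / ε := by positivity
  have hl0 : 0 < Real.log x := by linarith
  obtain ⟨v, hv⟩ : ∃ v : ℝ, v = Real.exp (Real.log x * η) := ⟨_, rfl⟩
  obtain ⟨s, hs⟩ : ∃ s : ℝ, s = Real.exp (Real.log x / (40 * u)) := ⟨_, rfl⟩
  have v1 : Real.log x + 1 ≤ v := by
    have e : 2 ≤ Real.log x * η ^ 2 := (div_le_iff₀ (by positivity)).1 (by linarith)
    have := Real.quadratic_le_exp_of_nonneg (mul_pos hl0 hη).le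
    rw [← hv] at this
    linarith only [this, mul_pos hl0 hη, mul_le_mul_of_nonneg_left e hl0.le]
  have v2 : 2 ≤ v := by linarith
  have v3 : 2 * v ≤ v ^ 2 := by
    linarith only [mul_le_mul_of_nonneg_right v2 (by positivity : 0 ≤ v)]
  have s1 : 4 ≤ s := by
    have e : 3 ≤ Real.log x / (40 * u) := (le_div_iff₀ (by positivity)).2 (by linarith)
    linarith [Real.add_one_le_exp (Real.log x / (40 * u))]
  have s2 : (x : ℝ) ^ (1 / (u : ℝ)) = s ^ 40 := by
    rw [Real.rpow_def_of_pos hx, hs, ← Real.exp_nat_mul]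
    congr 1
    push_cast
    field_simp
  have s3 : v ≤ s ^ 10 := by
    rw [hv, hs, ← Real.exp_nat_mul]
    refine Real.exp_le_exp.2 ((mul_le_mul_of_nonneg_left hη1 hl0.le).trans (le_of_eq ?_))
    push_cast
    field_simp
    norm_num
  have s4 : Real.log s = Real.log x / (40 * u) := by rw [hs, Real.log_exp]
  rw [s2] at h7 h8
  have W1 : (x : ℝ) ≤ W * v := by
    rw [Real.rpow_sub hx, Real.rpow_one, Real.rpow_def_of_pos hx, ← hv] at h1
    exact (div_le_iff₀ (by positivity)).1 h1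
  have W0 : (0 : ℝ) < W := (mul_pos_iff_of_pos_right (by positivity)).1 (hx.trans_le W1)
  have H0 : (0 : ℝ) < H := by
    have := (mul_pos_iff_of_pos_right hl0).1 (hx.trans_le h4)
    linarith
  obtain ⟨t1, t2⟩ := inv_log hx W0
  obtain ⟨t3, t4⟩ := inv_log hx H0
  have t5 : Real.log x ≤ x / W := (le_div_iff₀ W0).2 (by linarith)
  have t6 : Real.log x ≤ x / H := (le_div_iff₀ H0).2 (by linarith)
  have t7 : x / W ≤ v := (div_le_iff₀ W0).2 (by linarith)
  have t8 : x / H ≤ 2 * Real.log x := (div_le_iff₀ H0).2 (by linarith)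
  have t9 : W / x ≤ 1 / Real.log x := (div_le_div_iff₀ hx hl0).2 (by linarith)
  have t10 : H / x ≤ 1 / Real.log x := (div_le_div_iff₀ hx hl0).2 (by linarith)
  have z1 : s ^ 29 ≤ z := by
    have e : s ^ 1 ≤ s ^ 11 := pow_le_pow_right₀ (by linarith) (by norm_num)
    have e' : s ^ 40 = s ^ 29 * s ^ 11 := by ring
    have e'' := mul_le_mul_of_nonneg_left (show 2 ≤ s ^ 11 by linarith)
      (by positivity : 0 ≤ s ^ 29)
    linarith
  have z2 : s ≤ z := le_trans (le_self_pow₀ (by linarith) (by norm_num)) z1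
  have z3 : Real.log x / (2 * u) ≤ Real.log z := by
    refine le_trans (le_of_eq ?_) (Real.log_le_log (by positivity : 0 < s ^ 20)
      ((pow_le_pow_right₀ (by linarith) (by norm_num)).trans z1))
    rw [Real.log_pow, s4]
    push_cast
    field_simp
    norm_num
  have z4 : 2 ≤ z := by exact_mod_cast (by linarith : (2 : ℝ) ≤ z)
  have f1 : (⌊s⌋₊ : ℝ) ≤ s := Nat.floor_le (by positivity)
  have f2 := Nat.lt_floor_add_one s
  have f3 : 2 ≤ ⌊s⌋₊ := Nat.le_floor (by push_cast; linarith)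
  have f4 : ⌊s⌋₊ ≤ z := by exact_mod_cast f1.trans z2
  have f5 : Real.log x / (80 * u) ≤ Real.log ⌊s⌋₊ := by
    have e : Real.log s ≤ Real.log ((⌊s⌋₊ : ℝ) ^ 2) :=
      Real.log_le_log (by positivity) (by
        have c : (2 : ℝ) ≤ ⌊s⌋₊ := by exact_mod_cast f3
        linarith only [f2, c, mul_le_mul_of_nonneg_right c (zero_le_two.trans c)])
    rw [Real.log_pow, s4] at e
    have e' : Real.log x / (40 * u) = 2 * (Real.log x / (80 * u)) := by field_simp; norm_num
    push_cast at e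
    linarith
  have hms : ∀ (F : Finset ℕ) (c : ℕ → ℝ), F ⊆ ro ⌊s⌋₊ z (2 * x) → (∀ n ∈ F, |c n| ≤ 1 / (n : ℝ)) →
      ∫ t, cw (v ^ 2) t * ‖dp F c t‖ ^ 2 ≤ M / Real.log x := fun F c c1 c2 => by
    refine (hMS _ _ _ _ F c (by linarith only [v2, v3]) f3 (le_trans ?_ z1) c1 c2).trans ?_
    · rw [show s ^ 29 = s ^ 9 * (s ^ 10) ^ 2 by ring]
      gcongr
    · have e : Real.log ((2 * x : ℕ) : ℝ) ≤ 2 * Real.log x := by
        push_cast
        rw [Real.log_mul two_ne_zero hx.ne']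
        linarith [Real.log_two_lt_d9]
      calc _ ≤ CM * (2 * Real.log x) / (Real.log x / (80 * u)) ^ 2 := by gcongr
        _ = _ := by rw [hM]; field_simp
  have hL : ∀ t, ‖dp (pp z Y) (fun q => w0 (Real.log q / Real.log x) / q) t‖ ≤ 4 * u := fun t => by
    refine (norm_dp_le _ _ t).trans ?_
    rcases le_total z Y with e | e
    · refine le_trans (sum_le_sum fun q _ => ?_) ((hUp z Y z4 e).trans ?_)
      · rw [abs_of_nonneg (div_nonneg (a3 _).1 (by positivity))]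
        gcongr
        exact (a3 _).2
      · have e1 : Real.log Y ≤ Real.log x :=
          Real.log_le_log (by exact_mod_cast (by omega : 0 < Y)) (by exact_mod_cast h10)
        have e2 : 0 < Real.log x / (2 * u) := by positivity
        rw [div_le_iff₀ (e2.trans_le z3)]
        have e3 : 4 * u * (Real.log x / (2 * u)) = 2 * Real.log x := by field_simp; norm_num
        linarith [mul_le_mul_of_nonneg_left z3 (by positivity : (0 : ℝ) ≤ 4 * u)]
    · rw [pp, Ioc_eq_empty (not_lt.2 e), filter_empty, sum_empty]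
      positivity
  have y1 : v ^ 2 ≤ ⌈v ^ 2⌉₊ := Nat.le_ceil _
  have y2 : Real.log ⌈v ^ 2⌉₊ ≤ 3 * η * Real.log x := by
    have e := Nat.ceil_lt_add_one (by positivity : 0 ≤ v ^ 2)
    refine (Real.log_le_log (lt_of_lt_of_le (by positivity) y1)
      (show _ ≤ v ^ 3 by
        linarith only [e, v2, v3, mul_le_mul_of_nonneg_left v2 (sq_nonneg v)])).trans (le_of_eq ?_)
    rw [Real.log_pow, hv, Real.log_exp]
    push_cast
    ring
  have hκ : ∀ t, 2 ≤ |t| → |t| ≤ v ^ 2 →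
      ‖dp (pp z Y) (fun q => w0 (Real.log q / Real.log x) / q) t‖ ≤
        CW * (3 * η) + ε / (4 * M * CF) := fun t c1 c2 => by
    refine (hW _ ⌈v ^ 2⌉₊ _ t (by linarith [le_abs_self l0]) ?_
      (y2.trans (mul_le_mul_of_nonneg_right (by linarith only [hη, hη3]) hl0.le))
      (fun q hq => (mem_pp.1 hq).1) (fun q hq c3 => mem_pp.2 ⟨hq, ?_, ?_⟩) c1
      (c2.trans y1)).trans ?_
    · exact_mod_cast (by linarith : (y0 : ℝ) ≤ ⌈v ^ 2⌉₊)
    · have e := (lt_div_iff₀ hl0).1 (a4 _ c3).1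
      have e' : (x : ℝ) ^ (1 / (u : ℝ)) < q := by
        rw [Real.rpow_def_of_pos hx, mul_comm]
        exact (Real.lt_log_iff_exp_lt (by exact_mod_cast hq.pos)).1 e
      rw [s2] at e'
      exact_mod_cast h7.trans_lt e'
    · have e := (div_lt_iff₀ hl0).1 (a4 _ c3).2
      have e' : (q : ℝ) ^ 2 < x := by
        refine (Real.log_lt_log_iff (by have := hq.pos; positivity) hx).1 ?_
        rw [Real.log_pow]
        push_cast
        linarith
      have e'' : q ^ 2 < Y ^ 2 := lt_of_lt_of_le (by exact_mod_cast e') h9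
      exact (lt_of_pow_lt_pow_left₀ 2 (Nat.zero_le _) e'').le
    · rw [mul_div_assoc]
      gcongr
      exact (div_le_iff₀ hl0).2 y2
  have key := hF (1 / Real.log (1 + H / x)) (1 / Real.log (1 + W / x)) (2 * v) (v ^ 2) (Real.log x)
    _ _ _ (pp z Y) (pp z Y) (ro z z (2 * x)) _ (fun p => 1 / (p : ℝ))
    (fun r => 1 / (((omP z Y r : ℝ) + 2) * r)) (by linarith) (by linarith) (by linarith)
    (by linarith) v3 (by linarith) (fun h => Nat.not_prime_zero (mem_pp.1 h).1)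
    (fun h => Nat.not_prime_zero (mem_pp.1 h).1) (fun h => Nat.not_lt_zero _ (mem_ro.1 h).2.1)
    (by positivity) hL hκ
    (hms _ _ (fun p hp => by
      obtain ⟨c1, c2, c3⟩ := mem_pp.1 hp
      exact mem_ro.2 ⟨ro_prime c1 (by omega), c2, by omega⟩)
      fun n _ => (abs_of_nonneg (by positivity)).le)
    (hms _ _ (fun r hr => mem_ro.2 ⟨(mem_ro.1 hr).1.mono f4, (mem_ro.1 hr).2⟩) fun n hn => by
      have c1 : (0 : ℝ) < n := by exact_mod_cast Nat.zero_lt_of_lt (mem_ro.1 hn).2.1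
      rw [abs_of_nonneg (by positivity)]
      exact one_div_le_one_div_of_le c1 (le_mul_of_one_le_left c1.le
        (by linarith [(by positivity : (0 : ℝ) ≤ omP z Y n)])))
  have hw : ∀ q : ℕ, 0 ≤ w0 (Real.log q / Real.log x) := fun q => (a3 _).1
  have g1 := gam_nonneg z Y (2 * x) a b hw
  have g2 := gam_nonneg z Y (2 * x) x (x + W) hw
  have u1 := tr_up (z := z) (Y := Y) (N := 2 * x) (x := x) (W := W) hw (by exact_mod_cast hx)
    (by exact_mod_cast W0) (fun v => (b3 v).2) b4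
  have u2 := tr_lo (z := z) (Y := Y) (N := 2 * x) hw hx H0 he2 he2' (t10.trans
    ((one_div_le hl0 he2).2 (by linarith))) h5 h6 (fun v => (b3 v).1)
    fun v c1 => b5 v (by linarith)
  rw [div_eq_mul_one_div 2]
  refine fin (by positivity) (by positivity) (by positivity) ?_ ?_ (key.trans ?_)
  · refine le_trans ?_ (mul_le_mul (add_le_add_right t10 1)
      (mul_le_mul t3 u2 (by positivity) (by linarith)) (by positivity) (by positivity))
    refine le_of_eq ?_
    field_simp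
  · refine (mul_le_mul_of_nonneg_left u1 (by linarith)).trans
      ((mul_le_mul_of_nonneg_right t2 (by positivity)).trans (le_trans (le_of_eq ?_)
        (mul_le_mul_of_nonneg_right (add_le_add_right t9 1) (by positivity))))
    field_simp
  · rw [← mul_div_assoc]
    gcongr
    have c1 : ε / (16 * u * M) * (4 * u) * M = ε / 4 := by field_simp; norm_num
    have c2 : CF * (ε / (4 * M * CF)) * M = ε / 4 := by field_simp
    have c3 := (le_div_iff₀ (by positivity)).1 hη2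
    have c4 : CF * (2 * v / v ^ 2) ^ 2 * (4 * u) * M ≤ ε / 4 := by
      have c5 := (div_le_iff₀ hε).1 (show 64 * u * CF * M / ε ≤ v ^ 2 by linarith)
      rw [show CF * (2 * v / v ^ 2) ^ 2 * (4 * u) * M = 16 * u * CF * M / v ^ 2 by
        field_simp; norm_num, div_le_iff₀ (by positivity)]
      linarith
    linarith

end Pool.Agent.P.MP_baf437_nt.SP
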