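import Pool.Agent.P.MP_baf437_nt.SP.Defs

/-! Upper bounds for sifted sets and for sums of reciprocals of primes. -/

open Finset

namespace Pool.Agent.P.MP_baf437_nt.SP

open Pool.Agent.P.MP_a14ce1_nt.Ch (ex nit cw rs)

namespace UpAux

theorem one (hSv : StSv) : ∃ C : ℝ, 0 < C ∧ ∀ z a b : ℕ, 2 ≤ z → a + z ^ 9 ≤ b →
    ((ro z a b).card : ℝ) ≤ C * ((b : ℝ) - a) / Real.log z := by
  obtain ⟨C, hC, hV, hS, -⟩ := hSv
  refine ⟨(1 + C) * C + 2, by positivity, fun z a b hz hab => ?_⟩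
  obtain ⟨hV0, hV1⟩ := hV z hz
  have h := (abs_le.1 (hS z 0 a b hz (by omega))).2
  have hz1 : (1 : ℝ) < z := by exact_mod_cast hz
  have hl : 0 < Real.log z := Real.log_pos hz1
  have hM : (z : ℝ) ^ 9 ≤ (b : ℝ) - a := by
    have : ((a + z ^ 9 : ℕ) : ℝ) ≤ b := by exact_mod_cast hab
    push_cast at this
    linarith
  have hM0 : 0 ≤ (b : ℝ) - a := le_trans (by positivity) hM
  have h8 : (z : ℝ) ^ 8 ≤ ((b : ℝ) - a) / Real.log z := by
    rw [le_div_iff₀ hl]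
    have h1 : Real.log z ≤ z := (Real.log_le_sub_one_of_pos (by linarith)).trans (by linarith)
    calc (z : ℝ) ^ 8 * Real.log z ≤ (z : ℝ) ^ 8 * z := by gcongr
      _ = (z : ℝ) ^ 9 := by ring
      _ ≤ _ := hM
  have h2 : ((b : ℝ) - a) * VV z ≤ ((b : ℝ) - a) * (C / Real.log z) := by gcongr
  have h3 : (1 + C) * (((b : ℝ) - a) * VV z) ≤ (1 + C) * (((b : ℝ) - a) * (C / Real.log z)) := by
    gcongr
  have e : ((1 + C) * C + 2) * ((b : ℝ) - a) / Real.log z =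
      (1 + C) * (((b : ℝ) - a) * (C / Real.log z)) + 2 * (((b : ℝ) - a) / Real.log z) := by
    ring
  simp only [pow_zero, div_one, mul_zero, zero_add] at h
  rw [e]
  linarith

theorem dyadic {C : ℝ} (h : ∀ z a b : ℕ, 2 ≤ z → a + z ^ 9 ≤ b →
    ((ro z a b).card : ℝ) ≤ C * ((b : ℝ) - a) / Real.log z) (z a : ℕ) (hz : 2 ≤ z)
    (ha : z ^ 9 ≤ a) (n : ℕ) : rs (ro z a (a * 2 ^ n)) ≤ n * (C / Real.log z) := by
  have ha0 : 0 < a := lt_of_lt_of_le (by positivity) ha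
  induction n with
  | zero => simp [ro, rs]
  | succ n ih =>
    have hle : a ≤ a * 2 ^ n := Nat.le_mul_of_pos_right _ (by positivity)
    have hsub : ro z a (a * 2 ^ (n + 1)) ⊆
        ro z a (a * 2 ^ n) ∪ ro z (a * 2 ^ n) (a * 2 ^ (n + 1)) := by
      intro m hm
      rw [mem_union, mem_ro, mem_ro]
      obtain ⟨h1, h2, h3⟩ := mem_ro.1 hm
      rcases le_or_gt m (a * 2 ^ n) with h4 | h4
      · exact Or.inl ⟨h1, h2, h4⟩
      · exact Or.inr ⟨h1, h4, h3⟩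
    have hp : (0 : ℝ) < ((a * 2 ^ n : ℕ) : ℝ) := by exact_mod_cast lt_of_lt_of_le ha0 hle
    have hc := h z (a * 2 ^ n) (a * 2 ^ (n + 1)) hz (by rw [pow_succ 2 n, ← mul_assoc]; omega)
    have e : ((a * 2 ^ (n + 1) : ℕ) : ℝ) - ((a * 2 ^ n : ℕ) : ℝ) = ((a * 2 ^ n : ℕ) : ℝ) := by
      push_cast
      ring
    rw [e] at hc
    have hb : rs (ro z (a * 2 ^ n) (a * 2 ^ (n + 1))) ≤ C / Real.log z := by
      calc rs (ro z (a * 2 ^ n) (a * 2 ^ (n + 1)))
          ≤ ∑ _m ∈ ro z (a * 2 ^ n) (a * 2 ^ (n + 1)), 1 / ((a * 2 ^ n : ℕ) : ℝ) :=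
            sum_le_sum fun m hm =>
              one_div_le_one_div_of_le hp (by exact_mod_cast (mem_ro.1 hm).2.1.le)
        _ = ((ro z (a * 2 ^ n) (a * 2 ^ (n + 1))).card : ℝ) / ((a * 2 ^ n : ℕ) : ℝ) := by
            rw [sum_const, nsmul_eq_mul, mul_one_div]
        _ ≤ C * ((a * 2 ^ n : ℕ) : ℝ) / Real.log z / ((a * 2 ^ n : ℕ) : ℝ) := by gcongr
        _ = C / Real.log z := by
            rw [div_right_comm, mul_div_assoc, div_self hp.ne', mul_one]
    calc rs (ro z a (a * 2 ^ (n + 1)))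
        ≤ rs (ro z a (a * 2 ^ n) ∪ ro z (a * 2 ^ n) (a * 2 ^ (n + 1))) :=
          sum_le_sum_of_subset_of_nonneg hsub fun _ _ _ => by positivity
      _ ≤ rs (ro z a (a * 2 ^ n)) + rs (ro z (a * 2 ^ n) (a * 2 ^ (n + 1))) := by
          unfold rs
          rw [← sum_union_inter]
          exact le_add_of_nonneg_right (sum_nonneg fun _ _ => by positivity)
      _ ≤ n * (C / Real.log z) + C / Real.log z := add_le_add ih hb
      _ = ((n + 1 : ℕ) : ℝ) * (C / Real.log z) := by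
          push_cast
          ring

theorem two {C : ℝ} (hC : 0 < C) (h : ∀ z a b : ℕ, 2 ≤ z → a + z ^ 9 ≤ b →
    ((ro z a b).card : ℝ) ≤ C * ((b : ℝ) - a) / Real.log z) (z a N : ℕ) (hz : 2 ≤ z)
    (ha : z ^ 9 ≤ a) : rs (ro z a N) ≤ 3 * C * Real.log N / Real.log z := by
  have hz1 : (1 : ℝ) < z := by exact_mod_cast hz
  have hl : 0 < Real.log z := Real.log_pos hz1
  have hN0 : 0 ≤ Real.log N := Real.log_natCast_nonneg N
  rcases le_or_gt N a with hN | hN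
  · have : ro z a N = ∅ := by rw [ro, Ioc_eq_empty (by omega), filter_empty]
    rw [this, rs, sum_empty]
    positivity
  have h9 : 2 ^ 9 ≤ z ^ 9 := Nat.pow_le_pow_left hz 9
  have hN4 : 4 ≤ N := by omega
  set n := Nat.log 2 N with hn
  have h1 : N < 2 ^ (n + 1) := Nat.lt_pow_succ_log_self (by norm_num) N
  have h2 : 2 ^ n ≤ N := Nat.pow_log_le_self 2 (by omega)
  have h3 : N ≤ a * 2 ^ (n + 1) := h1.le.trans (Nat.le_mul_of_pos_left _ (by omega))
  have hsub : ro z a N ⊆ ro z a (a * 2 ^ (n + 1)) := fun m hm =>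
    mem_ro.2 ⟨(mem_ro.1 hm).1, (mem_ro.1 hm).2.1, (mem_ro.1 hm).2.2.trans h3⟩
  have hl2 : (1 : ℝ) / 2 < Real.log 2 := by linarith [Real.log_two_gt_d9]
  have h4 : (n : ℝ) * Real.log 2 ≤ Real.log N := by
    rw [← Real.log_pow]
    exact Real.log_le_log (by positivity) (by exact_mod_cast h2)
  have h5 : 2 * Real.log 2 ≤ Real.log N := by
    have : Real.log ((2 : ℝ) ^ 2) ≤ Real.log N :=
      Real.log_le_log (by positivity) (by norm_num; exact_mod_cast hN4)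
    rwa [Real.log_pow, Nat.cast_ofNat] at this
  have h6 : ((n + 1 : ℕ) : ℝ) ≤ 3 * Real.log N := by
    push_cast
    nlinarith [Nat.cast_nonneg (α := ℝ) n]
  calc rs (ro z a N) ≤ rs (ro z a (a * 2 ^ (n + 1))) :=
        sum_le_sum_of_subset_of_nonneg hsub fun _ _ _ => by positivity
    _ ≤ ((n + 1 : ℕ) : ℝ) * (C / Real.log z) := dyadic h z a hz ha _
    _ ≤ 3 * Real.log N * (C / Real.log z) := by gcongr
    _ = 3 * C * Real.log N / Real.log z := by ring

theorem three (h2 : Pool.Agent.P.MP_a14ce1_nt.Ch.S_M2) : ∃ C : ℝ, 0 < C ∧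
    ∀ u v : ℕ, 2 ≤ u → u ≤ v → rs (pp u v) ≤ (Real.log v - Real.log u + C) / Real.log u := by
  obtain ⟨C, hC, h⟩ := h2
  refine ⟨2 * C, by positivity, fun u v hu huv => ?_⟩
  have hu1 : (1 : ℝ) < u := by exact_mod_cast hu
  have hl : 0 < Real.log u := Real.log_pos hu1
  have e : ∀ y : ℕ, Pool.Agent.P.MP_a14ce1_nt.Ch.pr 0 y = pp 0 y := fun y => by
    have := Pool.Agent.P.MP_a14ce1_nt.Ch.pr_nat 0 y
    rwa [Nat.cast_zero] at this
  have a1 := (abs_le.1 (h u hu1.le)).1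
  have a2 := (abs_le.1 (h v (hu1.le.trans (by exact_mod_cast huv)))).2
  rw [e] at a1 a2
  have hun : pp 0 v = pp 0 u ∪ pp u v := by
    ext p
    rw [mem_union, mem_pp, mem_pp, mem_pp]
    constructor
    · rintro ⟨h1, h2, h3⟩
      rcases le_or_gt p u with h4 | h4
      · exact Or.inl ⟨h1, h2, h4⟩
      · exact Or.inr ⟨h1, h4, h3⟩
    · rintro (⟨h1, h2, h3⟩ | ⟨h1, h2, h3⟩)
      · exact ⟨h1, h2, h3.trans huv⟩
      · exact ⟨h1, h1.pos, h3⟩
  have hdis : Disjoint (pp 0 u) (pp u v) := disjoint_left.2 fun p h1 h2 => by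
    have := (mem_pp.1 h1).2.2
    have := (mem_pp.1 h2).2.1
    omega
  rw [hun, sum_union hdis] at a2
  rw [le_div_iff₀ hl]
  have a3 : rs (pp u v) * Real.log u ≤ ∑ p ∈ pp u v, Real.log p / p := by
    rw [rs, sum_mul]
    refine sum_le_sum fun p hp => ?_
    have hp' : (u : ℝ) ≤ p := by exact_mod_cast (mem_pp.1 hp).2.1.le
    rw [one_div_mul_eq_div]
    gcongr
  linarith

end UpAux

theorem pUp (hSv : StSv) (h2 : Pool.Agent.P.MP_a14ce1_nt.Ch.S_M2) : StUp := by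
  obtain ⟨C, hC, h⟩ := UpAux.one hSv
  obtain ⟨D, hD, h'⟩ := UpAux.three h2
  refine ⟨3 * C + D, by positivity, fun z a b hz hab => (h z a b hz hab).trans ?_,
    fun z a N hz ha => (UpAux.two hC h z a N hz ha).trans ?_,
    fun u v hu huv => (h' u v hu huv).trans ?_⟩
  · have hl : 0 ≤ Real.log z := Real.log_natCast_nonneg z
    have hM : 0 ≤ (b : ℝ) - a := sub_nonneg.2 (by exact_mod_cast (by omega : a ≤ b))
    gcongr
    linarith
  · have hl : 0 ≤ Real.log z := Real.log_natCast_nonneg z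
    have hN : 0 ≤ Real.log N := Real.log_natCast_nonneg N
    gcongr
    linarith
  · have hl : 0 ≤ Real.log u := Real.log_natCast_nonneg u
    gcongr
    linarith

end Pool.Agent.P.MP_baf437_nt.SP
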