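import Pool.Agent.P.MP_baf437_nt.SP.Defs

/-! The number of cell vectors of residues is bounded through the Sauer-Shelah lemma. -/

open Finset

namespace Pool.Agent.P.MP_baf437_nt.SP

namespace VCAux

theorem geom_le (n j : ℕ) : ∑ k ∈ range (j + 1), n ^ k ≤ (n + 1) ^ j := by
  induction j with
  | zero => simp
  | succ j ih =>
    rw [sum_range_succ', pow_zero, pow_succ (n + 1)]
    have h1 : ∑ k ∈ range (j + 1), n ^ (k + 1) = (∑ k ∈ range (j + 1), n ^ k) * n := by
      rw [sum_mul]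
      exact sum_congr rfl fun k _ => pow_succ n k
    have h2 : 1 ≤ (n + 1) ^ j := Nat.one_le_pow _ _ (Nat.succ_pos n)
    rw [h1]
    nlinarith [Nat.mul_le_mul_right n ih]

theorem sauer {α : Type} [Fintype α] [DecidableEq α] (F : Finset (Finset α)) (j : ℕ)
    (h : ∀ T, F.Shatters T → T.card ≤ j) : F.card ≤ (Fintype.card α + 1) ^ j := by
  have h1 : F.vcDim ≤ j := Finset.sup_le fun T hT => h T (mem_shatterer.1 hT)
  refine (card_le_card_shatterer F).trans (card_shatterer_le_sum_vcDim.trans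
    (le_trans ?_ (geom_le _ j)))
  refine (sum_le_sum fun k _ => Nat.choose_le_pow _ k).trans (sum_le_sum_of_subset fun k hk => ?_)
  rw [mem_Iic] at hk
  rw [mem_range]
  omega

/-- A short integer relation between `j + 1` integers of size at most `X`. -/
theorem rel {j t X : ℕ} (hX : 2 * j * t * X + 1 < t ^ j) (m : Fin (j + 1) → ℕ)
    (hm : ∀ a, m a ≤ X) : ∃ v : Fin j → ℤ, v ≠ 0 ∧ (∀ a, |v a| < t) ∧
      ∑ a, v a * ((m a.succ : ℤ) - m 0) = 0 := by
  have hmap : ∀ u ∈ (univ : Finset (Fin j → Fin t)),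
      ∑ a, ((u a : ℕ) : ℤ) * ((m a.succ : ℤ) - m 0) ∈
        Icc (-((j * t * X : ℕ) : ℤ)) ((j * t * X : ℕ) : ℤ) := by
    intro u _
    rw [mem_Icc, ← abs_le]
    refine (abs_sum_le_sum_abs _ _).trans ?_
    refine (sum_le_card_nsmul _ _ ((t : ℤ) * X) fun a _ => ?_).trans (le_of_eq ?_)
    · rw [abs_mul, Nat.abs_cast]
      have h1 := hm a.succ
      have h2 := hm 0
      have h3 := (u a).2
      exact mul_le_mul (by omega) (abs_le.2 ⟨by omega, by omega⟩) (abs_nonneg _) (by positivity)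
    · simp [mul_assoc]
  obtain ⟨u, -, u', -, hne, he⟩ := exists_ne_map_eq_of_card_lt_of_maps_to (by
    rw [Int.card_Icc, card_univ, Fintype.card_fun, Fintype.card_fin, Fintype.card_fin]
    have : 2 * j * t * X = 2 * (j * t * X) := by ring
    omega) hmap
  refine ⟨fun a => ((u a : ℕ) : ℤ) - ((u' a : ℕ) : ℤ), fun h0 => hne (funext fun a => ?_),
    fun a => ?_, ?_⟩
  · have := congrFun h0 a
    simp only [Pi.zero_apply] at this
    exact Fin.ext (by omega)
  · have h1 := (u a).2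
    have h2 := (u' a).2
    beta_reduce
    exact abs_lt.2 ⟨by omega, by omega⟩
  · simp only [sub_mul (((u _ : ℕ)) : ℤ), sum_sub_distrib]
    exact sub_eq_zero.2 he

/-- The relation passes to the residues. -/
theorem rel_res {j t s q : ℕ} (hq : j * t * s ≤ q) (m e : Fin (j + 1) → ℕ) (v : Fin j → ℤ)
    (h0 : v ≠ 0) (hv : ∀ a, |v a| < t) (hr : ∑ a, v a * ((m a.succ : ℤ) - m 0) = 0)
    (he : ∀ a, e a < s ∧ (q : ℤ) ∣ (m a : ℤ) - e a) :
    ∑ a, v a * ((e a.succ : ℤ) - e 0) = 0 := by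
  have hd : (q : ℤ) ∣ ∑ a, v a * ((e a.succ : ℤ) - e 0) := by
    have h1 : ∑ a, v a * ((e a.succ : ℤ) - e 0) =
        ∑ a, v a * (((m 0 : ℤ) - e 0) - ((m a.succ : ℤ) - e a.succ)) := by
      rw [← add_zero (∑ a, v a * (((m 0 : ℤ) - e 0) - _)), ← hr, ← sum_add_distrib]
      exact sum_congr rfl fun a _ => by ring
    rw [h1]
    exact dvd_sum fun a _ => ((he 0).2.sub (he a.succ).2).mul_left _
  refine Int.eq_zero_of_abs_lt_dvd hd ((abs_sum_le_sum_abs _ _).trans_lt ?_)
  obtain ⟨a0, -⟩ := Function.ne_iff.1 h0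
  have h2 : ∑ a, |v a * ((e a.succ : ℤ) - e 0)| < ∑ _a : Fin j, (t : ℤ) * s := by
    refine sum_lt_sum_of_nonempty ⟨a0, mem_univ _⟩ fun a _ => ?_
    rw [abs_mul]
    have h1 := (he a.succ).1
    have h2 := (he 0).1
    exact mul_lt_mul'' (hv a) (abs_lt.2 ⟨by omega, by omega⟩) (abs_nonneg _) (abs_nonneg _)
  refine h2.trans_le ?_
  rw [sum_const, card_univ, Fintype.card_fin, nsmul_eq_mul, ← mul_assoc]
  exact_mod_cast hq

/-- A family in which any `j + 1` members are dependent is killed by a nonzero functional. -/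
theorem functional {ι τ : Type} [Fintype τ] {j : ℕ} (hj : j < Fintype.card τ) (w : ι → τ → ℚ)
    (h : ∀ m : Fin (j + 1) → ι, ¬ LinearIndependent ℚ (w ∘ m)) :
    ∃ c : τ → ℚ, c ≠ 0 ∧ ∀ i, ∑ x, c x * w i x = 0 := by
  classical
  have hlt : Submodule.span ℚ (Set.range w) < ⊤ := by
    rw [lt_top_iff_ne_top]
    intro htop
    obtain ⟨κ, a, -, hsp, hli⟩ := exists_linearIndependent' ℚ w
    have : Finite κ := hli.finite
    have : Fintype κ := Fintype.ofFinite κ
    have hc : Fintype.card κ = Fintype.card τ := by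
      rw [← finrank_span_eq_card hli, hsp, htop, finrank_top, Module.finrank_fintype_fun_eq_card]
    obtain ⟨f⟩ : Nonempty (Fin (j + 1) ↪ κ) :=
      Function.Embedding.nonempty_of_card_le (by rw [Fintype.card_fin]; omega)
    exact h (a ∘ f) (hli.comp f f.injective)
  obtain ⟨φ, h0, hφ⟩ := Submodule.exists_le_ker_of_lt_top _ hlt
  refine ⟨fun x => φ fun y => if x = y then 1 else 0, fun e => h0 ?_, fun i => ?_⟩
  · refine LinearMap.ext fun z => ?_
    rw [LinearMap.pi_apply_eq_sum_univ]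
    exact sum_eq_zero fun x _ => by rw [show (φ fun y => if x = y then 1 else 0) = 0 from
      congrFun e x, smul_zero]
  · have h1 : φ (w i) = 0 := hφ (Submodule.subset_span ⟨i, rfl⟩)
    rw [LinearMap.pi_apply_eq_sum_univ] at h1
    exact (sum_congr rfl fun x _ => by rw [smul_eq_mul, mul_comm]).trans h1

end VCAux

open VCAux in
theorem pVC : StVC := by
  intro r J j t s σ X Q S q e hS hq hσ hQ hX hs
  classical
  let A : (Fin r → ℕ) → Finset (Fin r × Fin J) := fun c => univ.filter fun x => x.2.1 + 1 ≤ c x.1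
  have hinj : Set.InjOn A (S.image fun m => fun l => e m l / σ : Finset (Fin r → ℕ)) := by
    have hb : ∀ c ∈ (S.image fun m => fun l => e m l / σ : Finset (Fin r → ℕ)), ∀ l, c l < J := by
      intro c hc l
      obtain ⟨m, hm, rfl⟩ := mem_image.1 hc
      exact (Nat.div_lt_iff_lt_mul hσ).2 (((hS m hm).2 l).1.trans_le hs)
    intro c hc c' hc' h
    funext l
    have h1 : ((l, ⟨c l, hb c hc l⟩) : Fin r × Fin J) ∈ A c ↔ (l, ⟨c l, hb c hc l⟩) ∈ A c' := by
      rw [h]
    have h2 : ((l, ⟨c' l, hb c' hc' l⟩) : Fin r × Fin J) ∈ A c ↔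
        (l, ⟨c' l, hb c' hc' l⟩) ∈ A c' := by rw [h]
    simp only [A, mem_filter, mem_univ, true_and] at h1 h2
    omega
  rw [← card_image_of_injOn hinj]
  refine (sauer _ j fun T hT => ?_).trans (by simp)
  by_contra hlt
  obtain ⟨c, hc0, hc⟩ := functional (τ := T) (j := j) (by simpa using hlt)
    (fun (m : S) (x : T) => (e m x.1.1 : ℚ) - ((x.1.2.1 + 1) * σ : ℕ) + 1 / 2) (fun m hli => by
      obtain ⟨v, h0, hv, hr⟩ := rel hX (fun a => (m a).1) fun a => (hS _ (m a).2).1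
      have h1 := Fintype.linearIndependent_iff.1 hli
        (Fin.cons (-∑ a, (v a : ℚ)) fun a => (v a : ℚ)) (by
          funext x
          have h2 := rel_res (hQ.trans (hq x.1.1)) (fun a => (m a).1)
            (fun a => e (m a).1 x.1.1) v h0 hv hr fun a => (hS _ (m a).2).2 x.1.1
          have h3 : ∑ a, (v a : ℚ) * ((e (m a.succ).1 x.1.1 : ℚ) - e (m 0).1 x.1.1) = 0 := by
            exact_mod_cast h2
          rw [Finset.sum_apply, Fin.sum_univ_succ, Pi.zero_apply, ← h3]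
          simp only [Fin.cons_zero, Fin.cons_succ, Pi.smul_apply, Function.comp_apply,
            smul_eq_mul, neg_mul, sum_mul, ← sum_neg_distrib, ← sum_add_distrib]
          exact sum_congr rfl fun a _ => by ring)
      refine h0 (funext fun a => ?_)
      have h4 := h1 a.succ
      rw [Fin.cons_succ] at h4
      exact_mod_cast h4)
  obtain ⟨u, hu, hTu⟩ := hT (t := T.filter fun x => ∃ h : x ∈ T, 0 < c ⟨x, h⟩) (filter_subset _ _)
  obtain ⟨_, hcm, rfl⟩ := mem_image.1 hu
  obtain ⟨m, hm, rfl⟩ := mem_image.1 hcm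
  have hsign : ∀ x : T, (x.1.2.1 + 1) * σ ≤ e m x.1.1 ↔ 0 < c x := by
    intro x
    have h1 := Finset.ext_iff.1 hTu x.1
    simp only [A, mem_inter, mem_filter, mem_univ, true_and, x.2, exists_true_left] at h1
    rw [← Nat.le_div_iff_mul_le hσ]
    exact h1
  have hpos : ∀ x : T, c x ≠ 0 →
      0 < c x * ((e m x.1.1 : ℚ) - ((x.1.2.1 + 1) * σ : ℕ) + 1 / 2) := by
    intro x hx
    by_cases h : 0 < c x
    · have h1 : (((x.1.2.1 + 1) * σ : ℕ) : ℚ) ≤ e m x.1.1 := by exact_mod_cast (hsign x).2 h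
      exact mul_pos h (by linarith)
    · have h1 : e m x.1.1 + 1 ≤ (x.1.2.1 + 1) * σ := by
        have := (hsign x).not.2 h
        omega
      have h2 : (e m x.1.1 : ℚ) + 1 ≤ (((x.1.2.1 + 1) * σ : ℕ) : ℚ) := by exact_mod_cast h1
      exact mul_pos_of_neg_of_neg (lt_of_le_of_ne (not_lt.1 h) hx) (by linarith)
  obtain ⟨x0, hx0⟩ := Function.ne_iff.1 hc0
  refine absurd (hc ⟨m, hm⟩) (ne_of_gt (sum_pos' (fun x _ => ?_) ⟨x0, mem_univ _, hpos x0 hx0⟩))
  by_cases h : c x = 0
  · rw [h, zero_mul]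
  · exact (hpos x h).le

end Pool.Agent.P.MP_baf437_nt.SP
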