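import Pool.Agent.P.MP_baf437_nt.SP.Defs
import Pool.Agent.P.MP_a14ce1_nt.Ch.HOne
import Pool.Agent.P.MP_a14ce1_nt.Ch.RxSmall

/-! The smooth Dirichlet polynomial over primes is small away from the origin. -/

open Finset MeasureTheory ArithmeticFunction

namespace Pool.Agent.P.MP_baf437_nt.SP

open Pool.Agent.P.MP_a14ce1_nt.Ch (ex nit cw rs)
open Pool.Agent.P.MP_a14ce1_nt

namespace WAux

/-- The sifted von Mangoldt function. -/
noncomputable def ff (y n : ℕ) : ℂ :=
  Ch.rc (1 : DirichletCharacter ℂ 1) y n * ((vonMangoldt n : ℝ) : ℂ)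

theorem norm_ff_le (y n : ℕ) : ‖ff y n‖ ≤ vonMangoldt n := by
  unfold ff
  rw [norm_mul, Complex.norm_real, Real.norm_of_nonneg vonMangoldt_nonneg]
  exact mul_le_of_le_one_left vonMangoldt_nonneg (Ch.HOne.norm_rc_le _ y n)

theorem norm_term_le (y : ℕ) (σ t : ℝ) (n : ℕ) :
    ‖LSeries.term (ff y) (σ + t * Complex.I) n‖ ≤ vonMangoldt n / (n : ℝ) ^ σ := by
  rcases eq_or_ne n 0 with rfl | hn
  · simp
  · rw [Ch.HOne.norm_term _ _ hn]
    exact div_le_div_of_nonneg_right (norm_ff_le y n) (by positivity)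

theorem L_eq (y : ℕ) {σ : ℝ} (hσ : 1 < σ) (t : ℝ) :
    LSeries (ff y) (σ + t * Complex.I) =
      -deriv (LSeries (Ch.rc (1 : DirichletCharacter ℂ 1) y)) (σ + t * Complex.I) /
        LSeries (Ch.rc (1 : DirichletCharacter ℂ 1) y) (σ + t * Complex.I) := by
  have h := DirichletCharacter.LSeries_twist_vonMangoldt_eq
    (DirichletCharacter.changeLevel (dvd_mul_right 1 (primorial y))
      (1 : DirichletCharacter ℂ 1))
    (s := σ + t * Complex.I) (by simpa using hσ)
  rw [Ch.HOne.rc_eq] at h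
  rw [← h]
  rfl

theorem L_near (hR : Ch.S_RoughL) : ∃ C : ℝ, 0 < C ∧ ∃ y0 : ℕ, ∀ y : ℕ, y0 ≤ y →
    ∀ σ t : ℝ, 1 < σ → σ ≤ 1 + 1 / Real.log y → 1 ≤ |t| → |t| ≤ y + 1 →
      ‖LSeries (ff y) (σ + t * Complex.I)‖ ≤ C * Real.log y := by
  obtain ⟨C0, hC0, h⟩ := hR 1
  set C : ℝ := C0 + 1 with hC
  have hC1 : 1 ≤ C := by linarith
  set c : ℝ := (1 / (4 * C ^ 2)) ^ 3 / (4 * C) with hc
  have hc0 : 0 < c := by positivity
  obtain ⟨y0, hy0⟩ := h 2
  refine ⟨C / c, by positivity, max y0 3, fun y hy σ t h1 h2 ht1 ht2 => ?_⟩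
  have hy3 : 3 ≤ y := le_of_max_le_right hy
  have hy3' : (3 : ℝ) ≤ y := by exact_mod_cast hy3
  have hR := hy0 y (le_of_max_le_left hy)
  have hl : 1 ≤ Real.log y := by
    rw [Real.le_log_iff_exp_le (by positivity)]
    linarith [Real.exp_one_lt_d9]
  have ht3 : |t| ≤ (y : ℝ) ^ 2 := by nlinarith
  have ht4 : |2 * t| ≤ (y : ℝ) ^ 2 := by
    rw [abs_mul, abs_two]; nlinarith
  have ht5 : 1 ≤ |2 * t| := by rw [abs_mul, abs_two]; linarith
  have hD : ∀ σ : ℝ, 1 < σ → σ ≤ 2 →
      ‖deriv (LSeries (Ch.rc (1 : DirichletCharacter ℂ 1) y)) (σ + t * Complex.I)‖ ≤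
        C * Real.log y := fun σ a1 a2 =>
    (((hR 1 σ t a1 a2 ht3).2 ht1).2).trans (by gcongr; linarith)
  have hlow : c ≤ ‖LSeries (Ch.rc (1 : DirichletCharacter ℂ 1) y) (σ + t * Complex.I)‖ :=
    Ch.HOne.lower 1 y hC1 hl
      (fun τ a3 a4 => ((hR 1 τ 0 a3 a4 (by simp)).1).trans (by
        have : 0 < τ - 1 := by linarith
        gcongr; linarith))
      (fun τ a3 a4 => (((hR (1 ^ 2) τ (2 * t) a3 a4 ht4).2 ht5).1).trans (by linarith))
      hD h1 h2
  have hl1 : 1 / Real.log y ≤ 1 := by rw [div_le_one (by linarith)]; exact hl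
  rw [L_eq y h1, norm_div, norm_neg, show C / c * Real.log y = C * Real.log y / c by ring]
  exact div_le_div₀ (by positivity) (hD σ h1 (by linarith)) hc0 hlow

theorem smooth_g {w : ℝ → ℝ} {α : ℝ} (hw : ContDiff ℝ 2 w) (hα : 0 < α)
    (h0 : ∀ v ≤ α, w v = 0) : ContDiff ℝ 2 fun v => w v * (Real.exp v / v) := by
  rw [contDiff_iff_contDiffAt]
  intro v
  rcases lt_or_ge v α with h | h
  · refine (contDiffAt_const (c := (0 : ℝ))).congr_of_eventuallyEq ?_
    filter_upwards [Iio_mem_nhds h] with x hx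
    rw [h0 x (le_of_lt hx), zero_mul]
  · exact hw.contDiffAt.mul
      (Real.contDiff_exp.contDiffAt.div contDiffAt_id (by show v ≠ 0; linarith [h, hα] ))

/-- The smoothed sum over all integers. -/
theorem smooth_sum (hF : Ch.S_Fourier) (hR : Ch.S_RoughL) (h6 : Ch.S_M6) {g : ℝ → ℝ}
    (hg : ContDiff ℝ 2 g) (hc : HasCompactSupport g) :
    ∃ C : ℝ, 0 < C ∧ ∃ y0 : ℕ, ∀ (l : ℝ) (y : ℕ) (t : ℝ), 1 ≤ l → y0 ≤ y → Real.log y ≤ l →
      2 ≤ |t| → |t| ≤ y →
      ‖∑' m : ℕ, ff y m * ((g (Real.log m / l) * Real.exp (-(Real.log m / l)) / m : ℝ) : ℂ) *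
        nit t m‖ ≤ C * Real.log y + C := by
  obtain ⟨Θ, C, hC, hΘ, hb, hinv, -⟩ := hF g hg hc
  obtain ⟨C2, hC2, y0, h2⟩ := L_near hR
  obtain ⟨C6, hC6, h6⟩ := h6
  refine ⟨C * C2 * Real.pi + 4 * C * C6 * Real.pi, by positivity, max y0 2,
    fun x y s hx1 hy hyx hs1 hs2 => ?_⟩
  have hy2 : (2 : ℝ) ≤ y := by exact_mod_cast le_of_max_le_right hy
  have hly : 0 < Real.log y := Real.log_pos (by linarith)
  have hx0 : 0 < x := by linarith
  have hη : 0 < 1 / x := by positivity
  have hη1 : 1 / x ≤ 1 := (div_le_one hx0).2 hx1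
  have hΘi : Integrable Θ :=
    ((Ch.integrable_cw one_pos).const_mul C).mono' hΘ.aestronglyMeasurable
      (Filter.Eventually.of_forall hb)
  let F : ℕ → ℝ → ℂ := fun m u =>
    Θ u * LSeries.term (ff y) ((1 + 1 / x : ℝ) + (s + u / x : ℝ) * Complex.I) m
  have hFn : ∀ m u, ‖F m u‖ ≤ ‖Θ u‖ * (vonMangoldt m / (m : ℝ) ^ (1 + 1 / x)) := fun m u => by
    rw [norm_mul]
    exact mul_le_mul_of_nonneg_left (norm_term_le y _ _ m) (norm_nonneg _)
  have hFi : ∀ m, Integrable (F m) := fun m => by
    refine (hΘi.norm.mul_const _).mono' (Continuous.aestronglyMeasurable ?_)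
      (Filter.Eventually.of_forall (hFn m))
    rcases eq_or_ne m 0 with rfl | hm
    · simpa [F] using continuous_const
    · simp only [F, Ch.RxSmall.term_eq (ff y) _ _ hm]
      exact hΘ.mul (continuous_const.mul ((Ch.continuous_nit _).comp (by fun_prop)))
  have hnn : ∀ m : ℕ, 0 ≤ vonMangoldt m / (m : ℝ) ^ (1 + 1 / x) := fun m =>
    div_nonneg vonMangoldt_nonneg (by positivity)
  have hrange := Ch.HOne.sum_vm_le (h6 _ hη hη1)
  have hs0 : Summable fun m : ℕ => vonMangoldt m / (m : ℝ) ^ (1 + 1 / x) :=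
    summable_of_sum_range_le hnn hrange
  have hsum : Summable fun m => ∫ u, ‖F m u‖ :=
    Summable.of_nonneg_of_le (fun m => integral_nonneg fun u => norm_nonneg _)
      (fun m => by
        rw [← integral_mul_const]
        exact integral_mono (hFi m).norm (hΘi.norm.mul_const _) (hFn m))
      (hs0.mul_left (∫ u, ‖Θ u‖))
  have hI : ∀ m, ∫ u, F m u = ff y m *
      ((g (Real.log m / x) * Real.exp (-(Real.log m / x)) / m : ℝ) : ℂ) * nit s m := by
    intro m
    rcases eq_or_ne m 0 with rfl | hm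
    · simp [F]
    · have hm0 : (0 : ℝ) < m := by positivity
      have e1 : ∀ u, F m u = ff y m * (Real.exp (-((1 + 1 / x) * Real.log m)) : ℝ) * nit s m *
          (Θ u * ex (-(u * (Real.log m / x)))) := fun u => by
        simp only [F, Ch.RxSmall.term_eq (ff y) _ _ hm, Ch.nit_add]
        rw [show nit (u / x) m = ex (-(u * (Real.log m / x))) by
          unfold nit; congr 1; ring]
        ring
      simp only [e1]
      rw [integral_const_mul, ← hinv]
      have e2 : g (Real.log m / x) * Real.exp (-(Real.log m / x)) / m =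
          Real.exp (-((1 + 1 / x) * Real.log m)) * g (Real.log m / x) := by
        rw [show -((1 + 1 / x) * Real.log m) = -(Real.log m / x) + -Real.log m by ring,
          Real.exp_add, Real.exp_neg (Real.log m), Real.exp_log hm0]
        ring
      rw [e2]
      push_cast
      ring
  have h3 := integral_tsum_of_summable_integral_norm hFi hsum
  simp only [hI] at h3
  simp only [F, tsum_mul_left] at h3
  rw [h3]
  have hint : Integrable fun u => C * (C2 * Real.log y) * cw 1 u + 4 * C * C6 / x * cw x u :=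
    ((Ch.integrable_cw one_pos).const_mul _).add ((Ch.integrable_cw hx0).const_mul _)
  refine (norm_integral_le_of_norm_le hint (Filter.Eventually.of_forall fun u => ?_)).trans ?_
  · rw [norm_mul]
    have c1 := Ch.cw_pos 1 u
    have c2 := Ch.cw_pos x u
    rcases le_or_gt |u| x with hu | hu
    · have h4 : |u / x| ≤ 1 := by
        rw [abs_div, abs_of_pos hx0]
        exact (div_le_one hx0).2 hu
      have h5 : |s + u / x| ≤ y + 1 := (abs_add_le _ _).trans (by linarith)
      have h7 : 1 ≤ |s + u / x| := by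
        have := abs_sub_abs_le_abs_add s (u / x)
        linarith
      have h8 := h2 y (le_of_max_le_left hy) (1 + 1 / x) (s + u / x) (by linarith)
        (by have := one_div_le_one_div_of_le hly hyx; linarith) h7 h5
      have h9 := mul_le_mul (hb u) h8 (norm_nonneg _) (by positivity)
      have h10 : 0 ≤ 4 * C * C6 / x * cw x u := by positivity
      calc _ ≤ C * cw 1 u * (C2 * Real.log y) := h9
        _ ≤ _ := by linarith
    · have h4 : ‖∑' m, LSeries.term (ff y) ((1 + 1 / x : ℝ) + (s + u / x : ℝ) * Complex.I) m‖ ≤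
          C6 / (1 / x) :=
        (tsum_of_norm_bounded hs0.hasSum (norm_term_le y _ _)).trans
          (Real.tsum_le_of_sum_range_le hnn hrange)
      rw [div_div_eq_mul_div, div_one] at h4
      have h5 := mul_le_mul (hb u) h4 (norm_nonneg _) (by positivity)
      have h6 : cw 1 u * x ≤ 4 / x * cw x u := by
        have h7 : x ^ 2 ≤ u ^ 2 := by
          rw [← sq_abs u]; exact pow_le_pow_left₀ hx0.le hu.le 2
        unfold cw
        rw [show 4 / x * (1 / (1 + (u / x) ^ 2)) = 4 * x / (x ^ 2 + u ^ 2) by field_simp, div_one,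
          one_div_mul_eq_div, div_le_div_iff₀ (by positivity) (by positivity)]
        nlinarith [sq_nonneg u]
      have h7 := mul_le_mul_of_nonneg_left h6 (mul_pos hC hC6).le
      have h8 : 0 ≤ C * (C2 * Real.log y) * cw 1 u := by positivity
      have h9 : 4 * C * C6 / x * cw x u = C * C6 * (4 / x * cw x u) := by ring
      calc _ ≤ C * cw 1 u * (C6 * x) := h5
        _ ≤ _ := by linarith
  · rw [integral_add ((Ch.integrable_cw one_pos).const_mul _)
      ((Ch.integrable_cw hx0).const_mul _), integral_const_mul, integral_const_mul,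
      Ch.integral_cw one_pos, Ch.integral_cw hx0]
    have e : 4 * C * C6 / x * (Real.pi * x) = 4 * C * C6 * Real.pi := by field_simp
    have p1 : 0 ≤ 4 * C * C6 * Real.pi * Real.log y := by positivity
    have p2 : 0 ≤ C * C2 * Real.pi := by positivity
    rw [e]
    nlinarith

end WAux

open WAux in
theorem pW (hF : Ch.S_Fourier) (hR : Ch.S_RoughL) (h6 : Ch.S_M6) : StW := by
  intro w α hw hc hα hα1 h0
  obtain ⟨C, hC, y0, h⟩ := smooth_sum hF hR h6 (smooth_g hw hα h0) hc.mul_right
  obtain ⟨W, hW⟩ := hw.continuous.bounded_above_of_compact_support hc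
  have hW0 : 0 ≤ W := (norm_nonneg _).trans (hW 0)
  set S : ℝ := ∑' n, Ch.HOne.np n with hS
  have hS0 : 0 ≤ S := tsum_nonneg Ch.HOne.np_nonneg
  refine ⟨C, hC, fun δ hδ => ⟨max 1 ((C + W / α * S) / δ), max y0 1,
    fun l y P t hl hy hyl hP hP' ht1 ht2 => ?_⟩⟩
  have hl1 : 1 ≤ l := le_of_max_le_left hl
  have hl0 : 0 < l := by linarith
  have hy1 : (1 : ℝ) ≤ y := by exact_mod_cast le_of_max_le_right hy
  have h1 := h l y t hl1 (le_of_max_le_left hy) (by nlinarith) ht1 ht2
  set G : ℕ → ℂ := fun m => ff y m * ((w (Real.log m / l) *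
    (Real.exp (Real.log m / l) / (Real.log m / l)) * Real.exp (-(Real.log m / l)) / m : ℝ) : ℂ) *
      nit t m with hG
  set H : ℕ → ℂ := fun m =>
    if m ∈ P then ((w (Real.log m / l) / m : ℝ) : ℂ) * nit t m else 0 with hH
  have hH0 : ∀ n ∉ P, H n = 0 := fun n hn => if_neg hn
  have hHs : Summable H := summable_of_ne_finset_zero hH0
  have e1 : dp P (fun q => w (Real.log q / l) / q) t = ∑' n, H n := by
    rw [tsum_eq_sum hH0]
    exact sum_congr rfl fun p hp => (if_pos hp).symm
  have key : ∀ n, ‖G n - l * H n‖ ≤ W / α * Ch.HOne.np n := by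
    intro n
    have p0 : 0 ≤ W / α * Ch.HOne.np n := mul_nonneg (by positivity) (Ch.HOne.np_nonneg n)
    by_cases hw0 : w (Real.log n / l) = 0
    · have : G n - l * H n = 0 := by simp [hG, hH, hw0]
      rw [this, norm_zero]
      exact p0
    have a1 : α < Real.log n / l := lt_of_not_ge fun a => hw0 (h0 _ a)
    have a2 : α * l < Real.log n := (lt_div_iff₀ hl0).1 a1
    have a3 : 0 < Real.log n := lt_trans (by positivity) a2
    have hn : n ≠ 0 := by
      rintro rfl
      simp at a3
    have hn0 : (0 : ℝ) < n := by positivity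
    have e2 : w (Real.log n / l) * (Real.exp (Real.log n / l) / (Real.log n / l)) *
        Real.exp (-(Real.log n / l)) / n = w (Real.log n / l) / (Real.log n / l) / n := by
      rw [Real.exp_neg]
      field_simp
    by_cases hp : n.Prime
    · have a4 : y < n := by
        have := (Real.log_lt_log_iff (by linarith) hn0).1 (lt_of_le_of_lt hyl a2)
        exact_mod_cast this
      have hcop : Nat.Coprime n (primorial y) :=
        (Nat.Prime.coprime_iff_not_dvd hp).2 (fun h7 => by
          have := hp.dvd_primorial_iff.1 h7; omega)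
      have e3 : ff y n = ((Real.log n : ℝ) : ℂ) := by
        unfold ff Ch.rc
        rw [if_pos hcop, vonMangoldt_apply_prime hp,
          MulChar.one_apply (isUnit_of_subsingleton _), one_mul]
      have e4 : Real.log n * (w (Real.log n / l) / (Real.log n / l) / n) =
          l * (w (Real.log n / l) / n) := by field_simp
      have : G n - l * H n = 0 := by
        simp only [hG, hH, if_pos (hP' n hp hw0), e2, e3]
        rw [← Complex.ofReal_mul, e4]
        push_cast
        ring
      rw [this, norm_zero]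
      exact p0
    · rw [hH0 n fun a => hp (hP n a), mul_zero, sub_zero]
      simp only [hG, e2]
      rw [norm_mul, norm_mul, Ch.norm_nit, mul_one, Complex.norm_real, norm_div, norm_div,
        Real.norm_of_nonneg hn0.le, Real.norm_of_nonneg (hα.trans a1).le]
      unfold Ch.HOne.np
      rw [if_neg hp]
      calc ‖ff y n‖ * (‖w (Real.log n / l)‖ / (Real.log n / l) / n)
          ≤ vonMangoldt n * (W / α / n) := by
            have b1 := norm_ff_le y n
            have b2 : ‖w (Real.log n / l)‖ / (Real.log n / l) ≤ W / α :=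
              div_le_div₀ hW0 (hW _) hα a1.le
            have b3 : 0 ≤ ‖w (Real.log n / l)‖ / (Real.log n / l) / n := by positivity
            exact mul_le_mul b1 (div_le_div_of_nonneg_right b2 hn0.le) b3 vonMangoldt_nonneg
        _ = _ := by ring
  have hb : Summable fun n => W / α * Ch.HOne.np n := Ch.HOne.summable_np.mul_left _
  have hr : Summable fun n => G n - l * H n := Summable.of_norm_bounded hb key
  have h2 : ‖∑' n, (G n - l * H n)‖ ≤ W / α * S := by
    refine (tsum_of_norm_bounded hb.hasSum key).trans (le_of_eq ?_)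
    rw [tsum_mul_left]
  have e5 : (l : ℂ) * ∑' n, H n = ∑' n, G n - ∑' n, (G n - l * H n) := by
    rw [eq_sub_iff_add_eq, ← tsum_mul_left, ← (hHs.mul_left (l : ℂ)).tsum_add hr]
    exact tsum_congr fun n => by ring
  have h3 : l * ‖∑' n, H n‖ ≤ C * Real.log y + C + W / α * S := by
    have := norm_sub_le (∑' n, G n) (∑' n, (G n - l * H n))
    rw [← e5, norm_mul, Complex.norm_real, Real.norm_of_nonneg hl0.le] at this
    linarith
  have h4 : C + W / α * S ≤ l * δ := (div_le_iff₀ hδ).1 (le_of_max_le_right hl)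
  rw [e1, show C * Real.log y / l + δ = (C * Real.log y + l * δ) / l by field_simp,
    le_div_iff₀ hl0]
  linarith

end Pool.Agent.P.MP_baf437_nt.SP
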