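import Pool.Agent.P.MP_baf437_nt.SP.Sv
import Pool.Agent.P.MP_baf437_nt.SP.Up
import Pool.Agent.P.MP_baf437_nt.SP.Id
import Pool.Agent.P.MP_baf437_nt.SP.MS
import Pool.Agent.P.MP_baf437_nt.SP.W
import Pool.Agent.P.MP_baf437_nt.SP.F
import Pool.Agent.P.MP_baf437_nt.SP.PN
import Pool.Agent.P.MP_baf437_nt.SP.Tr
import Pool.Agent.P.MP_baf437_nt.SP.HO
import Pool.Agent.P.MP_baf437_nt.SP.VC
import Pool.Agent.P.MP_baf437_nt.SP.B
import Pool.Agent.P.MP_baf437_nt.SP.DD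
import Pool.Agent.P.MP_baf437_nt.SP.Gap
import Pool.Agent.P.MP_baf437_nt.SP.R3
import Pool.Agent.P.MP_baf437_nt.SP.R5
import Pool.Agent.P.MP_baf437_nt.SP.Sum
import Pool.Agent.P.MP_baf437_nt.Sylv
import Pool.Agent.P.MP_0ad054_nt.An.All
import Pool.Agent.P.MP_a14ce1_nt.Ch.Sieve
import Pool.Agent.P.MP_a14ce1_nt.Ch.Mertens
import Pool.Agent.P.MP_a14ce1_nt.Ch.Cauchy
import Pool.Agent.P.MP_a14ce1_nt.Ch.Rough
import Pool.Agent.P.MP_a14ce1_nt.Ch.RoughL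
import Pool.Agent.P.MP_a14ce1_nt.Ch.VdC

/-! Assembly of all pieces. -/

namespace Pool.Agent.P.MP_baf437_nt.SP

open Pool.Agent.P.MP_a14ce1_nt.Ch (sieve m1 m2 m6 cauchy fourier rough roughL vdc)

theorem sv_all : StSv := pSv sieve m1

theorem up_all : StUp := pUp sv_all m2

/-- Primes in short intervals. -/
theorem ho_all : StHO :=
  pHO (pTr (pW fourier (roughL (rough m1 sieve vdc)) m6) (pF fourier) (pMS cauchy up_all) up_all)
    pId sv_all up_all (pPN Pool.Agent.P.MP_0ad054_nt.An.pnt_all)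

theorem r3_all : StR3 := pR3 ho_all pTy (pGap pDD) Pool.Agent.P.MP_baf437_nt.sylv

theorem sum_all : StSum := pSum r3_all (pR5 ho_all pTy (pB pVC))

end Pool.Agent.P.MP_baf437_nt.SP
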