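import Pool.Agent.P.MP_baf437_nt.SP.Defs

/-! Divided differences of `1 / x` and `1 / x ^ 2`. -/

open Finset

namespace Pool.Agent.P.MP_baf437_nt.SP

namespace DDAux

theorem pf (s : Finset ℕ) (hs : s.Nonempty) (y : ℝ) (hy : ∀ x ∈ s, y ≠ (x : ℝ)) :
    ∑ x ∈ s, (∏ z ∈ s.erase x, ((x : ℝ) - z))⁻¹ * (y - x)⁻¹ = ∏ x ∈ s, (y - x)⁻¹ := by
  have h := Lagrange.eval_interpolate_not_at_node (s := s) (v := fun x : ℕ => (x : ℝ)) 1 hy
  rw [Lagrange.interpolate_one (fun a _ b _ e => Nat.cast_injective e) hs, Polynomial.eval_one,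
    Lagrange.eval_nodal] at h
  have h0 : ∏ x ∈ s, (y - (x : ℝ)) ≠ 0 := prod_ne_zero_iff.2 fun x hx => sub_ne_zero.2 (hy x hx)
  rw [prod_inv_distrib]
  refine eq_inv_of_mul_eq_one_right (h.trans ?_).symm
  refine congrArg _ (sum_congr rfl fun x _ => ?_)
  simp [Lagrange.nodalWeight]

theorem abs_prod_neg (s : Finset ℕ) : |∏ x ∈ s, (0 - (x : ℝ))⁻¹| = (∏ x ∈ s, (x : ℝ))⁻¹ := by
  rw [abs_prod, ← prod_inv_distrib]
  exact prod_congr rfl fun x _ => by simp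

end DDAux

theorem pDD : StDD := by
  intro s hs h0
  have h1 : ∀ x ∈ s, (1 : ℝ) ≤ x := fun x hx =>
    Nat.one_le_cast.2 (Nat.one_le_iff_ne_zero.2 fun e => h0 (e ▸ hx))
  have hy : ∀ y : ℝ, y < 1 → ∀ x ∈ s, y ≠ (x : ℝ) := fun y h x hx => (h.trans_le (h1 x hx)).ne
  constructor
  · rw [← DDAux.abs_prod_neg, ← DDAux.pf s hs 0 (hy 0 one_pos), ← abs_neg, ← sum_neg_distrib]
    exact congrArg _ (sum_congr rfl fun x _ => by simp)
  · have hd : ∀ x ∈ s, HasDerivAt (fun y : ℝ => (y - x)⁻¹) (-(1 / (x : ℝ) ^ 2)) 0 := by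
      intro x hx
      have := ((hasDerivAt_id (0 : ℝ)).sub_const (x : ℝ)).fun_inv
        (sub_ne_zero.2 (hy 0 one_pos x hx))
      refine this.congr_deriv ?_
      simp [neg_div]
    have hF := HasDerivAt.fun_sum fun x hx =>
      (hd x hx).const_mul (∏ z ∈ s.erase x, ((x : ℝ) - z))⁻¹
    have hG := HasDerivAt.fun_finsetProd hd
    have he : (fun y : ℝ => ∑ x ∈ s, (∏ z ∈ s.erase x, ((x : ℝ) - z))⁻¹ * (y - x)⁻¹) =ᶠ[nhds 0]
        fun y => ∏ x ∈ s, (y - x)⁻¹ :=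
      (eventually_lt_nhds one_pos).mono fun y h => DDAux.pf s hs y (hy y h)
    have hu := hF.unique (hG.congr_of_eventuallyEq he)
    have h2 : ∑ x ∈ s, (∏ z ∈ s.erase x, (0 - (z : ℝ))⁻¹) • (-(1 / (x : ℝ) ^ 2)) =
        (∑ x ∈ s, 1 / (x : ℝ)) * ∏ x ∈ s, (0 - (x : ℝ))⁻¹ := by
      rw [sum_mul]
      refine sum_congr rfl fun x hx => ?_
      rw [← mul_prod_erase s _ hx, smul_eq_mul, zero_sub, inv_neg]
      ring
    rw [h2] at hu
    rw [← abs_neg, ← sum_neg_distrib, ← DDAux.abs_prod_neg,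
      ← abs_of_nonneg (sum_nonneg fun x _ => by positivity : 0 ≤ ∑ x ∈ s, 1 / (x : ℝ)),
      ← abs_mul, ← hu]
    exact congrArg _ (sum_congr rfl fun x _ => by ring)

end Pool.Agent.P.MP_baf437_nt.SP
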