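import Pool.Agent.P.MP_a14ce1_nt.Ch.Defs
import Pool.Agent.P.MP_0ad054_nt.An.Defs

/-! Interface for the subpolynomial bound on exceptional intervals of length at least a power
of the logarithm, and for primes in short intervals. -/

open Finset MeasureTheory

namespace Pool.Agent.P.MP_baf437_nt.SP

open Pool.Agent.P.MP_a14ce1_nt.Ch (ex nit cw rs)

/-- No prime above `k` divides the product to exactly the first power. -/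
def Exc (k m : ℕ) : Prop :=
  ¬ ∃ p : ℕ, p.Prime ∧ k < p ∧ (∏ i ∈ Icc 1 k, (m + i)).factorization p = 1

/-- Primes in `(a, b]`. -/
def pp (a b : ℕ) : Finset ℕ := (Ioc a b).filter Nat.Prime

/-- No prime factor up to `z`. -/
def Ro (z n : ℕ) : Prop := ∀ p ∈ pp 0 z, ¬ p ∣ n

instance (z : ℕ) : DecidablePred (Ro z) := fun n =>
  inferInstanceAs (Decidable (∀ p ∈ pp 0 z, ¬ p ∣ n))

/-- Integers in `(a, b]` without prime factors up to `z`. -/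
def ro (z a b : ℕ) : Finset ℕ := (Ioc a b).filter (Ro z)

/-- Density of the sifted integers. -/
noncomputable def VV (z : ℕ) : ℝ := ∏ p ∈ pp 0 z, (1 - 1 / (p : ℝ))

/-- Sifted integers in `(a, b]`, counted once for every prime factor in `Q`. -/
noncomputable def bet (z a b : ℕ) (Q : Finset ℕ) : ℝ :=
  ∑ p ∈ Q, (((ro z a b).filter fun n => p ∣ n).card : ℝ)

/-- Number of prime factors in `(z, Y]`. -/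
def omP (z Y r : ℕ) : ℕ := ((pp z Y).filter fun p => p ∣ r).card

/-- The trilinear sum over an interval. -/
noncomputable def gam (z Y N : ℕ) (w : ℕ → ℝ) (a b : ℕ) : ℝ :=
  ∑ q ∈ pp z Y, ∑ p ∈ pp z Y, ∑ r ∈ ro z z N,
    if q * p * r ∈ Ioc a b then w q / ((omP z Y r : ℝ) + 2) else 0

/-- A Dirichlet polynomial with real coefficients. -/
noncomputable def dp (F : Finset ℕ) (b : ℕ → ℝ) (t : ℝ) : ℂ := ∑ n ∈ F, (b n : ℂ) * nit t n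

/-- A trilinear sum with a smooth window of logarithmic length `1 / T` at `exp l`. -/
noncomputable def tri (Q P R : Finset ℕ) (a b c : ℕ → ℝ) (g : ℝ → ℝ) (T l : ℝ) : ℝ :=
  ∑ q ∈ Q, ∑ p ∈ P, ∑ r ∈ R, a q * b p * c r * g (T * (Real.log ((q * p * r : ℕ) : ℝ) - l))

/-! ### Primes in short intervals -/

def StSv : Prop := ∃ C : ℝ, 0 < C ∧
  (∀ z : ℕ, 2 ≤ z → 0 ≤ VV z ∧ VV z ≤ C / Real.log z) ∧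
  (∀ z k a b : ℕ, 2 ≤ z → a ≤ b →
    |((ro z a b).card : ℝ) - ((b : ℝ) - a) * VV z| ≤
      C / 2 ^ k * (((b : ℝ) - a) * VV z) + 2 * (z : ℝ) ^ (4 * k + 8)) ∧
  ∀ (z k a b Y : ℕ) (Q : Finset ℕ), 2 ≤ z → a ≤ b → Q ⊆ pp z Y →
    |bet z a b Q - ((b : ℝ) - a) * VV z * rs Q| ≤
      C / 2 ^ k * (((b : ℝ) - a) * VV z * rs Q) + C * Y * (z : ℝ) ^ (4 * k + 8)

def StUp : Prop := ∃ C : ℝ, 0 < C ∧
  (∀ z a b : ℕ, 2 ≤ z → a + z ^ 9 ≤ b →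
    ((ro z a b).card : ℝ) ≤ C * ((b : ℝ) - a) / Real.log z) ∧
  (∀ z a N : ℕ, 2 ≤ z → z ^ 9 ≤ a → rs (ro z a N) ≤ C * Real.log N / Real.log z) ∧
  ∀ u v : ℕ, 2 ≤ u → u ≤ v → rs (pp u v) ≤ (Real.log v - Real.log u + C) / Real.log u

def StId : Prop := ∀ (z Y N U a b : ℕ) (w : ℕ → ℝ) (B : Finset ℕ), 2 ≤ z → z ≤ Y → Y ≤ a →
  a ≤ b → b ≤ Y ^ 2 → b ≤ N → b ≤ z ^ U → (∀ q, 0 ≤ w q ∧ w q ≤ 1) → B ⊆ pp z Y →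
  (∀ q ∈ pp z Y, q ∉ B → w q = 1 ∧ q * Y ≤ a) →
  ((ro z a b).card : ℝ) - bet z a b (pp z Y) + gam z Y N w a b -
      ((U : ℝ) ^ 2 + 1) * (((b : ℝ) - a) / z + Y) ≤ (pp a b).card ∧
  ((pp a b).card : ℝ) ≤ (ro z a b).card - bet z a b (pp z Y) + gam z Y N w a b +
      bet z a b B + U * (((b : ℝ) - a) / z + Y)

def StMS : Prop := ∃ C : ℝ, 0 < C ∧ ∀ (T : ℝ) (z a N : ℕ) (F : Finset ℕ) (b : ℕ → ℝ),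
  2 ≤ T → 2 ≤ z → (z : ℝ) ^ 9 * T ≤ a → F ⊆ ro z a N → (∀ n ∈ F, |b n| ≤ 1 / (n : ℝ)) →
  ∫ t, cw T t * ‖dp F b t‖ ^ 2 ≤ C * Real.log N / Real.log z ^ 2

def StW : Prop := ∀ (w : ℝ → ℝ) (α : ℝ), ContDiff ℝ 2 w → HasCompactSupport w → 0 < α → α ≤ 1 →
  (∀ v ≤ α, w v = 0) → ∃ C : ℝ, 0 < C ∧ ∀ δ : ℝ, 0 < δ → ∃ (l0 : ℝ) (y0 : ℕ),
    ∀ (l : ℝ) (y : ℕ) (P : Finset ℕ) (t : ℝ), l0 ≤ l → y0 ≤ y → Real.log y ≤ α * l →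
      (∀ q ∈ P, q.Prime) → (∀ q : ℕ, q.Prime → w (Real.log q / l) ≠ 0 → q ∈ P) →
      2 ≤ |t| → |t| ≤ y →
      ‖dp P (fun q => w (Real.log q / l) / q) t‖ ≤ C * Real.log y / l + δ

def StF : Prop := ∀ g : ℝ → ℝ, ContDiff ℝ 2 g → HasCompactSupport g →
  ∃ C : ℝ, 0 < C ∧ ∀ ε : ℝ, 0 < ε → ∃ T1 : ℝ, 0 < T1 ∧
    ∀ (T0 T S T' l L κ M : ℝ) (Q P R : Finset ℕ) (a b c : ℕ → ℝ),
      T1 ≤ T0 → T1 ≤ T → T0 ≤ S → T ≤ S → S ≤ T' → 2 ≤ T' → 0 ∉ Q → 0 ∉ P → 0 ∉ R → 0 ≤ κ →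
      (∀ t, ‖dp Q a t‖ ≤ L) → (∀ t, 2 ≤ |t| → |t| ≤ T' → ‖dp Q a t‖ ≤ κ) →
      ∫ t, cw T' t * ‖dp P b t‖ ^ 2 ≤ M → ∫ t, cw T' t * ‖dp R c t‖ ^ 2 ≤ M →
      |T * tri Q P R a b c g T l - T0 * tri Q P R a b c g T0 l| ≤
        (ε * L + C * κ + C * (S / T') ^ 2 * L) * M

def StPN : Prop := ∃ x0 : ℕ, ∀ x a b : ℕ, x0 ≤ x → x ≤ a → b ≤ 2 * x →
  (x : ℝ) ≤ 4 * Real.log x * ((b : ℝ) - a) →
  ((b : ℝ) - a) / (2 * Real.log x) ≤ (pp a b).card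

/-- Transfer of the trilinear sum from a long interval to a short one. -/
def StTr : Prop := ∀ (u : ℕ) (e1 e2 ε : ℝ), 40 ≤ u → 0 < e1 → e1 ≤ 1 / 8 → 0 < e2 → e2 ≤ 1 / 8 →
  0 < ε → ∃ η : ℝ, 0 < η ∧ η ≤ 1 / 20 ∧ ∃ w0 : ℝ → ℝ, (∀ v, 0 ≤ w0 v ∧ w0 v ≤ 1) ∧
    (∀ v, 1 / (u : ℝ) + e1 ≤ v → v ≤ 1 / 2 - e1 → w0 v = 1) ∧
    ∃ x0 : ℕ, ∀ x W H a b z Y : ℕ, x0 ≤ x → (x : ℝ) ^ (1 - η) ≤ W → W * Real.log x ≤ x →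
      H * Real.log x ≤ x → (x : ℝ) ≤ 2 * H * Real.log x →
      (x : ℝ) + 2 * e2 * H ≤ a → (b : ℝ) ≤ x + (1 - 2 * e2) * H →
      (z : ℝ) ≤ (x : ℝ) ^ (1 / (u : ℝ)) → (x : ℝ) ^ (1 / (u : ℝ)) ≤ 2 * z →
      x ≤ Y ^ 2 → Y ≤ x →
      (1 - 2 / Real.log x) * (gam z Y (2 * x) (fun q => w0 (Real.log q / Real.log x)) a b / H) ≤
        gam z Y (2 * x) (fun q => w0 (Real.log q / Real.log x)) x (x + W) / W + ε / Real.log x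

def StHO : Prop := ∃ η c : ℝ, 0 < η ∧ η ≤ 1 / 20 ∧ 0 < c ∧ ∃ x0 : ℕ, ∀ x W : ℕ, x0 ≤ x →
  (x : ℝ) ^ (1 - η) ≤ W → W * Real.log x ≤ x → c * W / Real.log x ≤ (pp x (x + W)).card

/-! ### Counting exceptions -/

def StTy : Prop := ∀ k m p : ℕ, Exc k m → p.Prime → k < p →
  (∃ e : ℕ, e + k < p ∧ (p : ℤ) ∣ (m : ℤ) - e) ∨
    ∃ e : ℕ, e < k ∧ ((p ^ 2 : ℕ) : ℤ) ∣ ((m + k : ℕ) : ℤ) - e

def StVC : Prop := ∀ (r J j t s σ X Q : ℕ) (S : Finset ℕ) (q : Fin r → ℕ) (e : ℕ → Fin r → ℕ),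
  (∀ m ∈ S, m ≤ X ∧ ∀ l, e m l < s ∧ (q l : ℤ) ∣ (m : ℤ) - e m l) → (∀ l, Q ≤ q l) →
  0 < σ → j * t * s ≤ Q → 2 * j * t * X + 1 < t ^ j → s ≤ J * σ →
  (S.image fun m => fun l => e m l / σ).card ≤ (r * J + 1) ^ j

def StB : Prop := ∀ (I : Finset ℕ) (q : ℕ → ℕ) (Q s X D σ j t J r : ℕ) (M : Finset ℕ),
  I.Nonempty → (∀ i ∈ I, Q ≤ q i) → (∀ i ∈ I, ∀ i' ∈ I, i ≠ i' → (q i).Coprime (q i')) →
  0 < σ → X + σ < Q ^ (D + 1) → 16 * σ * D ≤ I.card → j * t * s ≤ Q →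
  2 * j * t * X + 1 < t ^ j → s ≤ J * σ → 4 * (r * J + 1) ^ j < 2 ^ r →
  (∀ m ∈ M, m ≤ X ∧
    I.card ≤ 2 * (I.filter fun i => ∃ e ∈ range s, (q i : ℤ) ∣ (m : ℤ) - (e : ℕ)).card) →
  M.card ≤ σ * 4 ^ r

def StDD : Prop := ∀ s : Finset ℕ, s.Nonempty → 0 ∉ s →
  |∑ x ∈ s, (∏ y ∈ s.erase x, ((x : ℝ) - y))⁻¹ * (1 / (x : ℝ))| = (∏ x ∈ s, (x : ℝ))⁻¹ ∧
  |∑ x ∈ s, (∏ y ∈ s.erase x, ((x : ℝ) - y))⁻¹ * (1 / (x : ℝ) ^ 2)| =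
    (∑ x ∈ s, 1 / (x : ℝ)) * (∏ x ∈ s, (x : ℝ))⁻¹

def StGap : Prop := ∀ (k m n a R τ W : ℕ) (δ ψ : ℝ) (G : Finset ℕ), (τ = 1 ∨ τ = 2) → 0 < k →
  W ≤ k → G ⊆ Ioc k (k + W) → 0 < a → 0 < R → a * R ≤ W →
  (∀ x ∈ G, ∃ q : ℤ, |(m : ℝ) / (x : ℝ) ^ τ - q| ≤ δ) →
  (a : ℝ) ^ n * m ≤ ψ * (k : ℝ) ^ (n + τ) → ψ * (k : ℝ) ^ (n + τ) ≤ (2 * a : ℝ) ^ n * m →
  4 ^ (n + 1) * ((n : ℝ) + 1) * δ < ψ →
  ((n : ℝ) + 1) * (ψ + δ) * (R : ℝ) ^ (n * (n + 1)) < 1 → G.card * R ≤ 2 * n * W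

def StSy : Prop := ∃ k0 : ℕ, ∀ k m : ℕ, k0 ≤ k → k ≤ m → m ^ 2 ≤ k ^ 3 → ¬ Exc k m

def StR3 : Prop := ∃ (C : ℝ) (k0 : ℕ), 0 < C ∧ ∀ k m : ℕ, k0 ≤ k → k ≤ m → Exc k m →
  Real.log k ^ 3 ≤ C * Real.log m ^ 2 * Real.log (Real.log k)

def StR5 : Prop := ∃ C C1 : ℝ, 0 < C ∧ 0 < C1 ∧ ∀ (X k : ℕ) (M : Finset ℕ), 16 ≤ X → k ≤ X →
  C1 * Real.log (Real.log X) ≤ Real.log k → (∀ m ∈ M, m ≤ X ∧ Exc k m) →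
  (M.card : ℝ) ≤ k * Real.exp (C * Real.log X * √(Real.log (Real.log X) / Real.log k))

def StSum : Prop := ∃ C : ℝ, ∀ (X K : ℕ) (E : Finset ℕ), 16 ≤ X → 2 ≤ K →
  (∀ n ∈ E, n ≤ X ∧ ∃ m k : ℕ, K ≤ k ∧ k ≤ m ∧ m + 1 ≤ n ∧ n ≤ m + k ∧ Exc k m) →
  (E.card : ℝ) ≤ Real.exp (C * Real.log X * √(Real.log (Real.log X) / Real.log K))

/-! ### Basic facts -/

theorem mem_pp {a b p : ℕ} : p ∈ pp a b ↔ p.Prime ∧ a < p ∧ p ≤ b := by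
  rw [pp, mem_filter, mem_Ioc, and_comm]

theorem ro_iff {z n : ℕ} : Ro z n ↔ ∀ p : ℕ, p.Prime → p ≤ z → ¬ p ∣ n :=
  ⟨fun h p hp hz => h p (mem_pp.2 ⟨hp, hp.pos, hz⟩),
    fun h p hp => h p (mem_pp.1 hp).1 (mem_pp.1 hp).2.2⟩

theorem mem_ro {z a b n : ℕ} : n ∈ ro z a b ↔ Ro z n ∧ a < n ∧ n ≤ b := by
  rw [ro, mem_filter, mem_Ioc, and_comm]

theorem Ro.mono {z z' n : ℕ} (h : Ro z n) (hz : z' ≤ z) : Ro z' n :=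
  ro_iff.2 fun p hp h' => ro_iff.1 h p hp (h'.trans hz)

theorem ro_mul {z m n : ℕ} : Ro z (m * n) ↔ Ro z m ∧ Ro z n := by
  simp only [ro_iff]
  constructor
  · exact fun h => ⟨fun p hp hz hd => h p hp hz (hd.mul_right n),
      fun p hp hz hd => h p hp hz (hd.mul_left m)⟩
  · exact fun h p hp hz hd => (hp.dvd_mul.1 hd).elim (h.1 p hp hz) (h.2 p hp hz)

theorem ro_prime {z p : ℕ} (hp : p.Prime) (hz : z < p) : Ro z p :=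
  ro_iff.2 fun q hq h hd => by
    have := (Nat.prime_dvd_prime_iff_eq hq hp).1 hd
    omega

theorem continuous_dp (F : Finset ℕ) (b : ℕ → ℝ) : Continuous (dp F b) :=
  continuous_finsetSum _ fun _ _ =>
    continuous_const.mul (Pool.Agent.P.MP_a14ce1_nt.Ch.continuous_nit _)

theorem norm_dp_le (F : Finset ℕ) (b : ℕ → ℝ) (t : ℝ) : ‖dp F b t‖ ≤ ∑ n ∈ F, |b n| :=
  (norm_sum_le _ _).trans (le_of_eq (sum_congr rfl fun n _ => by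
    rw [norm_mul, Pool.Agent.P.MP_a14ce1_nt.Ch.norm_nit, mul_one, Complex.norm_real,
      Real.norm_eq_abs]))

end Pool.Agent.P.MP_baf437_nt.SP
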