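import Pool.Agent.P.MP_baf437_nt.SP.Defs

/-! The fundamental lemma of the sieve on intervals. -/

open Finset

namespace Pool.Agent.P.MP_baf437_nt.SP

open Pool.Agent.P.MP_a14ce1_nt.Ch (ex nit cw rs pv pr pr_nat)

namespace SvAux

theorem fac_nonneg {p : ℕ} (hp : p.Prime) : 0 ≤ 1 - 1 / (p : ℝ) := by
  have h1 : (1 : ℝ) ≤ p := by exact_mod_cast hp.one_le
  have : 1 / (p : ℝ) ≤ 1 := by
    rw [div_le_one (by linarith)]
    exact h1
  linarith

theorem VV_nonneg (z : ℕ) : 0 ≤ VV z :=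
  prod_nonneg fun _ hp => fac_nonneg (mem_pp.1 hp).1

theorem VV_le_one (z : ℕ) : VV z ≤ 1 :=
  prod_le_one (fun _ hp => fac_nonneg (mem_pp.1 hp).1) fun p _ => by
    have : (0 : ℝ) ≤ 1 / (p : ℝ) := by positivity
    linarith

theorem VV_le_exp (z : ℕ) : VV z ≤ Real.exp (-rs (pp 0 z)) := by
  unfold VV rs
  rw [← sum_neg_distrib, Real.exp_sum]
  refine prod_le_prod (fun _ hp => fac_nonneg (mem_pp.1 hp).1) fun p _ => ?_
  have := Real.add_one_le_exp (-(1 / (p : ℝ)))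
  linarith

theorem div_near (a d : ℕ) (hd : 0 < d) :
    ((a / d : ℕ) : ℝ) ≤ (a : ℝ) / d ∧ (a : ℝ) / d < ((a / d : ℕ) : ℝ) + 1 := by
  refine ⟨Nat.cast_div_le, ?_⟩
  have hd' : (0 : ℝ) < d := by exact_mod_cast hd
  rw [div_lt_iff₀ hd']
  have : a < (a / d + 1) * d := by
    have h1 := Nat.div_add_mod a d
    have h2 := Nat.mod_lt a hd
    nlinarith
  exact_mod_cast this

theorem len_near (a b d : ℕ) (hd : 0 < d) :
    |(((b / d : ℕ) : ℝ) - ((a / d : ℕ) : ℝ)) - ((b : ℝ) - a) * (1 / (d : ℝ))| ≤ 1 := by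
  obtain ⟨h1, h2⟩ := div_near a d hd
  obtain ⟨h3, h4⟩ := div_near b d hd
  have e : ((b : ℝ) - a) * (1 / (d : ℝ)) = (b : ℝ) / d - (a : ℝ) / d := by ring
  rw [e, abs_le]
  constructor <;> linarith

theorem card_mul (a b d : ℕ) (hd : 0 < d) (S : ℕ → Prop) [DecidablePred S] :
    (((Ioc a b).filter S).filter fun n => d ∣ n).card =
      ((Ioc (a / d) (b / d)).filter fun r => S (d * r)).card := by
  symm
  refine card_bij (fun r _ => d * r) ?_ ?_ ?_
  · intro r hr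
    simp only [mem_filter, mem_Ioc] at hr ⊢
    obtain ⟨⟨h1, h2⟩, h3⟩ := hr
    refine ⟨⟨⟨?_, ?_⟩, h3⟩, Dvd.intro r rfl⟩
    · rw [mul_comm]
      exact (Nat.div_lt_iff_lt_mul hd).1 h1
    · rw [mul_comm]
      exact (Nat.le_div_iff_mul_le hd).1 h2
  · intro r _ s _ h
    exact Nat.eq_of_mul_eq_mul_left hd h
  · intro n hn
    simp only [mem_filter, mem_Ioc] at hn
    obtain ⟨⟨⟨h1, h2⟩, h3⟩, r, rfl⟩ := hn
    refine ⟨r, ?_, rfl⟩
    simp only [mem_filter, mem_Ioc]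
    refine ⟨⟨?_, ?_⟩, h3⟩
    · rw [Nat.div_lt_iff_lt_mul hd, mul_comm]
      exact h1
    · rw [Nat.le_div_iff_mul_le hd, mul_comm]
      exact h2

theorem card_dvd (a b d : ℕ) (hab : a ≤ b) (hd : 0 < d) :
    ((((Ioc a b).filter fun n => d ∣ n).card : ℕ) : ℝ) =
      ((b / d : ℕ) : ℝ) - ((a / d : ℕ) : ℝ) := by
  have h := card_mul a b d hd (fun _ => True)
  simp only [filter_true] at h
  rw [h, Nat.card_Ioc, Nat.cast_sub (Nat.div_le_div_right hab)]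

theorem count_T (a b : ℕ) (hab : a ≤ b) (T : Finset ℕ) (hT : ∀ p ∈ T, p.Prime) :
    |((((Ioc a b).filter fun x => ∀ p ∈ T, p ∣ x).card : ℕ) : ℝ) -
      ((b : ℝ) - a) * ∏ p ∈ T, 1 / (p : ℝ)| ≤ 1 := by
  have hpos : 0 < ∏ p ∈ T, p := prod_pos fun p hp => (hT p hp).pos
  have e1 : ((Ioc a b).filter fun x => ∀ p ∈ T, p ∣ x) =
      (Ioc a b).filter fun x => (∏ p ∈ T, p) ∣ x := by
    refine filter_congr fun x _ => ⟨fun h => ?_, fun h p hp => (dvd_prod_of_mem _ hp).trans h⟩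
    exact Finset.prod_primes_dvd x (fun p hp => (hT p hp).prime) h
  have e2 : ∏ p ∈ T, 1 / (p : ℝ) = 1 / ((∏ p ∈ T, p : ℕ) : ℝ) := by
    rw [prod_div_distrib, prod_const_one, Nat.cast_prod]
  rw [e1, e2, card_dvd a b _ hab hpos]
  exact len_near a b _ hpos

theorem part2 (hS : Pool.Agent.P.MP_a14ce1_nt.Ch.S_Sieve) : ∃ C : ℝ, 0 < C ∧
    ∀ z k a b : ℕ, 2 ≤ z → a ≤ b →
      |((ro z a b).card : ℝ) - ((b : ℝ) - a) * VV z| ≤
        C / 2 ^ k * (((b : ℝ) - a) * VV z) + 2 * (z : ℝ) ^ (4 * k + 8) := by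
  obtain ⟨C, hC, H⟩ := hS 1 (1 / 2) zero_le_one (by norm_num)
  refine ⟨C, hC, fun z k a b hz hab => ?_⟩
  have hX : (0 : ℝ) ≤ (b : ℝ) - a := sub_nonneg.2 (by exact_mod_cast hab)
  have key := H ℕ (Ioc a b) (fun _ => 1) z k (pp 0 z) (fun x p => p ∣ x) (fun p => 1 / (p : ℝ))
    ((b : ℝ) - a) 1 (((b : ℝ) - a : ℝ) : ℂ) (fun _ => 1) hz hX
    (by rw [Complex.norm_real, Real.norm_eq_abs, abs_of_nonneg hX])
    (fun _ _ => by rw [norm_one])
    (fun p hp => ⟨(mem_pp.1 hp).1, (mem_pp.1 hp).2.2⟩)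
    (fun p hp => by
      have h2 : (2 : ℝ) ≤ p := by exact_mod_cast (mem_pp.1 hp).1.two_le
      refine ⟨by positivity, le_rfl, ?_⟩
      have : 1 / (p : ℝ) ≤ 1 / 2 := one_div_le_one_div_of_le (by norm_num) h2
      linarith)
    (fun _ => zero_le_one)
    (fun T hT _ => count_T a b hab T fun p hp => (mem_pp.1 (hT hp)).1)
    (fun T hT _ => by
      have h := count_T a b hab T fun p hp => (mem_pp.1 (hT hp)).1
      rw [sum_const, nsmul_eq_mul, mul_one, ← Complex.ofReal_mul, ← Complex.ofReal_natCast,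
        ← Complex.ofReal_sub, Complex.norm_real, Real.norm_eq_abs]
      exact h)
  rw [sum_const, nsmul_eq_mul, mul_one, ← Complex.ofReal_mul, ← Complex.ofReal_natCast,
    ← Complex.ofReal_sub, Complex.norm_real, Real.norm_eq_abs, sum_const, Nat.card_Icc,
    Nat.add_sub_cancel, nsmul_eq_mul, mul_one, mul_one, Nat.cast_pow] at key
  have hz1 : (1 : ℝ) ≤ z := by exact_mod_cast (by omega : 1 ≤ z)
  have hp : (z : ℝ) ^ (4 * k + 6) ≤ (z : ℝ) ^ (4 * k + 8) := pow_le_pow_right₀ hz1 (by omega)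
  have e : ro z a b = (Ioc a b).filter fun x => ∀ p ∈ pp 0 z, ¬ p ∣ x := by
    unfold ro
    exact filter_congr fun x _ => Iff.rfl
  rw [e]
  unfold VV
  calc _ ≤ _ := key
    _ ≤ _ := by rw [mul_assoc]; linarith

theorem part1 (h1 : Pool.Agent.P.MP_a14ce1_nt.Ch.S_M1) : ∃ C : ℝ, 0 < C ∧
    ∀ z : ℕ, 2 ≤ z → VV z ≤ C / Real.log z := by
  obtain ⟨C, _, H⟩ := h1
  refine ⟨Real.exp C, Real.exp_pos _, fun z hz => ?_⟩
  have hz' : ((2 : ℕ) : ℝ) ≤ z := by exact_mod_cast hz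
  have h := H ((2 : ℕ) : ℝ) z (by norm_num) hz'
  rw [pr_nat] at h
  have hsub : rs ((Ioc 2 z).filter Nat.Prime) ≤ rs (pp 0 z) := by
    unfold rs
    refine sum_le_sum_of_subset_of_nonneg (fun p hp => ?_) fun _ _ _ => by positivity
    rw [mem_filter, mem_Ioc] at hp
    exact mem_pp.2 ⟨hp.2, hp.2.pos, hp.1.2⟩
  have hl2 : 0 < Real.log ((2 : ℕ) : ℝ) := Real.log_pos (by norm_num)
  have hl2' : Real.log ((2 : ℕ) : ℝ) ≤ 1 := by
    have := Real.log_le_sub_one_of_pos (show (0 : ℝ) < ((2 : ℕ) : ℝ) by norm_num)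
    norm_num at this ⊢
    linarith
  have hlz : 0 < Real.log z := lt_of_lt_of_le hl2 (Real.log_le_log (by norm_num) hz')
  have hq : 0 < Real.log z / Real.log ((2 : ℕ) : ℝ) := div_pos hlz hl2
  have h2 : -rs (pp 0 z) ≤ C - Real.log (Real.log z / Real.log ((2 : ℕ) : ℝ)) := by
    have := (abs_le.1 h).1
    linarith
  calc VV z ≤ Real.exp (-rs (pp 0 z)) := VV_le_exp z
    _ ≤ Real.exp (C - Real.log (Real.log z / Real.log ((2 : ℕ) : ℝ))) := Real.exp_le_exp.2 h2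
    _ = Real.exp C / (Real.log z / Real.log ((2 : ℕ) : ℝ)) := by
        rw [Real.exp_sub, Real.exp_log hq]
    _ ≤ Real.exp C / Real.log z := by
        refine div_le_div_of_nonneg_left (Real.exp_pos _).le hlz ?_
        rw [le_div_iff₀ hl2]
        exact mul_le_of_le_one_right hlz.le hl2'

theorem card_ro_dvd (z a b p : ℕ) (hp : p.Prime) (hz : z < p) :
    ((ro z a b).filter fun n => p ∣ n).card = (ro z (a / p) (b / p)).card := by
  unfold ro
  rw [card_mul a b p hp.pos (Ro z)]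
  congr 1
  exact filter_congr fun r _ => ⟨fun h => (ro_mul.1 h).2, fun h => ro_mul.2 ⟨ro_prime hp hz, h⟩⟩

end SvAux

open SvAux in
theorem pSv (hS : Pool.Agent.P.MP_a14ce1_nt.Ch.S_Sieve)
    (h1 : Pool.Agent.P.MP_a14ce1_nt.Ch.S_M1) : StSv := by
  obtain ⟨C0, hC0, H2⟩ := part2 hS
  obtain ⟨C1, hC1, H1⟩ := part1 h1
  refine ⟨C0 + C1 + 3, by linarith, fun z hz => ⟨VV_nonneg z, ?_⟩, fun z k a b hz hab => ?_,
    fun z k a b Y Q hz hab hQ => ?_⟩
  · have hlz : 0 < Real.log z := Real.log_pos (by exact_mod_cast (by omega : 1 < z))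
    exact (H1 z hz).trans (div_le_div_of_nonneg_right (by linarith) hlz.le)
  · have hX : (0 : ℝ) ≤ (b : ℝ) - a := sub_nonneg.2 (by exact_mod_cast hab)
    have hm : 0 ≤ ((b : ℝ) - a) * VV z := mul_nonneg hX (VV_nonneg z)
    have hc : C0 / 2 ^ k ≤ (C0 + C1 + 3) / 2 ^ k :=
      div_le_div_of_nonneg_right (by linarith) (by positivity)
    have := mul_le_mul_of_nonneg_right hc hm
    linarith [H2 z k a b hz hab]
  · have hX : (0 : ℝ) ≤ (b : ℝ) - a := sub_nonneg.2 (by exact_mod_cast hab)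
    have hV := VV_nonneg z
    have hV1 := VV_le_one z
    have hz1 : (1 : ℝ) ≤ z := by exact_mod_cast (by omega : 1 ≤ z)
    have hZ : (1 : ℝ) ≤ (z : ℝ) ^ (4 * k + 8) := one_le_pow₀ hz1
    have h2k : (1 : ℝ) ≤ 2 ^ k := one_le_pow₀ (by norm_num)
    have hc0 : 0 ≤ C0 / 2 ^ k := by positivity
    have hc1 : C0 / 2 ^ k ≤ C0 := div_le_self hC0.le h2k
    have hc : C0 / 2 ^ k ≤ (C0 + C1 + 3) / 2 ^ k :=
      div_le_div_of_nonneg_right (by linarith) (by positivity)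
    have each : ∀ p ∈ Q, |((((ro z a b).filter fun n => p ∣ n).card : ℕ) : ℝ) -
        ((b : ℝ) - a) * VV z * (1 / (p : ℝ))| ≤
        (C0 + C1 + 3) / 2 ^ k * (((b : ℝ) - a) * VV z * (1 / (p : ℝ))) +
          (C0 + C1 + 3) * (z : ℝ) ^ (4 * k + 8) := by
      intro p hp
      obtain ⟨hpr, hzp, _⟩ := mem_pp.1 (hQ hp)
      rw [card_ro_dvd z a b p hpr hzp]
      have h := H2 z k (a / p) (b / p) hz (Nat.div_le_div_right hab)
      have hl := len_near a b p hpr.pos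
      set ℓ : ℝ := ((b / p : ℕ) : ℝ) - ((a / p : ℕ) : ℝ)
      set m : ℝ := ((b : ℝ) - a) * (1 / (p : ℝ)) with hm
      have hm0 : 0 ≤ m := mul_nonneg hX (by positivity)
      have e : ((b : ℝ) - a) * VV z * (1 / (p : ℝ)) = m * VV z := by rw [hm]; ring
      rw [e]
      obtain ⟨hl1, hl2⟩ := abs_le.1 hl
      obtain ⟨ha1, ha2⟩ := abs_le.1 h
      have u1 : ℓ * VV z ≤ m * VV z + 1 := by nlinarith
      have u2 : m * VV z - 1 ≤ ℓ * VV z := by nlinarith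
      have u3 : C0 / 2 ^ k * (ℓ * VV z) ≤ C0 / 2 ^ k * (m * VV z + 1) :=
        mul_le_mul_of_nonneg_left u1 hc0
      have u4 : C0 / 2 ^ k * (m * VV z) ≤ (C0 + C1 + 3) / 2 ^ k * (m * VV z) :=
        mul_le_mul_of_nonneg_right hc (mul_nonneg hm0 hV)
      have u5 : C0 ≤ C0 * (z : ℝ) ^ (4 * k + 8) := le_mul_of_one_le_right hC0.le hZ
      have u6 : 0 ≤ C1 * (z : ℝ) ^ (4 * k + 8) := by positivity
      rw [abs_le]
      constructor <;> nlinarith
    have hcard : (Q.card : ℝ) ≤ Y := by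
      have : Q.card ≤ (Ioc 0 Y).card := card_le_card fun p hp => by
        obtain ⟨hpr, _, hY⟩ := mem_pp.1 (hQ hp)
        exact mem_Ioc.2 ⟨hpr.pos, hY⟩
      rw [Nat.card_Ioc, Nat.sub_zero] at this
      exact_mod_cast this
    unfold bet rs
    rw [mul_sum, ← sum_sub_distrib]
    refine (abs_sum_le_sum_abs _ _).trans ((sum_le_sum each).trans ?_)
    rw [sum_add_distrib, ← mul_sum, sum_const, nsmul_eq_mul]
    have hpos : 0 ≤ (C0 + C1 + 3) * (z : ℝ) ^ (4 * k + 8) := by positivity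
    have := mul_le_mul_of_nonneg_right hcard hpos
    linarith

end Pool.Agent.P.MP_baf437_nt.SP
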